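import Pool.Graph.R_seed8.Y466.FT.Abs

/-!
# The growth of functions of finite degree on a monoid
-/

set_option autoImplicit false

namespace Pool.Agent.H66.VU

open Pool.Agent.Y466.FT

/-- The number `x` has a denominator dividing `d`, and `|d x| ≤ C`. -/
def Bd (d C : ℕ) (x : ℚ) : Prop := ∃ z : ℤ, (d : ℚ) * x = z ∧ |z| ≤ (C : ℤ)

theorem Bd.add {d C C' : ℕ} {x y : ℚ} (h : Bd d C x) (h' : Bd d C' y) :
    Bd d (C + C') (x + y) := by
  obtain ⟨z, h1, h2⟩ := h
  obtain ⟨z', h1', h2'⟩ := h'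
  refine ⟨z + z', ?_, ?_⟩
  · rw [mul_add, h1, h1']; push_cast; ring
  · have := abs_add_le z z'
    push_cast
    linarith

theorem Bd.mono {d C C' : ℕ} (hC : C ≤ C') {x : ℚ} (h : Bd d C x) : Bd d C' x := by
  obtain ⟨z, h1, h2⟩ := h
  exact ⟨z, h1, h2.trans (by exact_mod_cast hC)⟩

theorem Bd.mul {d C : ℕ} {x : ℚ} (e : ℕ) (h : Bd d C x) : Bd (e * d) (e * C) x := by
  obtain ⟨z, h1, h2⟩ := h
  refine ⟨e * z, ?_, ?_⟩
  · push_cast
    rw [mul_assoc, h1]
  · rw [abs_mul, Nat.abs_cast]
    push_cast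
    exact mul_le_mul_of_nonneg_left h2 (Nat.cast_nonneg _)

theorem Bd.up {d C D : ℕ} {x : ℚ} (hD : 0 < D) (hd : d ∣ D) (h : Bd d C x) : Bd D (D * C) x := by
  obtain ⟨e, rfl⟩ := hd
  have h1 := h.mul e
  rw [mul_comm d e]
  refine h1.mono ?_
  have : 1 ≤ d := Nat.one_le_iff_ne_zero.2 (by rintro rfl; simp at hD)
  calc e * C = e * 1 * C := by ring
    _ ≤ e * d * C := Nat.mul_le_mul_right _ (Nat.mul_le_mul_left _ this)

theorem exists_Bd {M : Type*} {S : Set M} (hS : S.Finite) (φ : M → ℚ) :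
    ∃ d C : ℕ, 0 < d ∧ ∀ s ∈ S, Bd d C (φ s) := by
  classical
  induction S, hS using Set.Finite.induction_on with
  | empty => exact ⟨1, 0, one_pos, fun s hs => absurd hs (Set.notMem_empty s)⟩
  | @insert a S _ _ ih =>
    obtain ⟨d, C, hd, h⟩ := ih
    refine ⟨(φ a).den * d, (φ a).den * C + d * (φ a).num.natAbs, Nat.mul_pos (φ a).pos hd,
      fun s hs => ?_⟩
    rcases Set.mem_insert_iff.1 hs with rfl | hs
    · refine Bd.mono (Nat.le_add_left _ _) ⟨d * (φ s).num, ?_, ?_⟩
      · have h1 : ((φ s).den : ℚ) * φ s = (φ s).num := Rat.den_mul_eq_num (φ s)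
        push_cast
        rw [mul_comm ((φ s).den : ℚ) (d : ℚ), mul_assoc, h1]
      · rw [abs_mul, Nat.abs_cast]
        push_cast
        exact le_rfl
    · exact ((h s hs).mul _).mono (Nat.le_add_right _ _)

theorem pow_step (m n : ℕ) : m ^ (n + 1) + m ^ n ≤ (m + 1) ^ (n + 1) := by
  have h1 : m ^ n ≤ (m + 1) ^ n := Nat.pow_le_pow_left (Nat.le_succ m) n
  calc m ^ (n + 1) + m ^ n = (m + 1) * m ^ n := by ring
    _ ≤ (m + 1) * (m + 1) ^ n := Nat.mul_le_mul_left _ h1
    _ = _ := by ring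

section
variable {M : Type*} [Monoid M] {E R : Set (M × M)}

/-- **Polynomial growth**: a function of degree at most `n` grows at most like the `n`-th power of
the number of the factors, if these are taken from a finite set of elements which are trivial modulo
the relations and the resolutions of double points. -/
theorem poly {P S : Set M} (hP : P.Finite) (hS : S.Finite) (hpu : ∀ p ∈ P, Pu R E p) (n : ℕ) :
    ∀ φ : M → ℚ, Dg E (n + 1) φ → Iv R φ → ∃ d C : ℕ, 0 < d ∧ ∀ l : List M, (∀ p ∈ l, p ∈ P) →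
      ∀ s ∈ S, Bd d (C * (l.length + 1) ^ n) (φ (l.prod * s)) := by
  classical
  induction n with
  | zero =>
    intro φ hd hi
    obtain ⟨d, C, h0, h⟩ := exists_Bd hS φ
    refine ⟨d, C, h0, fun l hl s hs => ?_⟩
    have e : φ (l.prod * s) = φ s := by
      induction l with
      | nil => rw [List.prod_nil, one_mul]
      | cons p l ih =>
        have h1 : Tr p φ (l.prod * s) = 0 := hd.tr hi (hpu p (hl p List.mem_cons_self)) _
        have h2 : φ (p * (l.prod * s)) = φ (l.prod * s) := sub_eq_zero.1 h1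
        rw [List.prod_cons, mul_assoc, h2]
        exact ih fun q hq => hl q (List.mem_cons_of_mem _ hq)
    rw [e, pow_zero, mul_one]
    exact h s hs
  | succ n ih =>
    intro φ hd hi
    obtain ⟨d, C, h0, h⟩ := exists_Bd hS φ
    have key : ∀ p : M, ∃ d C : ℕ, 0 < d ∧ (p ∈ P → ∀ l : List M, (∀ p ∈ l, p ∈ P) →
        ∀ s ∈ S, Bd d (C * (l.length + 1) ^ n) (Tr p φ (l.prod * s))) := by
      intro p
      by_cases hp : p ∈ P
      · obtain ⟨d, C, h1, h2⟩ := ih (Tr p φ) (hd.tr hi (hpu p hp)) (hi.tr p)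
        exact ⟨d, C, h1, fun _ => h2⟩
      · exact ⟨1, 0, one_pos, fun h => absurd h hp⟩
    choose dp Cp hdp hCp using key
    set D := d * ∏ p ∈ hP.toFinset, dp p with hD
    have hD0 : 0 < D := Nat.mul_pos h0 (Finset.prod_pos fun p _ => hdp p)
    set K := D * C + ∑ p ∈ hP.toFinset, D * Cp p with hK
    refine ⟨D, K, hD0, fun l hl s hs => ?_⟩
    induction l with
    | nil =>
      rw [List.prod_nil, one_mul]
      refine ((h s hs).up hD0 (Dvd.intro _ rfl)).mono ?_
      simp only [List.length_nil, zero_add, one_pow, mul_one]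
      exact Nat.le_add_right _ _
    | cons p l ihl =>
      have hp := hl p List.mem_cons_self
      have hl' : ∀ q ∈ l, q ∈ P := fun q hq => hl q (List.mem_cons_of_mem _ hq)
      have h1 := ihl hl'
      have hpF : p ∈ hP.toFinset := hP.mem_toFinset.2 hp
      have h2 := (hCp p hp l hl' s hs).up hD0
        ((Finset.dvd_prod_of_mem dp hpF).trans (Dvd.intro_left _ rfl))
      have e : φ ((p :: l).prod * s) = φ (l.prod * s) + Tr p φ (l.prod * s) := by
        rw [List.prod_cons, mul_assoc]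
        unfold Tr
        ring
      rw [e]
      refine (h1.add h2).mono ?_
      have h3 : D * Cp p ≤ K := (Finset.single_le_sum (f := fun p => D * Cp p)
        (fun _ _ => Nat.zero_le _) hpF).trans (Nat.le_add_left _ _)
      rw [List.length_cons]
      calc K * (l.length + 1) ^ (n + 1) + D * (Cp p * (l.length + 1) ^ n)
          ≤ K * (l.length + 1) ^ (n + 1) + K * (l.length + 1) ^ n := by
            rw [← mul_assoc]
            exact Nat.add_le_add_left (Nat.mul_le_mul_right _ h3) _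
        _ = K * ((l.length + 1) ^ (n + 1) + (l.length + 1) ^ n) := by ring
        _ ≤ _ := Nat.mul_le_mul_left _ (pow_step _ _)

end

end Pool.Agent.H66.VU
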