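import Pool.Agent.H66.VU.Nrm
import Pool.Agent.H66.VU.Abs

/-!
# Crossing changes and the size of the values at singular knots
-/

set_option autoImplicit false

namespace Pool.Agent.H66.VU

open Pool.Agent.H835R2 Pool.Agent.H835R2.Knot Pool.Agent.H835R2.Flat Pool.Agent.Y466.FT
  Pool.Agent.H66.VG
open Pool.Agent.H835R2.Flat.FP
open Pool.Agent.H835R2.Knot.St (tok content o e)

theorem Bd.neg {d C : ℕ} {x : ℚ} (h : Bd d C x) : Bd d C (-x) := by
  obtain ⟨z, h1, h2⟩ := h
  exact ⟨-z, by rw [mul_neg, h1]; push_cast; ring, by rw [abs_neg]; exact h2⟩

theorem Bd.zero (d C : ℕ) : Bd d C 0 := ⟨0, by simp, by simp⟩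

/-- Only crossings are marked. -/
def Mk (M : MWord) : Prop := ∀ x ∈ M, x.2 = true → x.1.isCrossing = true

/-- The signs of some crossings without marks are changed. -/
def SM (M M' : MWord) : Prop :=
  List.Forall₂ (fun x y : Piece × Bool => y = x ∨ (x.2 = false ∧ y = (x.1.switch, false))) M M'

theorem SM.same {M M' : MWord} (h : SM M M') : Same (pl M) (pl M') := by
  induction h with
  | nil => exact List.Forall₂.nil
  | cons h _ ih =>
    refine List.Forall₂.cons ?_ ih
    rcases h with rfl | ⟨-, rfl⟩
    · exact Or.inl rfl
    · exact Or.inr rfl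

theorem SM.length {M M' : MWord} (h : SM M M') : M'.length = M.length :=
  (List.Forall₂.length_eq h).symm

theorem pl_append (x y : MWord) : pl (x ++ y) = pl x ++ pl y := List.map_append

theorem switch_eq {p : Piece} (h : p.isCrossing = false) : p.switch = p := by
  cases p with
  | birth i b => rfl
  | death i => rfl
  | pos i => exact absurd h (by simp [Piece.isCrossing])
  | neg i => exact absurd h (by simp [Piece.isCrossing])

/-- Changing the signs of the crossings without marks. -/
theorem change {v : Word → ℚ} {k d C : ℕ} {f : ℕ → ℕ}
    (H : ∀ M : MWord, Mk M → IsKnot (pl M) → nm M = k + 1 →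
      Bd d (C * f M.length) (malt M (ext v))) {M M' : MWord} (h : SM M M') :
    ∀ Z : MWord, Mk (Z ++ M) → IsKnot (pl (Z ++ M)) → nm (Z ++ M) = k →
      Bd d (M.length * (C * f (Z ++ M).length))
        (malt (Z ++ M) (ext v) - malt (Z ++ M') (ext v)) := by
  induction h with
  | nil =>
    intro Z _ _ _
    rw [sub_self]
    exact Bd.zero _ _
  | @cons a b M M' h1 h2 ih =>
    intro Z hm hk hn
    have e1 : ∀ c : Piece × Bool, ∀ N : MWord, Z ++ c :: N = Z ++ [c] ++ N := fun c N => by simp
    rcases h1 with rfl | ⟨ha, rfl⟩
    · rw [e1] at hm hk hn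
      have h3 := ih (Z ++ [b]) hm hk hn
      rw [e1 b M, e1 b M']
      refine h3.mono (Nat.mul_le_mul_right _ ?_)
      rw [List.length_cons]
      omega
    · obtain ⟨p, c⟩ := a
      obtain rfl : c = false := ha
      have hlen : ∀ q : Piece, ∀ c : Bool, (Z ++ [(q, c)] ++ M).length = (Z ++ (p, false) :: M).length := by
        intro q c
        simp
      -- the knot with one more double point
      have hA : Bd d (C * f (Z ++ (p, false) :: M).length)
          (malt (Z ++ [(p, true)] ++ M) (ext v)) := by
        by_cases hp : p.isCrossing = true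
        · rw [← hlen p true]
          refine H _ ?_ ?_ ?_
          · intro x hx hx2
            rw [List.append_assoc, List.mem_append, List.mem_append, List.mem_singleton] at hx
            rcases hx with hx | rfl | hx
            · exact hm x (List.mem_append_left _ hx) hx2
            · exact hp
            · exact hm x (List.mem_append_right _ (List.mem_cons_of_mem _ hx)) hx2
          · rw [e1] at hk
            have : pl (Z ++ [(p, true)] ++ M) = pl (Z ++ [(p, false)] ++ M) := by
              simp [pl]
            rw [this]
            exact hk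
          · rw [e1] at hn
            rw [nm_append, nm_append] at hn ⊢
            have e2 : nm [(p, true)] = 1 := rfl
            have e3 : nm [(p, false)] = 0 := rfl
            omega
        · rw [malt_mark, switch_eq (by simpa using hp), sub_self]
          exact Bd.zero _ _
      have hm' : Mk (Z ++ [(p.switch, false)] ++ M) := by
        intro x hx hx2
        rw [List.append_assoc, List.mem_append, List.mem_append, List.mem_singleton] at hx
        rcases hx with hx | rfl | hx
        · exact hm x (List.mem_append_left _ hx) hx2
        · exact absurd hx2 (by simp)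
        · exact hm x (List.mem_append_right _ (List.mem_cons_of_mem _ hx)) hx2
      have hk' : IsKnot (pl (Z ++ [(p.switch, false)] ++ M)) := by
        have h4 : Same (pl (Z ++ [(p, false)] ++ M)) (pl (Z ++ [(p.switch, false)] ++ M)) := by
          rw [pl_append, pl_append, pl_append, pl_append]
          exact Same.switch (pl Z) (pl M) p
        refine h4.knot.2 ?_
        rw [← e1]
        exact hk
      have hn' : nm (Z ++ [(p.switch, false)] ++ M) = k := by
        rw [e1] at hn
        rw [nm_append, nm_append] at hn ⊢
        exact hn
      have hB := ih (Z ++ [(p.switch, false)]) hm' hk' hn'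
      rw [hlen] at hB
      have hmk := malt_mark Z M p (ext v)
      have e2 : malt (Z ++ (p, false) :: M) (ext v) - malt (Z ++ (p.switch, false) :: M') (ext v) =
          malt (Z ++ [(p, true)] ++ M) (ext v) + (malt (Z ++ [(p.switch, false)] ++ M) (ext v) -
            malt (Z ++ [(p.switch, false)] ++ M') (ext v)) := by
        rw [e1 (p, false) M, e1 (p.switch, false) M', hmk]
        ring
      show Bd d _ (malt (Z ++ (p, false) :: M) (ext v) - malt (Z ++ (p.switch, false) :: M') (ext v))
      rw [e2]
      refine (hA.add hB).mono ?_
      rw [List.length_cons]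
      have : (M.length + 1) * (C * f (Z ++ (p, false) :: M).length) =
        C * f (Z ++ (p, false) :: M).length + M.length * (C * f (Z ++ (p, false) :: M).length) := by
        ring
      exact this.ge

/-! ### Positive crossings -/

/-- The positive crossing. -/
def psc : Piece → Piece
  | .neg i => .pos i
  | p => p

theorem psc_eq (p : Piece) : psc p = p ∨ psc p = p.switch := by
  cases p with
  | neg i => exact Or.inr rfl
  | _ => exact Or.inl rfl

/-- Marked crossings become positive. -/
def mp (M : MWord) : MWord := M.map fun x => if x.2 = true then (psc x.1, true) else x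

/-- All crossings become positive. -/
def ap (M : MWord) : MWord := M.map fun x => (psc x.1, x.2)

theorem sm_mp_ap (M : MWord) : SM (mp M) (ap M) := by
  induction M with
  | nil => exact List.Forall₂.nil
  | cons x M ih =>
    refine List.Forall₂.cons ?_ ih
    obtain ⟨p, c⟩ := x
    cases c with
    | true => exact Or.inl rfl
    | false =>
      rcases psc_eq p with h | h
      · refine Or.inl ?_
        show (psc p, false) = (p, false)
        rw [h]
      · refine Or.inr ⟨rfl, ?_⟩
        show (psc p, false) = (p.switch, false)
        rw [h]

theorem mp_malt (M : MWord) : ∃ ε : ℚ, (ε = 1 ∨ ε = -1) ∧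
    ∀ g : Word → ℚ, malt M g = ε * malt (mp M) g := by
  induction M with
  | nil => exact ⟨1, Or.inl rfl, fun g => (one_mul _).symm⟩
  | cons x M ih =>
    obtain ⟨ε, h1, h2⟩ := ih
    obtain ⟨p, c⟩ := x
    cases c with
    | false => exact ⟨ε, h1, fun g => h2 _⟩
    | true =>
      rcases psc_eq p with h | h
      · refine ⟨ε, h1, fun g => ?_⟩
        show malt M (fun u => g (p :: u)) - malt M (fun u => g (p.switch :: u)) =
          ε * (malt (mp M) (fun u => g (psc p :: u)) - malt (mp M) (fun u => g ((psc p).switch :: u)))
        rw [h, h2, h2]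
        ring
      · refine ⟨-ε, by rcases h1 with rfl | rfl <;> simp, fun g => ?_⟩
        show malt M (fun u => g (p :: u)) - malt M (fun u => g (p.switch :: u)) =
          -ε * (malt (mp M) (fun u => g (psc p :: u)) - malt (mp M) (fun u => g ((psc p).switch :: u)))
        have h3 : p.switch.switch = p := by cases p <;> rfl
        rw [h, h3, h2, h2]
        ring

theorem mp_same (M : MWord) : Same (pl M) (pl (mp M)) := by
  induction M with
  | nil => exact List.Forall₂.nil
  | cons x M ih =>
    refine List.Forall₂.cons ?_ ih
    obtain ⟨p, c⟩ := x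
    cases c with
    | true => exact psc_eq p
    | false => exact Or.inl rfl

theorem mp_nm (M : MWord) : nm (mp M) = nm M := by
  unfold nm mp
  rw [List.countP_map]
  congr 1
  funext x
  obtain ⟨p, c⟩ := x
  cases c <;> rfl

theorem ap_nm (M : MWord) : nm (ap M) = nm M := by
  unfold nm ap
  rw [List.countP_map]
  rfl

theorem psc_cross (p : Piece) : (psc p).isCrossing = p.isCrossing := by cases p <;> rfl

theorem mp_mk {M : MWord} (h : Mk M) : Mk (mp M) := by
  intro x hx hx2
  obtain ⟨y, hy, rfl⟩ := List.mem_map.1 hx
  obtain ⟨p, c⟩ := y
  cases c with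
  | true =>
    show (psc p).isCrossing = true
    rw [psc_cross]
    exact h _ hy rfl
  | false => exact absurd hx2 (by simp)

theorem ap_mk {M : MWord} (h : Mk M) : Mk (ap M) := by
  intro x hx hx2
  obtain ⟨y, hy, rfl⟩ := List.mem_map.1 hx
  show (psc y.1).isCrossing = true
  rw [psc_cross]
  exact h _ hy hx2

theorem ap_ng (M : MWord) : ng (ap M) = 0 := by
  unfold ng ap
  rw [List.countP_map, List.countP_eq_zero]
  intro x _
  obtain ⟨p, c⟩ := x
  cases p <;> simp [psc]

theorem mp_length (M : MWord) : (mp M).length = M.length := List.length_map _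
theorem ap_length (M : MWord) : (ap M).length = M.length := List.length_map _

/-! ### Flat words as marked words -/

/-- The marked word of a flat word. -/
def yM (w : FWord) : MWord := w.map fun p => (p.pc, match p with | dbl _ => true | _ => false)

theorem alt_yM (w : FWord) (g : Word → ℚ) : malt (yM w) g = alt w g := by
  induction w generalizing g with
  | nil => rfl
  | cons p w ih =>
    cases p with
    | birth i b => exact ih _
    | death i => exact ih _
    | X i => exact ih _
    | dbl i =>
      show malt (yM w) (fun u => g (.pos i :: u)) - malt (yM w) (fun u => g (.neg i :: u)) = _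
      rw [ih, ih, alt_dbl]

theorem pl_yM (w : FWord) : pl (yM w) = pw w := by
  unfold pl yM Flat.pw
  rw [List.map_map]
  rfl

theorem nm_yM (w : FWord) : nm (yM w) = nd w := by
  unfold nm yM nd
  rw [List.countP_map]
  rfl

theorem yM_append (a b : FWord) : yM (a ++ b) = yM a ++ yM b := List.map_append

theorem yM_mk (w : FWord) : Mk (yM w) := by
  intro x hx hx2
  obtain ⟨p, _, rfl⟩ := List.mem_map.1 hx
  cases p with
  | dbl i => rfl
  | birth i b => exact absurd hx2 (by simp)
  | death i => exact absurd hx2 (by simp)
  | X i => exact absurd hx2 (by simp)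

/-- A plain word. -/
def fM (w : Word) : MWord := w.map fun p => (p, false)

theorem yM_flat {u : FWord} (h : nd u = 0) : yM u = fM (pw u) := by
  have h' := nd_zero_iff.1 h
  unfold yM fM Flat.pw
  rw [List.map_map]
  refine List.map_congr_left fun p hp => ?_
  cases p with
  | dbl i => exact absurd hp (h' i)
  | _ => rfl

theorem sm_fM {a b : Word} (h : Same a b) (Y : MWord) : SM (fM a ++ Y) (fM b ++ Y) := by
  refine List.rel_append ?_ ?_
  · induction h with
    | nil => exact List.Forall₂.nil
    | cons h _ ih =>
      refine List.Forall₂.cons ?_ ih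
      rcases h with rfl | rfl
      · exact Or.inl rfl
      · exact Or.inr ⟨rfl, rfl⟩
  · exact List.forall₂_same.2 fun _ _ => Or.inl rfl

theorem malt_fM (a : Word) (Y : MWord) (g : Word → ℚ) :
    malt (fM a ++ Y) g = malt Y fun b => g (a ++ b) := by
  induction a generalizing g with
  | nil => rfl
  | cons p a ih => exact ih _

end Pool.Agent.H66.VU
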