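import Pool.Agent.H66.VU.Fin

/-!
# The spaces of additive invariants of order at most `k + 1` modulo those of order at most `k`
-/

set_option autoImplicit false

namespace Pool.Agent.H66.VU

open Pool.Agent.H835R2 Pool.Agent.H835R2.Knot Pool.Agent.H835R2.Flat Pool.Agent.Y466.FT
  Pool.Agent.H66.VG
open Pool.Agent.H835R2.Flat.FP

section
variable {K : Type} [Field K]

theorem alt_add (w : FWord) (g g' : Word → K) :
    alt w (fun u => g u + g' u) = alt w g + alt w g' := by
  have h1 := alt_sub w (fun u => g u + g' u) g'
  simp only [add_sub_cancel_right] at h1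
  rw [h1, sub_add_cancel]

theorem alt_smul (w : FWord) (a : K) (g : Word → K) :
    alt w (fun u => a * g u) = a * alt w g := by
  induction w generalizing g with
  | nil => rfl
  | cons p w ih =>
    cases p with
    | birth i b => exact ih _
    | death i => exact ih _
    | X i => exact ih _
    | dbl i => rw [alt_dbl, ih, ih, alt_dbl, mul_sub]

variable (K)

/-- The values at the flat words of `R`. -/
noncomputable def ev (n : ℕ) (R : Set FWord) : Prim K n →ₗ[K] (R → K) where
  toFun v := fun r => alt r.1 v.1
  map_add' v v' := funext fun r => alt_add r.1 v.1 v'.1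
  map_smul' a v := funext fun r => alt_smul r.1 a v.1

/-- **Finiteness**: the space of the additive invariants of order at most `k + 1` modulo those of
order at most `k` is finite dimensional. -/
theorem finite_quot (k : ℕ) :
    Module.Finite K (Prim K (k + 1) ⧸ (Prim K k).submoduleOf (Prim K (k + 1))) := by
  obtain ⟨R, hRf, hR⟩ := exists_flat_reps (k + 1) (Nat.succ_pos k)
  have : Finite R := hRf.to_subtype
  have hker : LinearMap.ker (ev K (k + 1) R) ≤ (Prim K k).submoduleOf (Prim K (k + 1)) := by
    intro v hv
    refine Submodule.mem_comap.2 ?_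
    refine ⟨v.2.1, ?_, v.2.2.2⟩
    refine degreeLE_of_alt v.2.2.1 fun D hD hn => ?_
    obtain ⟨r, hr, h⟩ := hR D hD hn
    exact h v.1 v.2.1 (deg_of_degreeLE v.2.2.1) (congrFun (LinearMap.mem_ker.1 hv) ⟨r, hr⟩)
  -- the quotient by the kernel is finite dimensional, so is the smaller quotient
  have h1 : Module.Finite K (Prim K (k + 1) ⧸ LinearMap.ker (ev K (k + 1) R)) :=
    Module.Finite.of_injective
      ((LinearMap.ker (ev K (k + 1) R)).liftQ (ev K (k + 1) R) le_rfl)
      (LinearMap.ker_eq_bot.1 (Submodule.ker_liftQ_eq_bot _ _ _ le_rfl))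
  exact Module.Finite.of_surjective
    (Submodule.factor hker) (Submodule.factor_surjective hker)

/-- An additive invariant of order `0` vanishes. -/
theorem prim_zero {v : Word → K} (hv : v ∈ Prim K 0) {D : Word} (hD : IsKnot D) : v D = 0 := by
  refine zero_of_circle hv.1 hv.2.1 ?_ hD
  have h := hv.2.2 [.birth 0 true] [.death 0] true (by decide) (by decide) rfl
  have h' : v circle = v circle + v circle := h
  exact (add_eq_left.1 h'.symm)

theorem weight_succ (N : ℕ) : weight K (N + 1) = weight K N + (N + 1) * primDim K N := by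
  unfold weight
  rw [Finset.sum_range_succ]

/-- Generators. -/
theorem exists_gen (N : ℕ) : ∃ (r : ℕ) (w : Fin r → Word → K) (m : Fin r → ℕ),
    (∀ i, w i ∈ Prim K (m i)) ∧ ∑ i, m i = weight K N ∧
      ∀ v ∈ Prim K N, ∃ c : Fin r → K, ∀ D, IsKnot D → v D = ∑ i, c i * w i D := by
  induction N with
  | zero =>
    refine ⟨0, fun i => i.elim0, fun i => i.elim0, fun i => i.elim0, rfl, fun v hv => ?_⟩
    exact ⟨fun i => i.elim0, fun D hD => by rw [prim_zero K hv hD]; rfl⟩
  | succ N ih =>
    obtain ⟨r, w, m, h1, h2, h3⟩ := ih
    have := finite_quot K N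
    let b := Module.finBasis K (Prim K (N + 1) ⧸ (Prim K N).submoduleOf (Prim K (N + 1)))
    have hg : ∀ j : Fin (primDim K N), ∃ g : Prim K (N + 1),
        ((Prim K N).submoduleOf (Prim K (N + 1))).mkQ g = b j := fun j =>
      Submodule.mkQ_surjective _ _
    choose g hg using hg
    refine ⟨r + primDim K N, Fin.append w (fun j => (g j).1), Fin.append m (fun _ => N + 1),
      fun i => ?_, ?_, fun v hv => ?_⟩
    · refine Fin.addCases (fun i => ?_) (fun j => ?_) i
      · rw [Fin.append_left, Fin.append_left]
        exact h1 i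
      · rw [Fin.append_right, Fin.append_right]
        exact (g j).2
    · rw [Fin.sum_univ_add, weight_succ, ← h2]
      simp only [Fin.append_left, Fin.append_right, Finset.sum_const, Finset.card_univ,
        Fintype.card_fin, smul_eq_mul]
      ring
    · set a : Fin (primDim K N) → K := fun j =>
        b.repr (((Prim K N).submoduleOf (Prim K (N + 1))).mkQ ⟨v, hv⟩) j with ha
      have hmem : (⟨v, hv⟩ - ∑ j, a j • g j : Prim K (N + 1)) ∈
          (Prim K N).submoduleOf (Prim K (N + 1)) := by
        rw [← Submodule.Quotient.mk_eq_zero, ← Submodule.mkQ_apply, map_sub, map_sum]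
        simp only [map_smul, hg]
        rw [sub_eq_zero]
        exact (b.sum_repr _).symm
      obtain ⟨c, hc⟩ := h3 _ (Submodule.mem_comap.1 hmem)
      refine ⟨Fin.append c a, fun D hD => ?_⟩
      have h4 := hc D hD
      rw [Fin.sum_univ_add]
      simp only [Fin.append_left, Fin.append_right]
      rw [← h4]
      have h5 : ((Submodule.subtype (Prim K (N + 1))) (⟨v, hv⟩ - ∑ j, a j • g j)) D =
          v D - ∑ j, a j * (g j).1 D := by
        rw [map_sub, map_sum]
        simp only [map_smul, Submodule.subtype_apply, Pi.sub_apply, Finset.sum_apply,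
          Pi.smul_apply, smul_eq_mul]
      rw [h5]
      ring

end

end Pool.Agent.H66.VU
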