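import Pool.Agent.H66.VU.LayLE

/-!
# Exact moves of flat diagrams

Moves of singular knots which are isotopies if all crossings are positive.
-/

set_option autoImplicit false

namespace Pool.Agent.H66.VU

open Pool.Agent.H835R2 Pool.Agent.H835R2.Knot Pool.Agent.H835R2.Flat Pool.Agent.Y466.FT
  Pool.Agent.H66.VG
open Pool.Agent.H835R2.Flat.FP
open Pool.Agent.H835R2.Knot.St (tok content o e)

/-- Words related by moves, such that the values of all invariants agree. -/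
def Ex (F : Front) (u w : FWord) : Prop :=
  LE F u w ∧ ∀ (x y : FWord) (v : Word → ℚ), IsInvariant v → fr x Front.empty = F →
    Kn (x ++ u ++ y) → alt (x ++ u ++ y) v = alt (x ++ w ++ y) v

theorem kn_ctx {F : Front} {u w x y : FWord} (h : LE F u w) (hx : fr x Front.empty = F)
    (hk : Kn (x ++ u ++ y)) : Kn (x ++ w ++ y) := by
  subst hx
  exact (kn_le (LE.mid gf_empty hk.ok h)).1 hk

theorem Ex.refl (F : Front) (w : FWord) : Ex F w w :=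
  ⟨LE.refl _ _, fun _ _ _ _ _ _ => rfl⟩

theorem Ex.trans {F : Front} {u v w : FWord} (h : Ex F u v) (h' : Ex F v w) : Ex F u w :=
  ⟨h.1.trans h'.1, fun x y f hf hx hk => (h.2 x y f hf hx hk).trans
    (h'.2 x y f hf hx (kn_ctx h.1 hx hk))⟩

theorem Ex.symm {F : Front} {u w : FWord} (h : Ex F u w) : Ex F w u :=
  ⟨h.1.symm, fun x y f hf hx hk => (h.2 x y f hf hx (kn_ctx h.1.symm hx hk)).symm⟩

theorem Ex.app {F : Front} (hF : GF F) {v w : FWord} (h : Ex F v w) {b : FWord}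
    (hb : Flat.ok (v ++ b) F) : Ex F (v ++ b) (w ++ b) := by
  refine ⟨h.1.app hF hb, fun x y f hf hx hk => ?_⟩
  have e1 : x ++ (v ++ b) ++ y = x ++ v ++ (b ++ y) := by simp
  have e2 : x ++ (w ++ b) ++ y = x ++ w ++ (b ++ y) := by simp
  rw [e1] at hk ⊢
  rw [e2]
  exact h.2 x (b ++ y) f hf hx hk

theorem Ex.pre {F : Front} {a v w : FWord} (ha : Flat.ok a F) (h : Ex (Flat.fr a F) v w) :
    Ex F (a ++ v) (a ++ w) := by
  refine ⟨LE.pre ha h.1, fun x y f hf hx hk => ?_⟩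
  have e1 : x ++ (a ++ v) ++ y = x ++ a ++ v ++ y := by simp
  have e2 : x ++ (a ++ w) ++ y = x ++ a ++ w ++ y := by simp
  rw [e1] at hk ⊢
  rw [e2]
  exact h.2 (x ++ a) y f hf (by rw [Flat.fr_append, hx]) hk

theorem Ex.mid {F : Front} (hF : GF F) {a l r b : FWord} (h : Flat.ok (a ++ l ++ b) F)
    (e : Ex (Flat.fr a F) l r) : Ex F (a ++ l ++ b) (a ++ r ++ b) := by
  have h' := h
  rw [Flat.ok_append, Flat.ok_append] at h'
  exact (Ex.pre h'.1.1 e).app hF h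

theorem Ex.mk' {F : Front} {u w : FWord} (h : LE F u w)
    (hH : ∀ (x y : FWord) (v : Word → ℚ), IsInvariant v → fr x Front.empty = F →
      IsKnot (pw x ++ pw u ++ pw y) → IsKnot (pw x ++ pw w ++ pw y) →
        alt u (ctx v x y) = alt w (ctx v x y)) : Ex F u w := by
  refine ⟨h, fun x y v hv hx hk => ?_⟩
  rw [alt_ctx, alt_ctx]
  exact hH x y v hv hx (kn_mid hk) (kn_mid (kn_ctx h hx hk))

theorem ex_exch {F : Front} {p q : FP} (hpq : p.index + p.ins ≤ q.index)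
    (h : Flat.ok [p, p.past q] F) : Ex F [p, p.past q] [q, p] := by
  refine Ex.mk' ((FMove.exch p q hpq).le h) fun x y v hv hx hl' hr' => ?_
  set H := ctx v x y with hH
  have ex : ∀ (r s : Piece), (r.index = p.index ∧ r.ins = p.ins ∧ r.outs = p.outs) →
      (s.index = q.index) →
      (∀ F, Knot.run [r, s.moved (s.index + r.outs - r.ins)] F = Knot.run (pw [p, p.past q]) F ∧
        (Knot.Fits [r, s.moved (s.index + r.outs - r.ins)] F ↔ Knot.Fits (pw [p, p.past q]) F) ∧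
        Knot.comps [r, s.moved (s.index + r.outs - r.ins)] F =
          Knot.comps (pw [p, p.past q]) F) →
      (∀ F, Knot.run [s, r] F = Knot.run (pw [q, p]) F ∧
        (Knot.Fits [s, r] F ↔ Knot.Fits (pw [q, p]) F) ∧
        Knot.comps [s, r] F = Knot.comps (pw [q, p]) F) →
      H [r, s.moved (s.index + r.outs - r.ins)] = H [s, r] := by
    intro r s h1 h2 h3 h4
    refine ctx_move hv (Move.exchange r s (by rw [h1.1, h1.2.1, h2]; exact hpq)) ?_ ?_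
    · exact kn_same (fun F => ⟨(h3 F).1.symm, (h3 F).2.1.symm, (h3 F).2.2.symm⟩) hl'
    · exact kn_same (fun F => ⟨(h4 F).1.symm, (h4 F).2.1.symm, (h4 F).2.2.symm⟩) hr'
  have triv : ∀ (a b : Word), (∀ F, Knot.run a F = Knot.run b F ∧
    (Knot.Fits a F ↔ Knot.Fits b F) ∧ Knot.comps a F = Knot.comps b F) → True := fun _ _ _ => trivial
  cases p with
  | birth i b =>
    cases q with
    | birth j c =>
      exact ex (.birth i b) (.birth j c) ⟨rfl, rfl, rfl⟩ rfl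
        (fun F => ⟨rfl, Iff.rfl, rfl⟩) (fun F => ⟨rfl, Iff.rfl, rfl⟩)
    | death j =>
      exact ex (.birth i b) (.death j) ⟨rfl, rfl, rfl⟩ rfl
        (fun F => ⟨rfl, Iff.rfl, rfl⟩) (fun F => ⟨rfl, Iff.rfl, rfl⟩)
    | X j =>
      exact ex (.birth i b) (.pos j) ⟨rfl, rfl, rfl⟩ rfl
        (fun F => ⟨rfl, Iff.rfl, rfl⟩) (fun F => ⟨rfl, Iff.rfl, rfl⟩)
    | dbl j =>
      have e1 := ex (.birth i b) (.pos j) ⟨rfl, rfl, rfl⟩ rfl
        (fun F => ⟨rfl, Iff.rfl, rfl⟩) (fun F => ⟨rfl, Iff.rfl, rfl⟩)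
      have e2 := ex (.birth i b) (.neg j) ⟨rfl, rfl, rfl⟩ rfl
        (fun F => ⟨rfl, Iff.rfl, rfl⟩) (fun F => ⟨rfl, Iff.rfl, rfl⟩)
      exact congrArg₂ (· - ·) e1 e2
  | death i =>
    cases q with
    | birth j c =>
      exact ex (.death i) (.birth j c) ⟨rfl, rfl, rfl⟩ rfl
        (fun F => ⟨rfl, Iff.rfl, rfl⟩) (fun F => ⟨rfl, Iff.rfl, rfl⟩)
    | death j =>
      exact ex (.death i) (.death j) ⟨rfl, rfl, rfl⟩ rfl
        (fun F => ⟨rfl, Iff.rfl, rfl⟩) (fun F => ⟨rfl, Iff.rfl, rfl⟩)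
    | X j =>
      exact ex (.death i) (.pos j) ⟨rfl, rfl, rfl⟩ rfl
        (fun F => ⟨rfl, Iff.rfl, rfl⟩) (fun F => ⟨rfl, Iff.rfl, rfl⟩)
    | dbl j =>
      have e1 := ex (.death i) (.pos j) ⟨rfl, rfl, rfl⟩ rfl
        (fun F => ⟨rfl, Iff.rfl, rfl⟩) (fun F => ⟨rfl, Iff.rfl, rfl⟩)
      have e2 := ex (.death i) (.neg j) ⟨rfl, rfl, rfl⟩ rfl
        (fun F => ⟨rfl, Iff.rfl, rfl⟩) (fun F => ⟨rfl, Iff.rfl, rfl⟩)
      exact congrArg₂ (· - ·) e1 e2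
  | X i =>
    cases q with
    | birth j c =>
      exact ex (.pos i) (.birth j c) ⟨rfl, rfl, rfl⟩ rfl
        (fun F => ⟨rfl, Iff.rfl, rfl⟩) (fun F => ⟨rfl, Iff.rfl, rfl⟩)
    | death j =>
      exact ex (.pos i) (.death j) ⟨rfl, rfl, rfl⟩ rfl
        (fun F => ⟨rfl, Iff.rfl, rfl⟩) (fun F => ⟨rfl, Iff.rfl, rfl⟩)
    | X j =>
      exact ex (.pos i) (.pos j) ⟨rfl, rfl, rfl⟩ rfl
        (fun F => ⟨rfl, Iff.rfl, rfl⟩) (fun F => ⟨rfl, Iff.rfl, rfl⟩)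
    | dbl j =>
      have e1 := ex (.pos i) (.pos j) ⟨rfl, rfl, rfl⟩ rfl
        (fun F => ⟨rfl, Iff.rfl, rfl⟩) (fun F => ⟨rfl, Iff.rfl, rfl⟩)
      have e2 := ex (.pos i) (.neg j) ⟨rfl, rfl, rfl⟩ rfl
        (fun F => ⟨rfl, Iff.rfl, rfl⟩) (fun F => ⟨rfl, Iff.rfl, rfl⟩)
      exact congrArg₂ (· - ·) e1 e2
  | dbl i =>
    cases q with
    | birth j c =>
      have e1 := ex (.pos i) (.birth j c) ⟨rfl, rfl, rfl⟩ rfl
        (fun F => ⟨rfl, Iff.rfl, rfl⟩) (fun F => ⟨rfl, Iff.rfl, rfl⟩)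
      have e2 := ex (.neg i) (.birth j c) ⟨rfl, rfl, rfl⟩ rfl
        (fun F => ⟨rfl, Iff.rfl, rfl⟩) (fun F => ⟨rfl, Iff.rfl, rfl⟩)
      exact congrArg₂ (· - ·) e1 e2
    | death j =>
      have e1 := ex (.pos i) (.death j) ⟨rfl, rfl, rfl⟩ rfl
        (fun F => ⟨rfl, Iff.rfl, rfl⟩) (fun F => ⟨rfl, Iff.rfl, rfl⟩)
      have e2 := ex (.neg i) (.death j) ⟨rfl, rfl, rfl⟩ rfl
        (fun F => ⟨rfl, Iff.rfl, rfl⟩) (fun F => ⟨rfl, Iff.rfl, rfl⟩)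
      exact congrArg₂ (· - ·) e1 e2
    | X j =>
      have e1 := ex (.pos i) (.pos j) ⟨rfl, rfl, rfl⟩ rfl
        (fun F => ⟨rfl, Iff.rfl, rfl⟩) (fun F => ⟨rfl, Iff.rfl, rfl⟩)
      have e2 := ex (.neg i) (.pos j) ⟨rfl, rfl, rfl⟩ rfl
        (fun F => ⟨rfl, Iff.rfl, rfl⟩) (fun F => ⟨rfl, Iff.rfl, rfl⟩)
      exact congrArg₂ (· - ·) e1 e2
    | dbl j =>
      have e1 := ex (.pos i) (.pos j) ⟨rfl, rfl, rfl⟩ rfl
        (fun F => ⟨rfl, Iff.rfl, rfl⟩) (fun F => ⟨rfl, Iff.rfl, rfl⟩)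
      have e2 := ex (.neg i) (.pos j) ⟨rfl, rfl, rfl⟩ rfl
        (fun F => ⟨rfl, Iff.rfl, rfl⟩) (fun F => ⟨rfl, Iff.rfl, rfl⟩)
      have e3 := ex (.pos i) (.neg j) ⟨rfl, rfl, rfl⟩ rfl
        (fun F => ⟨rfl, Iff.rfl, rfl⟩) (fun F => ⟨rfl, Iff.rfl, rfl⟩)
      have e4 := ex (.neg i) (.neg j) ⟨rfl, rfl, rfl⟩ rfl
        (fun F => ⟨rfl, Iff.rfl, rfl⟩) (fun F => ⟨rfl, Iff.rfl, rfl⟩)
      show (H [.pos i, .pos (j + 2 - 2)] - H [.pos i, .neg (j + 2 - 2)]) -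
          (H [.neg i, .pos (j + 2 - 2)] - H [.neg i, .neg (j + 2 - 2)]) =
        (H [.pos j, .pos i] - H [.pos j, .neg i]) - (H [.neg j, .pos i] - H [.neg j, .neg i])
      have e1' : H [.pos i, .pos (j + 2 - 2)] = H [.pos j, .pos i] := e1
      have e2' : H [.neg i, .pos (j + 2 - 2)] = H [.pos j, .neg i] := e2
      have e3' : H [.pos i, .neg (j + 2 - 2)] = H [.neg j, .pos i] := e3
      have e4' : H [.neg i, .neg (j + 2 - 2)] = H [.neg j, .neg i] := e4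
      rw [e1', e2', e3', e4']
      abel

theorem ex_zig₂ {F : Front} (i : ℕ) (b : Bool) (h : Flat.ok [birth (i + 1) b, death i] F) :
    Ex F [birth (i + 1) b, death i] [] :=
  Ex.mk' ((FMove.zig₂ i b).le h) fun _ _ _ hv _ hl hr => ctx_move hv (Move.zigzag₂ i b) hl hr

end Pool.Agent.H66.VU
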