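import Pool.Agent.H66.VG.Mono

/-!
# Finitely many singular knots with `k` double points, up to isotopy and crossing changes
-/

set_option autoImplicit false

namespace Pool.Agent.H66.VU

open Pool.Agent.H835R2 Pool.Agent.H835R2.Knot Pool.Agent.H835R2.Flat Pool.Agent.Y466.FT
  Pool.Agent.H66.VG
open Pool.Agent.H835R2.Flat.FP

/-- There are only finitely many fronts with `m` strands. -/
theorem fronts_finite (m : ℕ) : {F : Front | GF F ∧ F.n = m}.Finite := by
  classical
  let Φ : Front → (Fin m → Bool) × (Fin m → ℕ) := fun F => (fun i => F.dir i, fun i => F.fin i)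
  refine Set.Finite.of_finite_image (f := Φ) ?_ ?_
  · have h1 : ((Set.univ : Set (Fin m → Bool)) ×ˢ
        (Set.pi Set.univ fun _ : Fin m => Set.Iio m)).Finite :=
      Set.finite_univ.prod (Set.Finite.pi fun _ => Set.finite_Iio m)
    refine h1.subset ?_
    rintro _ ⟨F, ⟨⟨s, hs, rfl⟩, hn⟩, rfl⟩
    refine ⟨Set.mem_univ _, fun i _ => ?_⟩
    have hn' : s.n = m := hn
    have := hs.lt i.1 (by rw [hn']; exact i.2)
    show (s.N i.1).1 < m
    omega
  · rintro F ⟨⟨s, hs, rfl⟩, hn⟩ G ⟨⟨t, ht, rfl⟩, hn'⟩ e
    have hsn : s.n = m := hn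
    have htn : t.n = m := hn'
    have e1 := congrArg Prod.fst e
    have e2 := congrArg Prod.snd e
    refine Front.ext' (by rw [hn, hn']) (fun p => ?_) (fun p => ?_)
    · by_cases hp : p < m
      · exact congrFun e1 ⟨p, hp⟩
      · show s.d p = t.d p
        rw [hs.out p (by omega), ht.out p (by omega)]
    · by_cases hp : p < m
      · exact congrFun e2 ⟨p, hp⟩
      · show (s.N p).1 = (t.N p).1
        rw [hs.exit p (hs.out p (by omega)), ht.exit p (ht.out p (by omega))]

/-- **Finiteness.** -/
theorem exists_flat_reps (k : ℕ) (hk : 0 < k) : ∃ R : Set FWord, R.Finite ∧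
    ∀ D, Kn D → nd D = k → ∃ r ∈ R, ∀ {A : Type} [AddCommGroup A] (v : Word → A),
      IsInvariant v → Deg k v → alt r v = 0 → alt D v = 0 := by
  classical
  let FF : Set Front := {F | GF F ∧ F.n = 4 * k}
  have hc : ∀ F : Front, ∃ r : FWord, (∃ D, Kn D ∧ nd D = k ∧ fr (nf D).1 Front.empty = F) →
      Kn r ∧ nd r = k ∧ fr (nf r).1 Front.empty = F := by
    intro F
    by_cases h : ∃ D, Kn D ∧ nd D = k ∧ fr (nf D).1 Front.empty = F
    · obtain ⟨D, hD⟩ := h
      exact ⟨D, fun _ => hD⟩
    · exact ⟨[], fun h' => absurd h' h⟩
  choose g hg using hc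
  refine ⟨g '' FF, (fronts_finite (4 * k)).image _, fun D hD hn => ?_⟩
  have spec : ∀ E, Kn E → nd E = k → LE Front.empty E ((nf E).1 ++ Bx 0 k) ∧
      (∀ i, dbl i ∉ (nf E).1) ∧ fc (nf E).1 Front.empty = 0 ∧ ok (nf E).1 Front.empty ∧
      (fr (nf E).1 Front.empty).n = 4 * k := by
    intro E hE hn
    obtain ⟨h1, h2, h3⟩ := nf_spec E hE.ok
    rw [nf_nd hE, hn, hE.fr_n] at h1
    rw [nf_nd hE, hn, hE.fr_n, zero_add] at h3
    obtain ⟨a1, a2, -⟩ := kn_boxes hk ((kn_le h1).1 hE)
    exact ⟨h1, h2, a1, a2, h3⟩
  obtain ⟨a1, a2, a3, a4, a5⟩ := spec D hD hn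
  obtain ⟨b1, b2, b3⟩ := hg (fr (nf D).1 Front.empty) ⟨D, hD, hn, rfl⟩
  obtain ⟨c1, c2, c3, c4, c5⟩ := spec _ b1 b2
  refine ⟨g (fr (nf D).1 Front.empty), ⟨_, ⟨gf_empty.fr a4, a5⟩, rfl⟩, ?_⟩
  intro A _ v hv hd h0
  have hKD := (kn_le a1).1 hD
  have hKr := (kn_le c1).1 b1
  have e1 : LE Front.empty ((nf D).1 ++ Bx 0 k)
      ((nf (g (fr (nf D).1 Front.empty))).1 ++ Bx 0 k) :=
    (coherence a2 c2 a4 c4 a3 c3 b3.symm).app gf_empty hKD.ok
  have hle : LE Front.empty D (g (fr (nf D).1 Front.empty)) := a1.trans (e1.trans c1.symm)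
  exact (alt_le hv hd hle hD hn).2 h0

/-! ### Signs -/

section
variable {A : Type} [AddCommGroup A]

/-- The flat word of a marked word. -/
def toF : MWord → FWord
  | [] => []
  | (.birth i b, _) :: M => FP.birth i b :: toF M
  | (.death i, _) :: M => FP.death i :: toF M
  | (.pos i, true) :: M => FP.dbl i :: toF M
  | (.neg i, true) :: M => FP.dbl i :: toF M
  | (.pos i, false) :: M => FP.X i :: toF M
  | (.neg i, false) :: M => FP.X i :: toF M

/-- The number of negative crossings. -/
def ng (M : MWord) : ℕ := M.countP fun x => match x.1 with | .neg _ => true | _ => false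

theorem ng_append (x y : MWord) : ng (x ++ y) = ng x + ng y := List.countP_append

theorem malt_toF (M : MWord) (hM : ∀ x ∈ M, x.2 = true → x.1.isCrossing = true) (h0 : ng M = 0)
    (g : Word → A) : malt M g = alt (toF M) g ∧ pw (toF M) = pl M ∧ nd (toF M) = nm M := by
  induction M generalizing g with
  | nil => exact ⟨rfl, rfl, rfl⟩
  | cons x M ih =>
    have hM' : ∀ y ∈ M, y.2 = true → y.1.isCrossing = true := fun y hy =>
      hM y (List.mem_cons_of_mem _ hy)
    have h1 : ng [x] + ng M = 0 := by rw [← ng_append]; exact h0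
    have h2 : ng M = 0 := by omega
    obtain ⟨p, b⟩ := x
    have hp := hM (p, b) List.mem_cons_self
    cases p with
    | birth i c =>
      cases b
      · obtain ⟨-, e2, e3⟩ := ih hM' h2 g
        refine ⟨(ih hM' h2 _).1, ?_, ?_⟩
        · show Piece.birth i c :: pw (toF M) = Piece.birth i c :: pl M
          rw [e2]
        · have f1 : nd (FP.birth i c :: toF M) = nd (toF M) :=
            List.countP_cons_of_neg (by simp)
          have f2 : nm ((Piece.birth i c, false) :: M) = nm M :=
            List.countP_cons_of_neg (by simp)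
          show nd (FP.birth i c :: toF M) = _
          rw [f1, f2, e3]
      · exact absurd (hp rfl) (by simp [Piece.isCrossing])
    | death i =>
      cases b
      · obtain ⟨-, e2, e3⟩ := ih hM' h2 g
        refine ⟨(ih hM' h2 _).1, ?_, ?_⟩
        · show Piece.death i :: pw (toF M) = Piece.death i :: pl M
          rw [e2]
        · have f1 : nd (FP.death i :: toF M) = nd (toF M) :=
            List.countP_cons_of_neg (by simp)
          have f2 : nm ((Piece.death i, false) :: M) = nm M :=
            List.countP_cons_of_neg (by simp)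
          show nd (FP.death i :: toF M) = _
          rw [f1, f2, e3]
      · exact absurd (hp rfl) (by simp [Piece.isCrossing])
    | pos i =>
      obtain ⟨-, e2, e3⟩ := ih hM' h2 g
      cases b
      · refine ⟨(ih hM' h2 _).1, ?_, ?_⟩
        · show Piece.pos i :: pw (toF M) = Piece.pos i :: pl M
          rw [e2]
        · have f1 : nd (FP.X i :: toF M) = nd (toF M) :=
            List.countP_cons_of_neg (by simp)
          have f2 : nm ((Piece.pos i, false) :: M) = nm M :=
            List.countP_cons_of_neg (by simp)
          show nd (FP.X i :: toF M) = _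
          rw [f1, f2, e3]
      · refine ⟨?_, ?_, ?_⟩
        · show malt M (fun u => g (.pos i :: u)) - malt M (fun u => g (.neg i :: u)) =
            alt (toF M) (fun u => g (.pos i :: u)) - alt (toF M) (fun u => g (.neg i :: u))
          rw [(ih hM' h2 _).1, (ih hM' h2 _).1]
        · show Piece.pos i :: pw (toF M) = Piece.pos i :: pl M
          rw [e2]
        · have f1 : nd (FP.dbl i :: toF M) = nd (toF M) + 1 :=
            List.countP_cons_of_pos rfl
          have f2 : nm ((Piece.pos i, true) :: M) = nm M + 1 :=
            List.countP_cons_of_pos rfl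
          show nd (FP.dbl i :: toF M) = _
          rw [f1, f2, e3]
    | neg i =>
      exfalso
      have : ng [(Piece.neg i, b)] = 1 := rfl
      omega

/-- The alternating sums over all singular knots with `n` double points vanish, if those over the
flat words do. -/
theorem malt_zero {n : ℕ} {v : Word → A} (hd : DegreeLE n v)
    (h : ∀ D, Kn D → nd D = n → alt D v = 0) : ∀ (c : ℕ) (M : MWord), ng M = c →
      (∀ x ∈ M, x.2 = true → x.1.isCrossing = true) → IsKnot (pl M) → nm M = n →
      malt M (ext v) = 0 := by
  intro c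
  induction c with
  | zero =>
    intro M h0 hM hK hn
    obtain ⟨e1, e2, e3⟩ := malt_toF M hM h0 (ext v)
    have hKn : Kn (toF M) := by
      unfold Kn
      rw [e2]
      exact hK
    rw [e1]
    have e4 : alt (toF M) (ext v) = alt (toF M) v := by
      refine alt_congr fun u hu => ?_
      have h5 := hu.run_eq Front.empty
      have h6 : IsKnot u := by
        unfold Kn IsKnot Closed at hKn
        unfold IsKnot Closed
        rw [h5.1, h5.2.1, h5.2.2]
        exact hKn
      exact if_pos h6
    rw [e4]
    exact h _ hKn (by rw [e3, hn])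
  | succ c ih =>
    intro M hc hM hK hn
    obtain ⟨a, ha, ha2⟩ : ∃ a ∈ M, (match a.1 with | .neg _ => true | _ => false) = true := by
      by_contra hcon
      push Not at hcon
      have h0 : ng M = 0 := List.countP_eq_zero.2 fun a ha => hcon a ha
      omega
    obtain ⟨x, y, e⟩ := List.append_of_mem ha
    obtain ⟨p, b⟩ := a
    obtain ⟨i, rfl⟩ : ∃ i, p = .neg i := by
      cases p with
      | neg i => exact ⟨i, rfl⟩
      | birth i b => simp at ha2
      | death i => simp at ha2
      | pos i => simp at ha2
    have e' : M = x ++ [(.neg i, b)] ++ y := by rw [e]; simp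
    subst e'
    have hK' : IsKnot (pl (x ++ [(.pos i, b)] ++ y)) := by
      have h1 : Same (pl (x ++ [(Piece.neg i, b)] ++ y)) (pl (x ++ [(Piece.pos i, b)] ++ y)) := by
        have e1 : ∀ q : Piece, pl (x ++ [(q, b)] ++ y) = pl x ++ [q] ++ pl y := by
          intro q
          unfold pl
          simp
        rw [e1, e1]
        exact Same.switch (pl x) (pl y) (.neg i)
      exact h1.knot.2 hK
    have hng : ∀ b', ng (x ++ [(.pos i, b')] ++ y) = c := by
      intro b'
      rw [ng_append, ng_append] at hc ⊢
      have e1 : ng [(Piece.neg i, b)] = 1 := rfl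
      have e2 : ng [(Piece.pos i, b')] = 0 := rfl
      omega
    have hM' : ∀ z ∈ x ++ [(.pos i, b)] ++ y, z.2 = true → z.1.isCrossing = true := by
      intro z hz h2
      rw [List.append_assoc, List.mem_append, List.mem_append, List.mem_singleton] at hz
      rcases hz with hz | rfl | hz
      · exact hM z (by simp [hz]) h2
      · rfl
      · exact hM z (by simp [hz]) h2
    have hn' : nm (x ++ [(.pos i, b)] ++ y) = n := by
      have h7 : nm [(Piece.pos i, b)] = nm [(Piece.neg i, b)] := by cases b <;> rfl
      rw [← hn, nm_append, nm_append, nm_append, nm_append, h7]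
    have h3 := ih _ (hng b) hM' hK' hn'
    cases b with
    | false =>
      have h4 : malt (x ++ [(.neg i, true)] ++ y) (ext v) = 0 := by
        refine malt_ext hd _ ?_ ?_
        · intro z hz h2
          rw [List.append_assoc, List.mem_append, List.mem_append, List.mem_singleton] at hz
          rcases hz with hz | rfl | hz
          · exact hM z (by simp [hz]) h2
          · rfl
          · exact hM z (by simp [hz]) h2
        · rw [← hn]
          unfold nm
          simp
          omega
      rw [malt_mark] at h4
      have h5 : (Piece.neg i).switch = .pos i := rfl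
      rw [h5, h3, sub_zero] at h4
      exact h4
    | true =>
      rw [malt_mark]
      rw [malt_mark] at h3
      have h5 : (Piece.neg i).switch = .pos i := rfl
      have h6 : (Piece.pos i).switch = .neg i := rfl
      rw [h6] at h3
      rw [h5]
      rw [← neg_sub, h3, neg_zero]

/-- The order drops if the alternating sums over the flat words vanish. -/
theorem degreeLE_of_alt {n : ℕ} {v : Word → A} (hd : DegreeLE (n + 1) v)
    (h : ∀ D, Kn D → nd D = n + 1 → alt D v = 0) : DegreeLE n v := by
  intro D hD T hT hcard
  rw [← malt_mk D T hT hD v]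
  exact malt_zero hd h _ _ rfl (mk_cross D T hT) (by rw [pl_mk]; exact hD)
    (by rw [← mset_card, mset_mk D T hT, hcard])

/-- An invariant of order `0` which vanishes at the circle vanishes. -/
theorem zero_of_circle {v : Word → A} (hv : IsInvariant v) (hd : DegreeLE 0 v)
    (h : v circle = 0) {D : Word} (hD : IsKnot D) : v D = 0 := by
  have h1 : ∀ D, Kn D → nd D = 0 → alt D v = 0 := fun D hD hn =>
    cls0 (inv_alt hv (deg_of_degreeLE hd)) (fun b => by
      show v [.birth 0 b, .death 0] = 0
      cases b
      · rw [cir hv circle_false, h]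
      · exact h) hD hn
  have h2 := malt_zero hd h1 _ (D.map fun p => (p, false)) rfl (fun x hx h => by
      obtain ⟨y, _, rfl⟩ := List.mem_map.1 hx
      exact absurd h (by simp)) (by
      have : pl (D.map fun p => (p, false)) = D := by
        unfold pl
        rw [List.map_map]
        exact List.map_id _
      rw [this]
      exact hD) (by
      unfold nm
      rw [List.countP_map, List.countP_eq_zero]
      intro a _
      simp)
  rw [malt_plain] at h2
  · have e : pl (D.map fun p => (p, false)) = D := by
      unfold pl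
      rw [List.map_map]
      exact List.map_id _
    rw [e] at h2
    rw [← h2]
    exact (if_pos hD).symm
  · unfold nm
    rw [List.countP_map, List.countP_eq_zero]
    intro a _
    simp

end

end Pool.Agent.H66.VU
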