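import Pool.Agent.H66.VU.Fin

/-!
# The order in which the strands are passed
-/

set_option autoImplicit false

namespace Pool.Agent.H66.VU

open Pool.Agent.H835R2 Pool.Agent.H835R2.Knot Pool.Agent.H835R2.Flat Pool.Agent.Y466.FT
  Pool.Agent.H66.VG
open Pool.Agent.H835R2.Flat.FP
open Pool.Agent.H835R2.Knot.St (tok content o e)

section
variable {τ τ' : Type}

theorem good_sub (φ : τ → List τ') {s : St τ} (h : s.Good) : (s.sub φ).Good where
  exit p hp := by
    show ((s.N p).1, (s.N p).2.flatMap φ) = (p, [])
    rw [h.exit p hp]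
    rfl
  dir p := h.dir p
  inj p q hp hq e := h.inj p q hp hq e
  out p hp := h.out p hp
  lt p hp := h.lt p hp
  surj p hp hd := h.surj p hp hd

theorem rn_sub (φ : τ → List τ') (w : Word) (s : St τ) : rn w (s.sub φ) = (rn w s).sub φ := by
  have h := sub_mrun φ (w.map shape) s
  rw [← h, List.map_map]
  have e : w.map (Ins.sub φ ∘ shape) = w.map shape := by
    refine List.map_congr_left fun p _ => ?_
    cases p <;> rfl
  rw [e]

/-- The state without labels. -/
def lf (τ : Type) (s : St Empty) : St τ := s.sub fun x => x.elim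

theorem lf_sub (φ : τ → List τ') (s : St Empty) : (lf τ s).sub φ = lf τ' s := by
  unfold lf
  rw [sub_sub]
  congr 1
  funext x
  exact x.elim

theorem lf_front (s : St Empty) : (lf τ s).front = s.front := rfl

theorem lf_n (s : St Empty) : (lf τ s).n = s.n := rfl

theorem lf_good {s : St Empty} (h : s.Good) : (lf τ s).Good := good_sub _ h

theorem rn_lf (w : Word) (s : St Empty) : rn w (lf τ s) = lf τ (rn w s) := rn_sub _ w s

theorem lf_content (s : St Empty) : (lf τ s).content = 0 := by
  unfold content
  refine Finset.sum_eq_zero fun p _ => ?_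
  show (((s.N p).2.flatMap fun x => x.elim : List τ) : Multiset τ) = 0
  cases h : (s.N p).2 with
  | nil => rfl
  | cons x l => exact x.elim

theorem tok_front (p : ℕ) (m : List τ) (s : St τ) : (tok p m s).front = s.front := by
  refine Front.ext' rfl (fun _ => rfl) (fun r => ?_)
  exact St.tok_N_fst p m s r

/-- All labels. -/
def lam (s : St τ) : List τ := (List.range s.n).flatMap fun p => (s.N p).2

theorem coe_lam (s : St τ) : (lam s : Multiset τ) = s.content := by
  unfold lam content
  generalize s.n = n
  induction n with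
  | zero => rfl
  | succ n ih =>
    rw [List.range_succ, List.flatMap_append, Finset.sum_range_succ, ← ih, ← Multiset.coe_add]
    simp

theorem lam_sub (φ : τ → List τ') (s : St τ) : lam (s.sub φ) = (lam s).flatMap φ := by
  unfold lam
  rw [List.flatMap_assoc]
  rfl

/-- A word which completes no component. -/
def Oc (w : Word) (F : Front) : Prop := Knot.Fits w F ∧ Knot.comps w F = 0

theorem Oc.ok {w : Word} {s : St τ} (h : Oc w s.front) : Ok (w.map shape) s := by
  induction w generalizing s with
  | nil => trivial
  | cons p w ih =>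
    obtain ⟨h1, h2⟩ := h
    cases p with
    | birth i b =>
      rw [cm_birth] at h2
      rw [ft_birth] at h1
      exact ⟨h1.1, ih (s := St.birth i b s) ⟨h1.2, h2⟩⟩
    | death i =>
      rw [cm_death] at h2
      rw [ft_death] at h1
      refine ⟨⟨h1.1.1, h1.1.2, ?_⟩, ih (s := St.death i s) ⟨h1.2, by omega⟩⟩
      intro hc
      have : clo i s = 1 := if_pos hc
      omega
    | pos i =>
      rw [cm_pos] at h2
      rw [ft_pos] at h1
      exact ⟨h1.1, ih (s := St.cross i s) ⟨h1.2, h2⟩⟩
    | neg i =>
      rw [cm_neg] at h2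
      rw [ft_neg] at h1
      exact ⟨h1.1, ih (s := St.cross i s) ⟨h1.2, h2⟩⟩

theorem toks_shape (w : Word) : toks (w.map (shape (τ := τ))) = 0 := by
  induction w with
  | nil => rfl
  | cons p w ih =>
    rw [List.map_cons, toks_cons, ih]
    cases p <;> rfl

theorem content_rn {w : Word} {s : St τ} (hs : s.Good) (h : Oc w s.front) :
    (rn w s).content = s.content := by
  rw [content_mrun hs h.ok, toks_shape, add_zero]

end

/-! ### Two strands -/

/-- Labels on two strands. -/
def T2 (p q : ℕ) (s : St Bool) : St Bool := tok p [true] (tok q [false] s)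

/-- Is the strand `p` passed before the strand `q`? -/
def fst (w : Word) (s : St Empty) (p q : ℕ) : Bool :=
  decide (lam (rn w (T2 p q (lf Bool s))) = [true, false])

theorem perm_two {l : List Bool} (h : l.Perm [true, false]) :
    l = [true, false] ∨ l = [false, true] := by
  have hl := h.length_eq
  match l, hl with
  | [a, b], _ =>
    cases a <;> cases b
    · have := h.count_eq true; simp at this
    · exact Or.inr rfl
    · exact Or.inl rfl
    · have := h.count_eq false; simp at this

theorem T2_perm {w : Word} {s : St Empty} (hs : s.Good) (h : Oc w s.front) {p q : ℕ}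
    (hp : p < s.n) (hq : q < s.n) : (lam (rn w (T2 p q (lf Bool s)))).Perm [true, false] := by
  rw [← Multiset.coe_eq_coe, coe_lam]
  have hg := lf_good (τ := Bool) hs
  unfold T2
  rw [content_rn ((hg.tok q [false]).tok p [true]) (by
    rw [tok_front, tok_front]
    exact h)]
  rw [St.content_tok [true] (hg.tok q [false]) hp, St.content_tok [false] hg hq, lf_content,
    zero_add]
  decide

theorem T2_swap (w : Word) (s : St Empty) {p q : ℕ} (hpq : p ≠ q) :
    lam (rn w (T2 q p (lf Bool s))) = (lam (rn w (T2 p q (lf Bool s)))).flatMap fun b => [!b] := by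
  rw [← lam_sub, ← rn_sub]
  congr 2
  unfold T2
  rw [St.sub_tok, St.sub_tok, lf_sub, St.tok_comm hpq.symm]
  rfl

/-- One of the two strands is the first one. -/
theorem fst_swap {w : Word} {s : St Empty} (hs : s.Good) (h : Oc w s.front) {p q : ℕ}
    (hp : p < s.n) (hq : q < s.n) (hpq : p ≠ q) : fst w s q p = !fst w s p q := by
  unfold fst
  rw [T2_swap w s hpq]
  rcases perm_two (T2_perm hs h hp hq) with e | e <;> rw [e] <;> rfl

theorem fst_cross (i : ℕ) (w : Word) (s : St Empty) (p q : ℕ) :
    fst w (St.cross i s) p q = fst (.pos i :: w) s (sw i p) (sw i q) := by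
  unfold fst
  have e : rn (.pos i :: w) (T2 (sw i p) (sw i q) (lf Bool s)) =
      rn w (T2 p q (lf Bool (St.cross i s))) := by
    show rn w (St.cross i (T2 (sw i p) (sw i q) (lf Bool s))) = _
    unfold T2
    rw [← St.tok_cross', ← St.tok_cross']
    rfl
  rw [e]

theorem lf_birth (τ : Type) (i : ℕ) (b : Bool) (s : St Empty) :
    lf τ (St.birth i b s) = St.birth i b (lf τ s) := St.sub_birth _ i b s
theorem lf_death (τ : Type) (i : ℕ) (s : St Empty) :
    lf τ (St.death i s) = St.death i (lf τ s) := St.sub_death _ i s

theorem fst_birth (i : ℕ) (b : Bool) (w : Word) (s : St Empty) (p q : ℕ) :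
    fst w (St.birth i b s) (up i p) (up i q) = fst (.birth i b :: w) s p q := by
  unfold fst
  have e : rn (.birth i b :: w) (T2 p q (lf Bool s)) =
      rn w (T2 (up i p) (up i q) (lf Bool (St.birth i b s))) := by
    show rn w (St.birth i b (T2 p q (lf Bool s))) = _
    unfold T2
    rw [← St.tok_birth, ← St.tok_birth, lf_birth]
  rw [e]

theorem fst_death {i : ℕ} (w : Word) {s : St Empty} (hs : s.Good) (h : s.d (i + 1) = !s.d i)
    (p q : ℕ) : fst w (St.death i s) p q = fst (.death i :: w) s (up i p) (up i q) := by
  unfold fst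
  have hg := lf_good (τ := Bool) hs
  have e : rn (.death i :: w) (T2 (up i p) (up i q) (lf Bool s)) =
      rn w (T2 p q (lf Bool (St.death i s))) := by
    show rn w (St.death i (T2 (up i p) (up i q) (lf Bool s))) = _
    unfold T2
    rw [← St.tok_death i p [true] (hg.tok (up i q) [false]) h, ← St.tok_death i q [false] hg h,
      lf_death]
  rw [e]

theorem fst_birth_right {i : ℕ} (b : Bool) (w : Word) (s : St Empty) (q : ℕ) :
    fst w (St.birth i b s) q i = fst w (St.birth i b s) q (i + 1) := by
  unfold fst T2
  rw [lf_birth, St.tok_birth_lr]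

theorem fst_death_right {i : ℕ} (w : Word) {s : St Empty} (hs : s.Good)
    (h : s.d (i + 1) = !s.d i) {q : ℕ} (hq : q ≠ i) (hq' : q ≠ i + 1) :
    fst (.death i :: w) s q i = fst (.death i :: w) s q (i + 1) := by
  unfold fst
  have hg := lf_good (τ := Bool) hs
  have e : rn (.death i :: w) (T2 q i (lf Bool s)) = rn (.death i :: w) (T2 q (i + 1) (lf Bool s)) := by
    show rn w (St.death i (T2 q i (lf Bool s))) = rn w (St.death i (T2 q (i + 1) (lf Bool s)))
    unfold T2
    rw [St.tok_comm hq, St.tok_comm hq', St.death_tok_lr i [false] (hg.tok q [true]) h]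
  rw [e]

/-- Equal results. -/
theorem fst_congr {w w' : Word} {s : St Empty} (hs : s.Good) (p q : ℕ)
    (h : ∀ t : St Bool, t.Good → t.front = s.front → rn w t = rn w' t) :
    fst w s p q = fst w' s p q := by
  unfold fst
  have hg := lf_good (τ := Bool) hs
  have e := h (T2 p q (lf Bool s)) ((hg.tok q [false]).tok p [true]) (by
    unfold T2
    rw [tok_front, tok_front]
    rfl)
  rw [e]

/-! ### Three strands -/

theorem fst_three {w : Word} {s : St Empty} (hs : s.Good) (h : Oc w s.front) {p q r : ℕ}
    (hp : p < s.n) (hq : q < s.n) (hr : r < s.n)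
    (h1 : fst w s p q = fst w s q r) : fst w s p r = fst w s p q := by
  have hg := lf_good (τ := Fin 3) hs
  set L := lam (rn w (tok p [(0 : Fin 3)] (tok q [1] (tok r [2] (lf (Fin 3) s))))) with hL
  have hperm : L.Perm [2, 1, 0] := by
    rw [← Multiset.coe_eq_coe, hL, coe_lam]
    rw [content_rn (((hg.tok r [2]).tok q [1]).tok p [0]) (by
      rw [tok_front, tok_front, tok_front]
      exact h)]
    rw [St.content_tok [0] ((hg.tok r [2]).tok q [1]) hp, St.content_tok [1] (hg.tok r [2]) hq,
      St.content_tok [2] hg hr, lf_content, zero_add]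
    rfl
  have key : ∀ φ : Fin 3 → List Bool, L.flatMap φ =
      lam (rn w (tok p (φ 0) (tok q (φ 1) (tok r (φ 2) (lf Bool s))))) := by
    intro φ
    rw [hL, ← lam_sub, ← rn_sub, St.sub_tok, St.sub_tok, St.sub_tok, lf_sub]
    simp
  have e1 : fst w s p q = decide (L.flatMap ![[true], [false], []] = [true, false]) := by
    rw [key]
    simp only [Matrix.cons_val_zero, Matrix.cons_val_one, Matrix.cons_val, St.tok_nil]
    rfl
  have e2 : fst w s q r = decide (L.flatMap ![[], [true], [false]] = [true, false]) := by
    rw [key]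
    simp only [Matrix.cons_val_zero, Matrix.cons_val_one, Matrix.cons_val, St.tok_nil]
    rfl
  have e3 : fst w s p r = decide (L.flatMap ![[true], [], [false]] = [true, false]) := by
    rw [key]
    simp only [Matrix.cons_val_zero, Matrix.cons_val_one, Matrix.cons_val, St.tok_nil]
    rfl
  rw [e1, e2] at h1
  rw [e1, e3]
  have hall : ∀ a b c : Fin 3, [a, b, c].Perm [2, 1, 0] →
      decide ([a, b, c].flatMap ![[true], [false], []] = [true, false]) =
        decide ([a, b, c].flatMap ![[], [true], [false]] = [true, false]) →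
      decide ([a, b, c].flatMap ![[true], [], [false]] = [true, false]) =
        decide ([a, b, c].flatMap ![[true], [false], []] = [true, false]) := by
    decide
  clear_value L
  have hlen := hperm.length_eq
  match L, hlen with
  | [a, b, c], _ => exact hall a b c hperm h1

end Pool.Agent.H66.VU
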