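import Pool.Agent.H66.VU.Lam

/-!
# Layered diagrams

The signs of the crossings of a flat diagram without double points are chosen such that the strand which
is passed first is over the other one. Moves of flat diagrams become isotopies.
-/

set_option autoImplicit false

namespace Pool.Agent.H66.VU

open Pool.Agent.H835R2 Pool.Agent.H835R2.Knot Pool.Agent.H835R2.Flat Pool.Agent.Y466.FT
  Pool.Agent.H66.VG
open Pool.Agent.H835R2.Flat.FP
open Pool.Agent.H835R2.Knot.St (tok content o e)

/-- A crossing with a given sign. -/
def sgn (c : Bool) (i : ℕ) : Piece := if c then .pos i else .neg i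

theorem sgn_index (c : Bool) (i : ℕ) : (sgn c i).index = i := by cases c <;> rfl

theorem sgn_moved (c : Bool) (i j : ℕ) : (sgn c i).moved j = sgn c j := by cases c <;> rfl

/-- The piece with its sign; `z` is the word below. -/
def sg (z : FWord) : FP → St Empty → Piece
  | birth i b, _ => .birth i b
  | death i, _ => .death i
  | X i, s => sgn (fst (.pos i :: pw z) s i (i + 1)) i
  | dbl i, _ => .pos i

/-- The layered diagram; `z` is the word below. -/
def lay (z : FWord) : FWord → St Empty → Word
  | [], _ => []
  | p :: y, s => sg (y ++ z) p s :: lay z y ((shape p.pc).act s)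

theorem lay_append (z a b : FWord) (s : St Empty) :
    lay z (a ++ b) s = lay (b ++ z) a s ++ lay z b (rn (pw a) s) := by
  induction a generalizing s with
  | nil => rfl
  | cons p a ih =>
    show sg (a ++ b ++ z) p s :: lay z (a ++ b) ((shape p.pc).act s) = _
    rw [ih, List.append_assoc]
    rfl

theorem sgn_same (c : Bool) (i : ℕ) : sgn c i = .pos i ∨ sgn c i = (Piece.pos i).switch := by
  cases c
  · exact Or.inr rfl
  · exact Or.inl rfl

theorem lay_same (z y : FWord) (s : St Empty) : Same (pw y) (lay z y s) := by
  induction y generalizing s with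
  | nil => exact List.Forall₂.nil
  | cons p y ih =>
    refine List.Forall₂.cons ?_ (ih _)
    cases p with
    | birth i b => exact Or.inl rfl
    | death i => exact Or.inl rfl
    | X i => exact sgn_same _ i
    | dbl i => exact Or.inl rfl

/-- The signs depend on the word below only through the machine. -/
theorem lay_congr {z z' : FWord} (a : FWord) {s : St Empty} (hs : s.Good)
    (ha : Knot.Fits (pw a) s.front)
    (h : ∀ t : St Bool, t.Good → t.front = Knot.run (pw a) s.front → rn (pw z) t = rn (pw z') t) :
    lay z a s = lay z' a s := by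
  induction a generalizing s with
  | nil => rfl
  | cons p a ih =>
    have hf : ((shape p.pc).act s).front = p.pc.act s.front := front_act p.pc s
    have hg : ((shape p.pc).act s).Good := good_act hs ha.1
    have h1 := ih hg (by rw [hf]; exact ha.2) (by rw [hf]; exact h)
    show sg (a ++ z) p s :: lay z a _ = sg (a ++ z') p s :: lay z' a _
    rw [h1]
    congr 1
    cases p with
    | birth i b => rfl
    | death i => rfl
    | dbl i => rfl
    | X i =>
      show sgn (fst (.pos i :: pw (a ++ z)) s i (i + 1)) i =
        sgn (fst (.pos i :: pw (a ++ z')) s i (i + 1)) i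
      congr 1
      refine fst_congr hs _ _ fun t ht hft => ?_
      show rn (pw (a ++ z)) (St.cross i t) = rn (pw (a ++ z')) (St.cross i t)
      have e : ∀ w : FWord, rn (pw (a ++ w)) (St.cross i t) = rn (pw w) (rn (pw a) (St.cross i t)) := by
        intro w
        rw [pw_append]
        unfold rn
        rw [List.map_append, mrun_append]
      rw [e, e]
      have hfi : (Piece.pos i).Fits t.front := by rw [hft]; exact ha.1
      have hgc : (St.cross i t).Good := ht.cross hfi
      have hfc : (St.cross i t).front = (Piece.pos i).act s.front := by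
        rw [front_cross, hft]
      refine h _ (good_rn hgc (by rw [hfc]; exact ha.2)) ?_
      rw [front_run, hfc]
      rfl

theorem rn_append {τ : Type} (a b : Word) (s : St τ) : rn (a ++ b) s = rn b (rn a s) := by
  unfold rn
  rw [List.map_append, mrun_append]

/-! ### Labels pass distant pieces -/

theorem tok_left {τ : Type} {q : FP} {p : ℕ} (h : p < q.index) (m : List τ) {s : St τ} (hs : s.Good)
    (hf : q.pc.Fits s.front) :
    tok p m ((shape q.pc).act s) = (shape q.pc).act (tok p m s) := by
  cases q with
  | birth j b =>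
    replace h : p < j := h
    have := St.tok_birth j p b m s
    rw [up_lt h] at this
    exact this
  | death j =>
    replace h : p < j := h
    have := St.tok_death j p m hs hf.2
    rw [up_lt h] at this
    exact this
  | X j =>
    replace h : p < j := h
    have := St.tok_cross' j p m s
    rw [sw_of_ne (by omega) (by omega)] at this
    exact this
  | dbl j =>
    replace h : p < j := h
    have := St.tok_cross' j p m s
    rw [sw_of_ne (by omega) (by omega)] at this
    exact this

theorem tok_right {τ : Type} {p : FP} {j : ℕ} (h : p.index + p.ins ≤ j) (m : List τ) {s : St τ}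
    (hs : s.Good) (hf : p.pc.Fits s.front) :
    tok (j + p.outs - p.ins) m ((shape p.pc).act s) = (shape p.pc).act (tok j m s) := by
  cases p with
  | birth i b =>
    replace h : i ≤ j := h
    have := St.tok_birth i j b m s
    rw [up_ge h] at this
    exact this
  | death i =>
    replace h : i + 2 ≤ j := h
    have := St.tok_death i (j - 2) m hs hf.2
    rw [up_ge (by omega), show j - 2 + 2 = j by omega] at this
    exact this
  | X i =>
    replace h : i + 2 ≤ j := h
    have := St.tok_cross' i j m s
    rw [sw_of_ne (by omega) (by omega)] at this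
    exact this
  | dbl i =>
    replace h : i + 2 ≤ j := h
    have := St.tok_cross' i j m s
    rw [sw_of_ne (by omega) (by omega)] at this
    exact this

theorem lf_act (τ : Type) (p : Piece) (s : St Empty) :
    lf τ ((shape p).act s) = (shape p).act (lf τ s) := (rn_lf [p] s).symm

theorem moved_fits_index {p q : FP} : (p.past q).pc = q.pc.moved (q.pc.index + p.pc.outs - p.pc.ins) :=
  exch_pc p q

/-- Exchanging distant pieces, for the machine. -/
theorem rn_exch {τ : Type} {p q : FP} (h : p.index + p.ins ≤ q.index) {s : St τ} (hs : s.Good)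
    (hl : ok [p, p.past q] s.front) : rn (pw [p, p.past q]) s = rn (pw [q, p]) s := by
  have hr := (exch_fits h s.front).1 hl
  have m := Move.exchange p.pc q.pc (by rw [pc_index, pc_ins, pc_index]; exact h)
  rw [← exch_pc] at m
  exact (move_rn m hs hl hr).1

theorem rn_two {τ : Type} (p q : Piece) (s : St τ) : rn [p, q] s = (shape q).act ((shape p).act s) := rfl

theorem sg_left {p q : FP} (h : p.index + p.ins ≤ q.index) {s : St Empty} (hs : s.Good) (z : FWord)
    (hl : ok [p, p.past q] s.front) :
    sg (p.past q :: z) p s = sg z p ((shape q.pc).act s) := by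
  have hr := (exch_fits h s.front).1 hl
  cases p with
  | birth i b => rfl
  | death i => rfl
  | dbl i => rfl
  | X i =>
    replace h : i + 2 ≤ q.index := h
    show sgn _ i = sgn _ i
    congr 1
    unfold fst
    have hg := lf_good (τ := Bool) hs
    have hT : (T2 i (i + 1) (lf Bool s)).Good := (hg.tok (i + 1) [false]).tok i [true]
    have hTf : (T2 i (i + 1) (lf Bool s)).front = s.front := by
      unfold T2; rw [tok_front, tok_front]; rfl
    have e1 : T2 i (i + 1) (lf Bool ((shape q.pc).act s)) =
        (shape q.pc).act (T2 i (i + 1) (lf Bool s)) := by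
      unfold T2
      rw [lf_act, tok_left (by omega) [false] hg hr.1,
        tok_left (by omega) [true] (hg.tok (i + 1) [false]) (by rw [tok_front]; exact hr.1)]
    have e2 := rn_exch (p := X i) (q := q) h hT (by rw [hTf]; exact hl)
    have e3 : rn (.pos i :: pw ((X i).past q :: z)) (T2 i (i + 1) (lf Bool s)) =
        rn (.pos i :: pw z) (T2 i (i + 1) (lf Bool ((shape q.pc).act s))) := by
      rw [e1]
      show rn (pw z) (rn (pw [X i, (X i).past q]) _) = rn (pw z) (rn (pw [q, X i]) _)
      rw [e2]
    rw [e3]

theorem sg_right {p q : FP} (h : p.index + p.ins ≤ q.index) {s : St Empty} (hs : s.Good) (z : FWord)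
    (hl : ok [p, p.past q] s.front) :
    sg z (p.past q) ((shape p.pc).act s) =
      (sg (p :: z) q s).moved ((sg (p :: z) q s).index + p.pc.outs - p.pc.ins) := by
  have hr := (exch_fits h s.front).1 hl
  cases q with
  | birth j b => cases p <;> rfl
  | death j => cases p <;> rfl
  | dbl j => cases p <;> rfl
  | X j =>
    replace h : p.index + p.ins ≤ j := h
    have hg := lf_good (τ := Bool) hs
    have hT : (T2 j (j + 1) (lf Bool s)).Good := (hg.tok (j + 1) [false]).tok j [true]
    have hTf : (T2 j (j + 1) (lf Bool s)).front = s.front := by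
      unfold T2; rw [tok_front, tok_front]; rfl
    have hins : p.ins ≤ j := by omega
    have hpa : p.past (X j) = X (j + p.outs - p.ins) := rfl
    have e1 : T2 (j + p.outs - p.ins) (j + p.outs - p.ins + 1) (lf Bool ((shape p.pc).act s)) =
        (shape p.pc).act (T2 j (j + 1) (lf Bool s)) := by
      unfold T2
      have e0 : j + p.outs - p.ins + 1 = (j + 1) + p.outs - p.ins := by omega
      rw [lf_act, e0, tok_right (by omega) [false] hg hl.1,
        tok_right h [true] (hg.tok (j + 1) [false]) (by rw [tok_front]; exact hl.1)]
    have e2 := rn_exch (p := p) (q := X j) h hT (by rw [hTf]; exact hl)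
    have e3 : fst (.pos (j + p.outs - p.ins) :: pw z) ((shape p.pc).act s) (j + p.outs - p.ins)
        (j + p.outs - p.ins + 1) = fst (.pos j :: pw (p :: z)) s j (j + 1) := by
      unfold fst
      have e4 : rn (.pos (j + p.outs - p.ins) :: pw z)
          (T2 (j + p.outs - p.ins) (j + p.outs - p.ins + 1) (lf Bool ((shape p.pc).act s))) =
          rn (.pos j :: pw (p :: z)) (T2 j (j + 1) (lf Bool s)) := by
        rw [e1]
        show rn (pw z) (rn (pw [p, p.past (X j)]) _) = rn (pw z) (rn (pw [X j, p]) _)
        rw [e2]
      rw [e4]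
    rw [hpa]
    show sgn (fst (.pos (j + p.outs - p.ins) :: pw z) ((shape p.pc).act s) (j + p.outs - p.ins)
        (j + p.outs - p.ins + 1)) (j + p.outs - p.ins) =
      (sgn (fst (.pos j :: pw (p :: z)) s j (j + 1)) j).moved
        ((sgn (fst (.pos j :: pw (p :: z)) s j (j + 1)) j).index + p.pc.outs - p.pc.ins)
    rw [e3, pc_outs, pc_ins, sgn_index, sgn_moved]

/-! ### Moves -/

theorem sg_index (z : FWord) (p : FP) (s : St Empty) :
    (sg z p s).index = p.pc.index ∧ (sg z p s).ins = p.pc.ins ∧ (sg z p s).outs = p.pc.outs := by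
  cases p with
  | birth i b => exact ⟨rfl, rfl, rfl⟩
  | death i => exact ⟨rfl, rfl, rfl⟩
  | dbl i => exact ⟨rfl, rfl, rfl⟩
  | X i =>
    show (sgn _ i).index = i ∧ (sgn _ i).ins = 2 ∧ (sgn _ i).outs = 2
    generalize fst (.pos i :: pw z) s i (i + 1) = c
    cases c <;> exact ⟨rfl, rfl, rfl⟩

theorem closed_same {x y : Word} {m m' : Word} (h : Same m m') (hc : Closed (x ++ m ++ y)) :
    Closed (x ++ m' ++ y) :=
  (Same.closed (List.rel_append (List.rel_append (Same.refl x) h) (Same.refl y))).2 hc

theorem same_symm {a b : Word} (h : Same a b) : Same b a := by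
  unfold Same at h ⊢
  refine h.flip.imp ?_
  rintro p q (rfl | rfl)
  · exact Or.inl rfl
  · refine Or.inr ?_
    cases q <;> rfl

/-- One move between plain words. -/
theorem iso_mv {x y l r : Word} (m : Move l r) (h : Closed (x ++ l ++ y)) (h' : Closed (x ++ r ++ y)) :
    Isotopic (x ++ l ++ y) (x ++ r ++ y) := Relation.EqvGen.rel _ _ (Step.mk x l r y m h h')

/-- **Moves between layered diagrams.** -/
theorem lay_move {l r : FWord} (m : FMove l r) (h0 : ∀ i, dbl i ∉ l) {b : FWord} {s : St Empty}
    (hs : s.Good) (hoc : Oc (pw (l ++ b)) s.front) (hoc' : Oc (pw (r ++ b)) s.front)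
    {x y : Word} (hx : Knot.run x Front.empty = s.front)
    (hc : Closed (x ++ pw l ++ y)) (hc' : Closed (x ++ pw r ++ y)) :
    Isotopic (x ++ lay b l s ++ y) (x ++ lay b r s ++ y) := by
  have hcl := closed_same (lay_same b l s) hc
  have hcr := closed_same (lay_same b r s) hc'
  have hl : ok l s.front := by
    have := hoc.1
    rw [pw_append, Knot.fits_append] at this
    exact this.1
  have hr : ok r s.front := by
    have := hoc'.1
    rw [pw_append, Knot.fits_append] at this
    exact this.1
  cases m with
  | exch p q h =>
    obtain ⟨i1, i2, i3⟩ := sg_index b p ((shape q.pc).act s)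
    obtain ⟨j1, -, -⟩ := sg_index (p :: b) q s
    set P := sg b p ((shape q.pc).act s) with hP
    set Q := sg (p :: b) q s with hQ
    have e1 : lay b [p, p.past q] s = [P, Q.moved (Q.index + P.outs - P.ins)] := by
      show [sg (p.past q :: b) p s, sg b (p.past q) ((shape p.pc).act s)] = _
      rw [sg_left h hs b hl, sg_right h hs b hl, i2, i3]
    have e2 : lay b [q, p] s = [Q, P] := rfl
    rw [e1] at hcl ⊢
    rw [e2] at hcr ⊢
    refine iso_mv (Move.exchange P Q ?_) hcl hcr
    rw [i1, i2, j1, pc_index, pc_ins, pc_index]
    exact h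
  | zig₁ i c => exact iso_mv (Move.zigzag₁ i c) hcl hcr
  | zig₂ i c => exact iso_mv (Move.zigzag₂ i c) hcl hcr
  | slB i c =>
    set α := fst (.pos (i + 1) :: pw b) (St.birth i c s) (i + 1) (i + 2) with hα
    set β := fst (.pos i :: pw b) (St.birth (i + 1) c s) i (i + 1) with hβ
    have e1 : lay b [birth i c, X (i + 1)] s = [.birth i c, sgn α (i + 1)] := rfl
    have e2 : lay b [birth (i + 1) c, X i] s = [.birth (i + 1) c, sgn β i] := rfl
    have hi : i ≤ s.n := hl.1
    have hi' : i + 1 ≤ s.n := hr.1
    have key : β = !α := by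
      have h1 : β = fst (pw b) (St.cross i (St.birth (i + 1) c s)) (i + 1) i := by
        rw [fst_cross, sw_right, sw_left]
      rw [← St.slide_birth i c s, fst_cross, sw_left, sw_of_ne (show i ≠ i + 1 by omega) (by omega),
        fst_birth_right] at h1
      rw [h1]
      have hg : (St.birth i c s).Good := hs.birth hi c
      refine fst_swap hg ⟨?_, ?_⟩ (show i + 1 < s.n + 2 by omega) (show i + 2 < s.n + 2 by omega)
        (by omega)
      · have := hoc.1
        rw [show pw ([birth i c, X (i + 1)] ++ b) = .birth i c :: (.pos (i + 1) :: pw b) from rfl,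
          ft_birth] at this
        exact this.2
      · have := hoc.2
        rwa [show pw ([birth i c, X (i + 1)] ++ b) = .birth i c :: (.pos (i + 1) :: pw b) from rfl,
          cm_birth] at this
    rw [key] at e2
    rw [e1] at hcl ⊢
    rw [e2] at hcr ⊢
    generalize α = γ at hcl hcr ⊢
    cases γ
    · exact iso_mv (Move.slideBirth₂ i c) hcl hcr
    · exact iso_mv (Move.slideBirth₁ i c) hcl hcr
  | slD i =>
    set α := fst (.pos (i + 1) :: pw (death i :: b)) s (i + 1) (i + 2) with hα
    set β := fst (.pos i :: pw (death (i + 1) :: b)) s i (i + 1) with hβ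
    have e1 : lay b [X (i + 1), death i] s = [sgn α (i + 1), .death i] := rfl
    have e2 : lay b [X i, death (i + 1)] s = [sgn β i, .death (i + 1)] := rfl
    have hi : i + 2 < s.n := hl.1
    have hd : s.d (i + 2) = !s.d i := by
      have h1 : s.d (sw i (i + 1 + 1)) = !s.d (sw i (i + 1)) := hr.2.1.2
      rwa [sw_right, sw_of_ne (by omega) (by omega)] at h1
    have hg : (St.cross i s).Good := hs.cross (show i + 2 ≤ s.n by omega)
    have hdc : (St.cross i s).d (i + 1 + 1) = !(St.cross i s).d (i + 1) := by
      rw [St.cross_d, St.cross_d, sw_right, sw_of_ne (by omega) (by omega)]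
      exact hd
    have key : β = !α := by
      have h1 : β = fst (.death (i + 1) :: pw b) (St.cross i s) (i + 1) i := by
        rw [fst_cross, sw_right, sw_left]
        rfl
      have h2 : α = fst (.death (i + 1) :: pw b) (St.cross i s) i (i + 1) := by
        have h3 : α = fst (.pos i :: .death (i + 1) :: pw b) s (i + 1) (i + 2) := by
          refine fst_congr hs _ _ fun t ht hft => ?_
          show rn (pw b) (St.death i (St.cross (i + 1) t)) = rn (pw b) (St.death (i + 1) (St.cross i t))
          have htd : t.d (i + 2) = !t.d i := by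
            have e3 : t.d = s.d := congrArg Front.dir hft
            rw [e3]; exact hd
          rw [St.slide_death i ht htd]
        have h4 := fst_cross i (.death (i + 1) :: pw b) s i (i + 2)
        rw [sw_left, sw_of_ne (show i + 2 ≠ i by omega) (by omega)] at h4
        rw [h3, ← h4]
        exact (fst_death_right (pw b) hg hdc (show i ≠ i + 1 by omega) (by omega)).symm
      rw [h1, h2]
      refine fst_swap hg ⟨?_, ?_⟩ (show i < s.n by omega) (show i + 1 < s.n by omega) (by omega)
      · have := hoc'.1
        rw [show pw ([X i, death (i + 1)] ++ b) = .pos i :: (.death (i + 1) :: pw b) from rfl,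
          ft_pos] at this
        exact this.2
      · have := hoc'.2
        rwa [show pw ([X i, death (i + 1)] ++ b) = .pos i :: (.death (i + 1) :: pw b) from rfl,
          cm_pos] at this
    rw [key] at e2
    rw [e1] at hcl ⊢
    rw [e2] at hcr ⊢
    generalize α = γ at hcl hcr ⊢
    cases γ
    · exact iso_mv (Move.slideDeath₂ i) hcl hcr
    · exact iso_mv (Move.slideDeath₁ i) hcl hcr
  | slBd i c => exact absurd (by simp) (h0 (i + 1))
  | slDd i => exact absurd (by simp) (h0 (i + 1))
  | fB i c =>
    have e1 : lay b [birth i c, X i] s = [.birth i c, sgn (fst (.pos i :: pw b) (St.birth i c s) i (i + 1)) i] := rfl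
    have e2 : lay b [birth i (!c)] s = [.birth i (!c)] := rfl
    rw [e1] at hcl ⊢
    rw [e2] at hcr ⊢
    generalize fst (.pos i :: pw b) (St.birth i c s) i (i + 1) = α at hcl ⊢
    cases α
    · exact iso_mv (Move.firstBirthNeg i c) hcl hcr
    · exact iso_mv (Move.firstBirthPos i c) hcl hcr
  | fD i =>
    have e1 : lay b [X i, death i] s = [sgn (fst (.pos i :: pw (death i :: b)) s i (i + 1)) i, .death i] := rfl
    have e2 : lay b [death i] s = [.death i] := rfl
    rw [e1] at hcl ⊢
    rw [e2] at hcr ⊢
    generalize fst (.pos i :: pw (death i :: b)) s i (i + 1) = α at hcl ⊢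
    cases α
    · exact iso_mv (Move.firstDeathNeg i) hcl hcr
    · exact iso_mv (Move.firstDeathPos i) hcl hcr
  | sec i =>
    set α := fst (.pos i :: pw (X i :: b)) s i (i + 1) with hα
    set β := fst (.pos i :: pw b) (St.cross i s) i (i + 1) with hβ
    have e1 : lay b [X i, X i] s = [sgn α i, sgn β i] := rfl
    have e2 : lay b [] s = [] := rfl
    have hi : i + 2 ≤ s.n := hl.1
    have key : β = !α := by
      rw [hβ, fst_cross, sw_left, sw_right]
      exact fst_swap hs hoc (show i < s.n by omega) (show i + 1 < s.n by omega) (by omega)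
    rw [key] at e1
    rw [e1] at hcl ⊢
    rw [e2] at hcr ⊢
    generalize α = γ at hcl ⊢
    cases γ
    · exact iso_mv (Move.second₂ i) hcl hcr
    · exact iso_mv (Move.second₁ i) hcl hcr
  | thd i =>
    have hi : i + 3 ≤ s.n := hl.2.1
    set L := Piece.pos i :: .pos (i + 1) :: .pos i :: pw b with hLd
    set ab := fst L s i (i + 1) with hab
    set ac := fst L s i (i + 2) with hac
    set bc := fst L s (i + 1) (i + 2) with hbc
    have e1 : lay b [X i, X (i + 1), X i] s = [sgn ab i, sgn ac (i + 1), sgn bc i] := by
      have k1 : fst (.pos (i + 1) :: pw (X i :: b)) (St.cross i s) (i + 1) (i + 1 + 1) = ac := by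
        rw [fst_cross, sw_right, sw_of_ne (show i + 1 + 1 ≠ i by omega) (by omega)]
        rfl
      have k2 : fst (.pos i :: pw b) (St.cross (i + 1) (St.cross i s)) i (i + 1) = bc := by
        rw [fst_cross, sw_left, sw_of_ne (show i ≠ i + 1 by omega) (by omega), fst_cross, sw_left,
          sw_of_ne (show i + 1 + 1 ≠ i by omega) (by omega)]
      show [sgn (fst L s i (i + 1)) i,
        sgn (fst (.pos (i + 1) :: pw (X i :: b)) (St.cross i s) (i + 1) (i + 1 + 1)) (i + 1),
        sgn (fst (.pos i :: pw b) (St.cross (i + 1) (St.cross i s)) i (i + 1)) i] = _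
      rw [k1, k2]
    have hR : ∀ p q, fst (.pos (i + 1) :: .pos i :: .pos (i + 1) :: pw b) s p q = fst L s p q := by
      intro p q
      refine fst_congr hs _ _ fun t ht hft => ?_
      show rn (pw b) (St.cross (i + 1) (St.cross i (St.cross (i + 1) t))) =
        rn (pw b) (St.cross i (St.cross (i + 1) (St.cross i t)))
      rw [St.cross_braid]
    have e2 : lay b [X (i + 1), X i, X (i + 1)] s = [sgn bc (i + 1), sgn ac i, sgn ab (i + 1)] := by
      have k1 : fst (.pos i :: pw (X (i + 1) :: b)) (St.cross (i + 1) s) i (i + 1) = ac := by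
        rw [fst_cross, sw_left, sw_of_ne (show i ≠ i + 1 by omega) (by omega)]
        exact hR _ _
      have k2 : fst (.pos (i + 1) :: pw b) (St.cross i (St.cross (i + 1) s)) (i + 1) (i + 1 + 1) =
          ab := by
        rw [fst_cross, sw_right, sw_of_ne (show i + 1 + 1 ≠ i by omega) (by omega), fst_cross,
          sw_right, sw_of_ne (show i ≠ i + 1 by omega) (by omega)]
        exact hR _ _
      show [sgn (fst (.pos (i + 1) :: .pos i :: .pos (i + 1) :: pw b) s (i + 1) (i + 1 + 1)) (i + 1),
        sgn (fst (.pos i :: pw (X (i + 1) :: b)) (St.cross (i + 1) s) i (i + 1)) i,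
        sgn (fst (.pos (i + 1) :: pw b) (St.cross i (St.cross (i + 1) s)) (i + 1) (i + 1 + 1))
          (i + 1)] = _
      rw [k1, k2, hR]
    have h3 : ab = bc → ac = ab := fun h => fst_three hs hoc (show i < s.n by omega)
      (show i + 1 < s.n by omega) (show i + 2 < s.n by omega) h
    have hn : i + 3 ≤ (Knot.run x Front.empty).n := by rw [hx]; exact hi
    rw [e1] at hcl ⊢
    rw [e2]
    clear_value ab ac bc
    cases ab <;> cases ac <;> cases bc
    · exact iso_of_tr (Sing.third_neg i) hn hcl
    · exact iso_of_tr (Sing.third_nnp i) hn hcl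
    · exact absurd (h3 rfl) (by decide)
    · exact iso_of_tr (Sing.third_npp i) hn hcl
    · exact iso_of_tr (Sing.third_pnn i) hn hcl
    · exact absurd (h3 rfl) (by decide)
    · exact iso_of_tr (Sing.third_ppn i) hn hcl
    · exact iso_of_tr (Sing.third_pos i) hn hcl
  | fth i => exact absurd (by simp) (h0 (i + 1))
  | fif i => exact absurd (by simp) (h0 i)

end Pool.Agent.H66.VU
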