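import Pool.Agent.H66.VU.Lay

/-!
# Layered diagrams with the same front are isotopic
-/

set_option autoImplicit false

namespace Pool.Agent.H66.VU

open Pool.Agent.H835R2 Pool.Agent.H835R2.Knot Pool.Agent.H835R2.Flat Pool.Agent.Y466.FT
  Pool.Agent.H66.VG
open Pool.Agent.H835R2.Flat.FP
open Pool.Agent.H835R2.Knot.St (tok content o e)

theorem FMove.rn_eq {τ : Type} {l r : FWord} (m : FMove l r) {s : St τ} (hs : s.Good)
    (h : ok l s.front) : rn (pw l) s = rn (pw r) s := by
  have hr := m.ok_right h
  cases m with
  | exch p q hpq =>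
    have hm := Move.exchange p.pc q.pc (by rw [pc_index, pc_ins, pc_index]; exact hpq)
    rw [← exch_pc] at hm
    exact (move_rn hm hs h hr).1
  | zig₁ i b => exact (move_rn (Move.zigzag₁ i b) hs h hr).1
  | zig₂ i b => exact (move_rn (Move.zigzag₂ i b) hs h hr).1
  | slB i b => exact (move_rn (Move.slideBirth₁ i b) hs h (r := [.birth (i + 1) b, .neg i]) hr).1
  | slD i => exact (move_rn (Move.slideDeath₁ i) hs h (r := [.neg i, .death (i + 1)]) hr).1
  | slBd i b => exact (move_rn (Move.slideBirth₁ i b) hs h (r := [.birth (i + 1) b, .neg i]) hr).1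
  | slDd i => exact (move_rn (Move.slideDeath₁ i) hs h (r := [.neg i, .death (i + 1)]) hr).1
  | fB i b => exact (move_rn (Move.firstBirthPos i b) hs h hr).1
  | fD i => exact (move_rn (Move.firstDeathPos i) hs h hr).1
  | sec i => exact (move_rn (Move.second₁ i) hs (l := [.pos i, .neg i]) h hr).1
  | thd i => exact (move_rn (Move.third i) hs h hr).1
  | fth i => exact (move_rn (Move.third i) hs (l := [.pos i, .pos (i + 1), .pos i]) hr h).1.symm
  | fif i => rfl

theorem nd_zero_iff {w : FWord} : nd w = 0 ↔ ∀ i, dbl i ∉ w := by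
  constructor
  · intro h i hi
    unfold nd at h
    rw [List.countP_eq_zero] at h
    exact h _ hi rfl
  · exact nd_zero

theorem closed_le {u u' : FWord} (h : LE Front.empty u u') (y : Word) :
    Closed (pw u ++ y) ↔ Closed (pw u' ++ y) := by
  obtain ⟨h1, h2, -⟩ := LE.spec gf_empty h
  have h1' : Knot.Fits (pw u) Front.empty ↔ Knot.Fits (pw u') Front.empty := h1
  have h2' : Knot.run (pw u) Front.empty = Knot.run (pw u') Front.empty := h2
  unfold Closed
  rw [Knot.fits_append, Knot.fits_append, Knot.run_append, Knot.run_append, h1', h2']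

/-- The layered diagram of a flat diagram depends only on the front, up to isotopy. -/
theorem lay_le {u u' : FWord} (h : LE Front.empty u u') :
    nd u = 0 → ok u Front.empty → fc u Front.empty = 0 → ∀ y : Word, Closed (pw u ++ y) →
      Isotopic (lay [] u St.empty ++ y) (lay [] u' St.empty ++ y) := by
  induction h with
  | rel u u' h =>
    intro hn hok hfc y hc
    have hle : LE Front.empty u u' := Relation.EqvGen.rel _ _ h
    have hc' := (closed_le hle y).1 hc
    obtain ⟨a, l, r, b, m, h⟩ := h
    rw [nd_append, nd_append] at hn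
    have hl0 : ∀ i, dbl i ∉ l := nd_zero_iff.1 (by omega)
    have ha := ((Flat.ok_append _ _ _).1 ((Flat.ok_append _ _ _).1 h).1).1
    have hl := ((Flat.ok_append _ _ _).1 ((Flat.ok_append _ _ _).1 h).1).2
    have hb := ((Flat.ok_append _ _ _).1 h).2
    set s : St Empty := rn (pw a) St.empty with hs
    have hsf : s.front = fr a Front.empty := front_run (pw a) St.empty
    have hg : s.Good := good_rn St.good_empty ha
    have hmv := fun {τ : Type} (t : St τ) (ht : t.Good) (hf : t.front = fr a Front.empty) =>
      FMove.rn_eq m ht (show ok l t.front by rw [hf]; exact hl)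
    obtain ⟨hfr, hfcc⟩ := m.fr_eq (gf_empty.fr ha) hl
    have e1 : lay [] (a ++ l ++ b) St.empty ++ y =
        lay (l ++ b) a St.empty ++ lay b l s ++ (lay [] b (rn (pw l) s) ++ y) := by
      rw [List.append_assoc a l b, lay_append, lay_append]
      simp
      rfl
    have e2 : lay [] (a ++ r ++ b) St.empty ++ y =
        lay (l ++ b) a St.empty ++ lay b r s ++ (lay [] b (rn (pw l) s) ++ y) := by
      rw [List.append_assoc a r b, lay_append, lay_append]
      have e3 : lay (r ++ b ++ []) a St.empty = lay (l ++ b) a St.empty := by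
        rw [List.append_nil]
        refine lay_congr a St.good_empty ha fun t ht hft => ?_
        rw [pw_append, pw_append, rn_append, rn_append, hmv t ht hft]
      rw [e3, hmv s hg hsf]
      simp
      rfl
    rw [e1, e2]
    have sa : Same (pw a) (lay (l ++ b) a St.empty) := lay_same _ _ _
    have sb : Same (pw b ++ y) (lay [] b (rn (pw l) s) ++ y) :=
      List.rel_append (lay_same _ _ _) (Same.refl y)
    have cl : ∀ t : FWord, Closed (pw (a ++ t ++ b) ++ y) →
        Closed (lay (l ++ b) a St.empty ++ pw t ++ (lay [] b (rn (pw l) s) ++ y)) := by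
      intro t ht
      rw [pw_append, pw_append, List.append_assoc] at ht
      exact (Same.closed (List.rel_append (List.rel_append sa (Same.refl _)) sb)).2 ht
    refine lay_move m hl0 hg ⟨?_, ?_⟩ ⟨?_, ?_⟩ ?_ (cl l hc) (cl r hc')
    · rw [hsf, pw_append, Knot.fits_append]
      refine ⟨hl, ?_⟩
      rw [fr_append] at hb
      exact hb
    · rw [hsf]
      have := (fc_nonneg_append (v := a) (w := l ++ b) (by rw [← List.append_assoc]; exact hfc)).2
      exact this
    · rw [hsf, pw_append, Knot.fits_append]
      refine ⟨m.ok_right hl, ?_⟩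
      have e4 : Knot.run (pw r) (fr a Front.empty) = fr l (fr a Front.empty) := hfr.symm
      rw [e4]
      rw [fr_append] at hb
      exact hb
    · rw [hsf]
      have h5 : fc (a ++ r ++ b) Front.empty = 0 := by rw [← (hle.spec gf_empty).2.2]; exact hfc
      have := (fc_nonneg_append (v := a) (w := r ++ b) (by rw [← List.append_assoc]; exact h5)).2
      exact this
    · rw [hsf]
      exact (Same.all sa Front.empty).1
  | refl u => exact fun _ _ _ y _ => Relation.EqvGen.refl _
  | symm u u' h ih =>
    intro hn hok hfc y hc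
    obtain ⟨h1, h2, h3⟩ := LE.spec gf_empty h
    exact (ih (by rw [LE.nd h]; exact hn) (h1.2 hok) (by rw [h3]; exact hfc) y
      ((closed_le h y).2 hc)).symm
  | trans u v w h1 h2 ih1 ih2 =>
    intro hn hok hfc y hc
    obtain ⟨k1, k2, k3⟩ := LE.spec gf_empty h1
    exact (ih1 hn hok hfc y hc).trans _ _ _ (ih2 (by rw [← LE.nd h1]; exact hn) (k1.1 hok)
      (by rw [← k3]; exact hfc) y ((closed_le h1 y).1 hc))

/-- **Layered diagrams with the same front.** -/
theorem lay_front {u u' : FWord} (hu : nd u = 0) (hu' : nd u' = 0) (ok1 : ok u Front.empty)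
    (ok2 : ok u' Front.empty) (fc1 : fc u Front.empty = 0) (fc2 : fc u' Front.empty = 0)
    (e : fr u Front.empty = fr u' Front.empty) (y : Word) (hc : Closed (pw u ++ y)) :
    Isotopic (lay [] u St.empty ++ y) (lay [] u' St.empty ++ y) :=
  lay_le (coherence (nd_zero_iff.1 hu) (nd_zero_iff.1 hu') ok1 ok2 fc1 fc2 e) hu ok1 fc1 y hc

end Pool.Agent.H66.VU
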