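import Pool.Agent.H66.VU.Chg

/-!
# The size of the values of an invariant of order at most `n` at all knots

The value at a singular knot with `k` double points and `L` pieces grows at most like `L ^ (n - k)`.
-/

set_option autoImplicit false

namespace Pool.Agent.H66.VU

open Pool.Agent.H835R2 Pool.Agent.H835R2.Knot Pool.Agent.H835R2.Flat Pool.Agent.Y466.FT
  Pool.Agent.H66.VG
open Pool.Agent.H835R2.Flat.FP
open Pool.Agent.H835R2.Knot.St (tok content o e)

/-- The bound for words of length `L` with `n + 1 - j` double points. -/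
def bb (j L : ℕ) : ℕ := j * (L + 1) ^ (j - 1)

theorem bb_step (j L : ℕ) : (L + 1) * bb j L ≤ bb (j + 1) L := by
  unfold bb
  rcases j with _ | j
  · simp
  · rw [Nat.add_sub_cancel, Nat.add_sub_cancel]
    calc (L + 1) * ((j + 1) * (L + 1) ^ j) = (j + 1) * (L + 1) ^ (j + 1) := by ring
      _ ≤ _ := Nat.mul_le_mul_right _ (by omega)

theorem bb_scale {j L L' a : ℕ} (h : L' ≤ a * (L + 1)) : bb j L' ≤ (a + 1) ^ j * bb j L := by
  unfold bb
  have h1 : L' + 1 ≤ (a + 1) * (L + 1) := by nlinarith
  calc j * (L' + 1) ^ (j - 1) ≤ j * ((a + 1) * (L + 1)) ^ (j - 1) :=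
        Nat.mul_le_mul_left _ (Nat.pow_le_pow_left h1 _)
    _ = (a + 1) ^ (j - 1) * (j * (L + 1) ^ (j - 1)) := by rw [mul_pow]; ring
    _ ≤ _ := Nat.mul_le_mul_right _ (Nat.pow_le_pow_right (Nat.succ_pos a) (Nat.sub_le _ _))

theorem bb_pos (j L : ℕ) : 1 ≤ bb (j + 1) L := by
  unfold bb
  exact Nat.one_le_iff_ne_zero.2 (Nat.mul_ne_zero (Nat.succ_ne_zero j) (pow_ne_zero _ (Nat.succ_ne_zero L)))

theorem kn_rs {u Y : FWord} (hK : Kn (u ++ Y)) {c : Word} (hc : Rs Y c) {w : Word}
    (hw : Same (Flat.pw u) w) : IsKnot (w ++ c) := by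
  have h1 := kn_mid (x := u) (l := Y) (y := []) (by simpa using hK)
  have h2 : IsKnot (Flat.pw u ++ Flat.pw Y) := by
    have := h1
    simpa [Flat.pw] using this
  have h3 : IsKnot (Flat.pw u ++ c) := by
    obtain ⟨⟨a1, a2⟩, a3⟩ := h2
    rw [Knot.fits_append] at a1
    rw [Knot.run_append] at a2
    rw [Knot.comps_append] at a3
    refine ⟨⟨?_, ?_⟩, ?_⟩
    · rw [Knot.fits_append]
      exact ⟨a1.1, (hc.run_eq _).2.1.2 a1.2⟩
    · rw [Knot.run_append, (hc.run_eq _).1]
      exact a2
    · rw [Knot.comps_append, (hc.run_eq _).2.2]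
      exact a3
  exact (Same.knot (List.rel_append hw (Same.refl c))).2 h3

/-- The value at the layered diagram. -/
def lval (v : Word → ℚ) (Y u : FWord) : ℚ := malt (fM (lay [] u St.empty) ++ yM Y) (ext v)

theorem lval_congr {v : Word → ℚ} (hv : IsInvariant v) {Y u u' : FWord} (hu : nd u = 0)
    (hu' : nd u' = 0) (ok1 : Flat.ok u Front.empty) (ok2 : Flat.ok u' Front.empty)
    (fc1 : fc u Front.empty = 0) (fc2 : fc u' Front.empty = 0)
    (e : fr u Front.empty = fr u' Front.empty) (hK : Kn (u ++ Y)) (hK' : Kn (u' ++ Y)) :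
    lval v Y u = lval v Y u' := by
  unfold lval
  rw [malt_fM, malt_fM, alt_yM, alt_yM]
  refine alt_congr fun c hc => ?_
  have k1 := kn_rs hK hc (lay_same [] u St.empty)
  have k2 := kn_rs hK' hc (lay_same [] u' St.empty)
  have k3 := kn_rs hK hc (Same.refl _)
  show ext v _ = ext v _
  unfold ext
  rw [if_pos k1, if_pos k2]
  exact hv _ _ k1 (lay_front hu hu' ok1 ok2 fc1 fc2 e c k3.1)

/-- Finitely many values at layered diagrams. -/
theorem lval_bd {v : Word → ℚ} (hv : IsInvariant v) (Y : FWord) (m : ℕ) :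
    ∃ d C : ℕ, 0 < d ∧ ∀ u : FWord, nd u = 0 → Flat.ok u Front.empty → fc u Front.empty = 0 →
      (fr u Front.empty).n = m → Kn (u ++ Y) → Bd d C (lval v Y u) := by
  classical
  let A : Front → FWord → Prop := fun F u => nd u = 0 ∧ Flat.ok u Front.empty ∧
    fc u Front.empty = 0 ∧ fr u Front.empty = F ∧ Kn (u ++ Y)
  have hc : ∀ F : Front, ∃ u : FWord, (∃ u', A F u') → A F u := by
    intro F
    by_cases h : ∃ u', A F u'
    · obtain ⟨u, hu⟩ := h
      exact ⟨u, fun _ => hu⟩
    · exact ⟨[], fun h' => absurd h' h⟩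
  choose g hg using hc
  obtain ⟨d, C, h1, h2⟩ := exists_Bd (fronts_finite m) (fun F => lval v Y (g F))
  refine ⟨d, C, h1, fun u a1 a2 a3 a4 a5 => ?_⟩
  obtain ⟨b1, b2, b3, b4, b5⟩ := hg (fr u Front.empty) ⟨u, a1, a2, a3, rfl, a5⟩
  rw [lval_congr hv a1 b1 a2 b2 a3 b3 b4.symm a5 b5]
  exact h2 _ ⟨gf_empty.fr a2, a4⟩

theorem toF_length (M : MWord) : (toF M).length = M.length := by
  induction M with
  | nil => rfl
  | cons x M ih =>
    obtain ⟨p, c⟩ := x
    cases p <;> cases c <;> simp [toF, ih]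

theorem alt_ext {D : FWord} (h : Kn D) (v : Word → ℚ) : alt D (ext v) = alt D v := by
  refine alt_congr fun u hu => ?_
  have h5 := hu.run_eq Front.empty
  have h6 : IsKnot u := by
    unfold Kn IsKnot Closed at h
    unfold IsKnot Closed
    rw [h5.1, h5.2.1, h5.2.2]
    exact h
  exact if_pos h6

/-- **The size of the values at singular knots.** -/
theorem sing_bound {n : ℕ} {v : Word → ℚ} (hv : IsInvariant v) (hd : DegreeLE n v) :
    ∀ j k : ℕ, j + k = n + 1 → ∃ d C : ℕ, 0 < d ∧ ∀ M : MWord, Mk M → IsKnot (pl M) →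
      nm M = k → Bd d (C * bb j M.length) (malt M (ext v)) := by
  intro j
  induction j with
  | zero =>
    intro k hk
    refine ⟨1, 0, one_pos, fun M hM _ hn => ?_⟩
    rw [malt_ext hd M hM (by omega)]
    exact Bd.zero _ _
  | succ j ih =>
    intro k hk
    obtain ⟨d, C, hd0, H⟩ := ih (k + 1) (by omega)
    obtain ⟨Y, m, C1, hY, hN⟩ := normal k
    obtain ⟨d', C', hd0', hL⟩ := lval_bd hv Y m
    set a := C1 + Y.length with ha
    refine ⟨d * d', d * d' * C + d * d' * (a * C * (a + 1) ^ j) + d * d' * C',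
      Nat.mul_pos hd0 hd0', fun M hM hK hn => ?_⟩
    set L := M.length with hLd
    have hpos : 0 < d * d' := Nat.mul_pos hd0 hd0'
    have hdd : d ∣ d * d' := Dvd.intro _ rfl
    have hdd' : d' ∣ d * d' := Dvd.intro_left _ rfl
    -- positive crossings
    obtain ⟨ε, hε, hmp⟩ := mp_malt M
    have hK1 : IsKnot (pl (mp M)) := (mp_same M).knot.2 hK
    have hc1 := change (f := bb j) H (sm_mp_ap M) [] (mp_mk hM) hK1 (by rw [List.nil_append, mp_nm, hn])
    rw [List.nil_append, List.nil_append, mp_length] at hc1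
    have hK2 : IsKnot (pl (ap M)) := (sm_mp_ap M).same.knot.2 hK1
    obtain ⟨t1, t2, t3⟩ := malt_toF (ap M) (ap_mk hM) (ap_ng M) (ext v)
    have hKn : Kn (toF (ap M)) := by
      unfold Kn
      rw [t2]
      exact hK2
    -- the normal form
    obtain ⟨u, u1, u2, u3, u4, u5, u6, u7⟩ := hN (toF (ap M)) hKn (by rw [t3, ap_nm, hn])
    rw [toF_length, ap_length] at u6
    have e1 : malt (ap M) (ext v) = malt (fM (Flat.pw u) ++ yM Y) (ext v) := by
      rw [t1, alt_ext hKn, u7 v hv, ← alt_ext u5, ← alt_yM, yM_append, yM_flat u1]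
    -- the layered diagram
    have hKf : IsKnot (pl (fM (Flat.pw u) ++ yM Y)) := by
      have h := pl_yM (u ++ Y)
      rw [yM_append, yM_flat u1] at h
      rw [h]
      exact u5
    have hMf : Mk (fM (Flat.pw u) ++ yM Y) := by
      have h := yM_mk (u ++ Y)
      rwa [yM_append, yM_flat u1] at h
    have hnf : nm (fM (Flat.pw u) ++ yM Y) = k := by
      have h := nm_yM (u ++ Y)
      rw [yM_append, yM_flat u1] at h
      rw [h, nd_append, u1, hY, zero_add]
    have hc2 := change (f := bb j) H (sm_fM (lay_same [] u St.empty) (yM Y)) [] hMf hKf hnf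
    rw [List.nil_append, List.nil_append] at hc2
    have hlen : (fM (Flat.pw u) ++ yM Y).length = u.length + Y.length := by
      unfold fM yM Flat.pw
      simp
    rw [hlen] at hc2
    have hlay := hL u u1 u2 u3 u4 u5
    have e2 : malt (mp M) (ext v) = (malt (mp M) (ext v) - malt (ap M) (ext v)) +
        (malt (fM (Flat.pw u) ++ yM Y) (ext v) - malt (fM (lay [] u St.empty) ++ yM Y) (ext v)) +
        lval v Y u := by
      rw [e1]
      unfold lval
      ring
    have hsum := ((hc1.up hpos hdd).add (hc2.up hpos hdd)).add (hlay.up hpos hdd')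
    rw [← e2] at hsum
    have hfin : Bd (d * d') ((d * d' * C + d * d' * (a * C * (a + 1) ^ j) + d * d' * C') *
        bb (j + 1) L) (malt (mp M) (ext v)) := by
      refine hsum.mono ?_
      have b0 : L * bb j L ≤ bb (j + 1) L :=
        (Nat.mul_le_mul_right _ (Nat.le_succ L)).trans (bb_step j L)
      have b1 : d * d' * (L * (C * bb j L)) ≤ d * d' * C * bb (j + 1) L := by
        calc d * d' * (L * (C * bb j L)) = d * d' * C * (L * bb j L) := by ring
          _ ≤ _ := Nat.mul_le_mul_left _ b0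
      have b2 : u.length + Y.length ≤ a * (L + 1) := by
        rw [ha]
        nlinarith
      have b3 : d * d' * ((u.length + Y.length) * (C * bb j (u.length + Y.length))) ≤
          d * d' * (a * C * (a + 1) ^ j) * bb (j + 1) L := by
        calc d * d' * ((u.length + Y.length) * (C * bb j (u.length + Y.length)))
            ≤ d * d' * ((a * (L + 1)) * (C * ((a + 1) ^ j * bb j L))) :=
              Nat.mul_le_mul_left _ (Nat.mul_le_mul b2 (Nat.mul_le_mul_left _ (bb_scale b2)))
          _ = d * d' * (a * C * (a + 1) ^ j) * ((L + 1) * bb j L) := by ring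
          _ ≤ _ := Nat.mul_le_mul_left _ (bb_step j L)
      have b4 : d * d' * C' ≤ d * d' * C' * bb (j + 1) L :=
        Nat.le_mul_of_pos_right _ (bb_pos j L)
      calc d * d' * (L * (C * bb j L)) + d * d' * ((u.length + Y.length) *
            (C * bb j (u.length + Y.length))) + d * d' * C'
          ≤ d * d' * C * bb (j + 1) L + d * d' * (a * C * (a + 1) ^ j) * bb (j + 1) L +
            d * d' * C' * bb (j + 1) L := Nat.add_le_add (Nat.add_le_add b1 b3) b4
        _ = _ := by ring
    rw [hmp]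
    rcases hε with rfl | rfl
    · rw [one_mul]
      exact hfin
    · rw [neg_one_mul]
      exact hfin.neg

/-- **All knots**: the values of an invariant of order at most `n` grow at most like the `n`-th power
of the number of pieces of the diagram, and their denominators are bounded. -/
theorem len_bound {n : ℕ} {v : Word → ℚ} (hv : IsInvariant v) (hd : DegreeLE n v) :
    ∃ d C : ℕ, 0 < d ∧ ∀ D, IsKnot D → Bd d (C * (D.length + 1) ^ n) (v D) := by
  obtain ⟨d, C, h0, h⟩ := sing_bound hv hd (n + 1) 0 rfl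
  refine ⟨d, C * (n + 1), h0, fun D hD => ?_⟩
  have hpl : pl (fM D) = D := by
    unfold pl fM
    rw [List.map_map]
    exact List.map_id _
  have hnm : nm (fM D) = 0 := by
    unfold nm fM
    rw [List.countP_map, List.countP_eq_zero]
    intro a _
    simp
  have h1 := h (fM D) (fun x hx hx2 => by
    obtain ⟨y, _, rfl⟩ := List.mem_map.1 hx
    exact absurd hx2 (by simp)) (by rw [hpl]; exact hD) hnm
  rw [malt_plain _ hnm, hpl] at h1
  have h2 : ext v D = v D := if_pos hD
  rw [h2] at h1
  have h3 : (fM D).length = D.length := List.length_map _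
  rw [h3] at h1
  have h4 : C * bb (n + 1) D.length = C * (n + 1) * (D.length + 1) ^ n := by
    unfold bb
    rw [Nat.add_sub_cancel]
    ring
  rwa [h4] at h1

end Pool.Agent.H66.VU
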