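import Pool.Agent.H66.VU.XNf

/-!
# The normal form of a singular knot and its length
-/

set_option autoImplicit false

namespace Pool.Agent.H66.VU

open Pool.Agent.H835R2 Pool.Agent.H835R2.Knot Pool.Agent.H835R2.Flat Pool.Agent.Y466.FT
  Pool.Agent.H66.VG
open Pool.Agent.H835R2.Flat.FP
open Pool.Agent.H835R2.Knot.St (tok content o e)

theorem PP_len (i c : ℕ) : (PP i c).length = 4 * c := by
  induction c generalizing i with
  | zero => rfl
  | succ c ih =>
    show (Flat.P i ++ PP (i + 1) c).length = _
    rw [List.length_append, ih]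
    show 4 + 4 * c = _
    omega

theorem dd_len (F : Front) (i m : ℕ) : (dd F i m).length ≤ 2 + 4 * m := by
  unfold dd
  rw [List.length_append, PP_len]
  show 2 + 4 * (m - i) ≤ _
  omega

theorem nfs_len (B : ℕ) (w : FWord) : ∀ (u : FWord) (k : ℕ) (F : Front),
    F.n + 2 * w.length + 4 * (k + nd w) ≤ B →
    (nfs (u, k) F w).1.length ≤ u.length + w.length + nd w * (2 + 4 * B) := by
  induction w with
  | nil => intro u k F _; show u.length ≤ _; omega
  | cons p w ih =>
    intro u k F hB
    rw [List.length_cons] at hB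
    have hsplit : nd (p :: w) = nd [p] + nd w := nd_append [p] w
    by_cases hp : ∃ i, p = dbl i
    · obtain ⟨i, rfl⟩ := hp
      have h1 : nd [dbl i] = 1 := rfl
      have h2 : ((dbl i).pc.act F).n = F.n := rfl
      have h3 := ih (u ++ dd F i (F.n + 4 * k)) (k + 1) ((dbl i).pc.act F) (by rw [h2]; omega)
      have h4 := dd_len F i (F.n + 4 * k)
      rw [List.length_append] at h3
      show (nfs (u ++ dd F i (F.n + 4 * k), k + 1) ((dbl i).pc.act F) w).1.length ≤ _
      rw [hsplit, h1, List.length_cons]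
      have h5 : (1 + nd w) * (2 + 4 * B) = (2 + 4 * B) + nd w * (2 + 4 * B) := by ring
      omega
    · have hs : nstep (u, k) F p = (u ++ [p], k) := by
        cases p with
        | dbl i => exact absurd ⟨i, rfl⟩ hp
        | _ => rfl
      have h1 : nd [p] = 0 := by
        cases p with
        | dbl i => exact absurd ⟨i, rfl⟩ hp
        | _ => rfl
      have h2 : (p.pc.act F).n ≤ F.n + 2 := by
        cases p with
        | birth i b => exact le_refl (F.n + 2)
        | death i => show F.n - 2 ≤ _; omega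
        | X i => show F.n ≤ _; omega
        | dbl i => show F.n ≤ _; omega
      have h3 := ih (u ++ [p]) k (p.pc.act F) (by omega)
      rw [List.length_append, List.length_singleton] at h3
      show (nfs (nstep (u, k) F p) (p.pc.act F) w).1.length ≤ _
      rw [hs, hsplit, h1, List.length_cons, zero_add]
      omega

theorem nf_len (w : FWord) : (nf w).1.length ≤ (1 + 10 * nd w + 16 * nd w ^ 2) * (w.length + 1) := by
  have h := nfs_len (2 * w.length + 4 * nd w) w [] 0 Front.empty (by
    show 0 + 2 * w.length + 4 * (0 + nd w) ≤ _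
    omega)
  refine (show (nf w).1.length ≤ _ from h).trans ?_
  simp only [List.length_nil]
  nlinarith [Nat.zero_le (nd w * nd w * w.length), Nat.zero_le (nd w * w.length),
    Nat.zero_le (nd w), Nat.zero_le w.length]

/-- The normal form. -/
theorem normal (k : ℕ) : ∃ (Y : FWord) (m C : ℕ), nd Y = k ∧ ∀ D, Kn D → nd D = k →
    ∃ u : FWord, nd u = 0 ∧ Flat.ok u Front.empty ∧ fc u Front.empty = 0 ∧
      (fr u Front.empty).n = m ∧ Kn (u ++ Y) ∧ u.length ≤ C * (D.length + 1) ∧
      ∀ v : Word → ℚ, IsInvariant v → alt D v = alt (u ++ Y) v := by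
  rcases Nat.eq_zero_or_pos k with rfl | hk
  · refine ⟨[death 0], 2, 1, rfl, fun D hD hn => ?_⟩
    obtain ⟨u, rfl, h2, h3, h4⟩ := last_death hD
    refine ⟨u, ?_, h3, h2, h4, hD, ?_, fun v _ => rfl⟩
    · rw [nd_append] at hn
      omega
    · rw [List.length_append]
      omega
  · refine ⟨Bx 0 k, 4 * k, 1 + 10 * k + 16 * k ^ 2, nd_Bx 0 k, fun D hD hn => ?_⟩
    obtain ⟨h1, h2, h3⟩ := xnfs_spec D [] [] 0 hD.ok (Ex.refl _ _) (fun i hi => by simp at hi) rfl
    have h1' : Ex Front.empty D ((nf D).1 ++ Bx (fr D Front.empty).n (nf D).2) := h1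
    have h3' : (fr (nf D).1 Front.empty).n = (fr D Front.empty).n + 4 * (nf D).2 := h3
    rw [nf_nd hD, hn, hD.fr_n] at h1'
    rw [nf_nd hD, hn, hD.fr_n, zero_add] at h3'
    have hK := (kn_le h1'.1).1 hD
    obtain ⟨a1, a2, -⟩ := kn_boxes hk hK
    refine ⟨(nf D).1, nd_zero h2, a2, a1, h3', hK, ?_, fun v hv => ?_⟩
    · have := nf_len D
      rwa [hn] at this
    · have := h1'.2 [] [] v hv rfl (by simpa using hD)
      simpa using this

end Pool.Agent.H66.VU
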