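import Pool.Agent.H66.VU.Sch

/-!
# Polynomial growth of the values at the diagrams with a given skeleton
-/

set_option autoImplicit false

namespace Pool.Agent.H66.VU

open Pool.Agent.H835R2.Knot Pool.Agent.Y466.FT

section
variable {k : ℕ} {m : Fin k → ℕ}

/-- A congruence which identifies the components identifies the families. -/
theorem con_pi {c : Con (Fin k → FreeMonoid (Bool × ℕ))} {P Q : Fin k → FreeMonoid (Bool × ℕ)}
    (h : ∀ j, c (Pi.mulSingle j (P j)) (Pi.mulSingle j (Q j))) : c P Q := by
  have key : ∀ t : ℕ, t ≤ k → c P (fun j => if j.val < t then Q j else P j) := by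
    intro t
    induction t with
    | zero =>
      intro _
      simpa using c.refl P
    | succ t ih =>
      intro ht
      have h1 := ih (by omega)
      refine c.trans h1 ?_
      set j : Fin k := ⟨t, by omega⟩ with hj
      rw [split_single (fun j => if j.val < t then Q j else P j) j,
        split_single (fun j => if j.val < t + 1 then Q j else P j) j]
      refine c.mul ?_ ?_
      · have e1 : ¬ j.val < t := by simp [hj]
        have e2 : j.val < t + 1 := by simp [hj]
        simp only [if_neg e1, if_pos e2]
        exact h j
      · have : Function.update (fun j : Fin k => if j.val < t then Q j else P j) j 1 =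
            Function.update (fun j : Fin k => if j.val < t + 1 then Q j else P j) j 1 := by
          funext i
          by_cases hi : i = j
          · subst hi; simp
          · rw [Function.update_of_ne hi, Function.update_of_ne hi]
            have hne : i.val ≠ t := fun h => hi (Fin.ext h)
            by_cases h2 : i.val < t
            · rw [if_pos h2, if_pos (by omega)]
            · rw [if_neg h2, if_neg (by omega)]
        rw [this]
        exact c.refl _
  have h1 := key k le_rfl
  have e : (fun j : Fin k => if j.val < k then Q j else P j) = Q := by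
    funext j
    rw [if_pos j.2]
  rwa [e] at h1

/-- The list of all factors. -/
theorem exists_list (n : ℕ) : ∀ l : Fin k → List Braid, ∑ j, (l j).length = n →
    ∃ L : List (Fin k → FreeMonoid (Bool × ℕ)),
      (∀ x ∈ L, ∃ j, ∃ p ∈ l j, x = Pi.mulSingle j (FreeMonoid.ofList p)) ∧ L.length = n ∧
      L.prod = fun j => FreeMonoid.ofList (l j).flatten := by
  induction n with
  | zero =>
    intro l hl
    refine ⟨[], fun x hx => absurd hx (by simp), rfl, ?_⟩
    funext j
    have h1 : (l j).length = 0 := by
      have := (Finset.sum_eq_zero_iff.1 hl) j (Finset.mem_univ j)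
      exact this
    rw [List.length_eq_zero_iff.1 h1]
    rfl
  | succ n ih =>
    intro l hl
    obtain ⟨j, hj⟩ : ∃ j, l j ≠ [] := by
      by_contra hcon
      push Not at hcon
      have : ∑ j, (l j).length = 0 := Finset.sum_eq_zero fun j _ => by rw [hcon j]; rfl
      omega
    obtain ⟨p, t, hpt⟩ : ∃ p t, l j = p :: t := List.exists_cons_of_ne_nil hj
    have hsum : ∑ i, (Function.update l j t i).length = n := by
      have h1 : ∑ i, (l i).length = (l j).length + ∑ i ∈ Finset.univ.erase j, (l i).length :=
        (Finset.add_sum_erase _ _ (Finset.mem_univ j)).symm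
      have h2 : ∑ i, (Function.update l j t i).length = (Function.update l j t j).length +
          ∑ i ∈ Finset.univ.erase j, (Function.update l j t i).length :=
        (Finset.add_sum_erase _ _ (Finset.mem_univ j)).symm
      have h3 : ∑ i ∈ Finset.univ.erase j, (Function.update l j t i).length =
          ∑ i ∈ Finset.univ.erase j, (l i).length := by
        refine Finset.sum_congr rfl fun i hi => ?_
        rw [Function.update_of_ne (Finset.ne_of_mem_erase hi)]
      rw [Function.update_self] at h2
      rw [hpt] at h1
      simp only [List.length_cons] at h1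
      omega
    obtain ⟨L, hL1, hL2, hL3⟩ := ih _ hsum
    refine ⟨Pi.mulSingle j (FreeMonoid.ofList p) :: L, ?_, by simp [hL2], ?_⟩
    · intro x hx
      rcases List.mem_cons.1 hx with rfl | hx
      · exact ⟨j, p, by rw [hpt]; exact List.mem_cons_self, rfl⟩
      · obtain ⟨i, q, hq, rfl⟩ := hL1 x hx
        refine ⟨i, q, ?_, rfl⟩
        by_cases hij : i = j
        · subst hij
          rw [Function.update_self] at hq
          rw [hpt]
          exact List.mem_cons_of_mem _ hq
        · rwa [Function.update_of_ne hij] at hq
    · rw [List.prod_cons, hL3]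
      funext i
      rw [Pi.mul_apply]
      by_cases hij : i = j
      · subst hij
        rw [Pi.mulSingle_eq_same, Function.update_self, ← FreeMonoid.ofList_append, hpt,
          List.flatten_cons]
      · rw [Pi.mulSingle_eq_of_ne hij, one_mul, Function.update_of_ne hij]

end

/-- **Diagrams with a given skeleton**: the values of an invariant of order at most `n` grow at most
like the `n`-th power of the number of crossings, and their denominators are bounded. -/
theorem phi_bound {k : ℕ} (u₀ : Word) (u : Fin k → Word) (n : ℕ) (v : Word → ℚ)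
    (hv : IsInvariant v) (hd : DegreeLE n v) : ∃ d C : ℕ, 0 < d ∧ ∀ w : Fin k → Braid,
      (∀ j, w j ∈ Wd (wd u₀ u j)) → Bd d (C * (∑ j, (w j).length + 1) ^ n)
        (phi u₀ u v (fun j => FreeMonoid.ofList (w j))) := by
  classical
  choose S P hSf hPf hP h using fun j : Fin k => schreier (wd u₀ u j)
  let PP : Set (Fin k → FreeMonoid (Bool × ℕ)) :=
    ⋃ j, (fun p => Pi.mulSingle j (FreeMonoid.ofList p)) '' P j
  let SS : Set (Fin k → FreeMonoid (Bool × ℕ)) :=
    (fun s : Fin k → Braid => fun j => FreeMonoid.ofList (s j)) '' Set.pi Set.univ S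
  have hPPf : PP.Finite := Set.finite_iUnion fun j => (hPf j).image _
  have hSSf : SS.Finite := (Set.Finite.pi hSf).image _
  have hpu : ∀ p ∈ PP, Pu (RS (wd u₀ u)) (ES (wd u₀ u)) p := by
    intro p hp
    obtain ⟨j, q, hq, rfl⟩ := Set.mem_iUnion.1 hp
    exact pu (hP j q hq).2 (hP j q hq).1
  obtain ⟨d, C, hd0, hC⟩ := poly hPPf hSSf hpu n (phi u₀ u v) (dg_phi u₀ u hd) (iv_phi u₀ u hv)
  refine ⟨d, C, hd0, fun w hw => ?_⟩
  choose l hl hlen s hs hcl using fun j => h j (w j) (hw j)
  obtain ⟨L, hL1, hL2, hL3⟩ := exists_list _ l rfl
  have e1 : phi u₀ u v (fun j => FreeMonoid.ofList (w j)) =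
      phi u₀ u v (L.prod * fun j => FreeMonoid.ofList (s j)) := by
    have h1 : (L.prod * fun j => FreeMonoid.ofList (s j)) =
        fun j => FreeMonoid.ofList ((l j).flatten ++ s j) := by
      rw [hL3]
      funext j
      rw [Pi.mul_apply, ← FreeMonoid.ofList_append]
    rw [h1]
    have h2 : cphi (phi u₀ u v) (fun j => FreeMonoid.ofList (w j))
        (fun j => FreeMonoid.ofList ((l j).flatten ++ s j)) := by
      refine con_pi fun j => ?_
      exact cl_eq.1 (hcl j k (wd u₀ u) j rfl (cphi (phi u₀ u v)) (fun r hr => iv_phi u₀ u hv r hr))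
    have h3 := h2 1 1
    simpa using h3
  rw [e1]
  have h2 := hC L (fun x hx => by
    obtain ⟨j, p, hp, rfl⟩ := hL1 x hx
    exact Set.mem_iUnion.2 ⟨j, p, hl j p hp, rfl⟩) (fun j => FreeMonoid.ofList (s j))
    ⟨s, fun j _ => hs j, rfl⟩
  have e2 : L.length = ∑ j, (w j).length := by
    rw [hL2]
    exact Finset.sum_congr rfl fun j _ => hlen j
  rw [e2] at h2
  exact h2

end Pool.Agent.H66.VU
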