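import Pool.Graph.R_seed8.Y466.FT.Base
import Pool.Agent.H66.VU.Abs

/-!
# Braid words as products of finitely many pure braid words
-/

set_option autoImplicit false

namespace Pool.Agent.H66.VU

open Pool.Agent.H835R2.Knot Pool.Agent.Y466.FT

/-- Braid words on `m` strands. -/
def Wd (m : ℕ) : Set Braid := {w | ∀ l ∈ w, l.2 + 1 < m}

theorem Wd.nil (m : ℕ) : ([] : Braid) ∈ Wd m := fun l hl => absurd hl (by simp)

theorem Wd.app {m : ℕ} {v w : Braid} (hv : v ∈ Wd m) (hw : w ∈ Wd m) : v ++ w ∈ Wd m := by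
  intro l hl
  rcases List.mem_append.1 hl with h | h
  · exact hv l h
  · exact hw l h

theorem Wd.inv {m : ℕ} {w : Braid} (hw : w ∈ Wd m) : Pool.Agent.Y466.FT.inv w ∈ Wd m := by
  intro l hl
  unfold Pool.Agent.Y466.FT.inv at hl
  rw [List.mem_reverse] at hl
  obtain ⟨x, hx, rfl⟩ := List.mem_map.1 hl
  exact hw x hx

theorem inv_inv (w : Braid) : Pool.Agent.Y466.FT.inv (Pool.Agent.Y466.FT.inv w) = w := by
  unfold Pool.Agent.Y466.FT.inv
  rw [List.map_reverse, List.reverse_reverse, List.map_map]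
  conv_rhs => rw [← List.map_id w]
  refine List.map_congr_left fun l _ => ?_
  obtain ⟨b, i⟩ := l
  simp

theorem perm_append (v w : Braid) : perm (v ++ w) = perm v * perm w := by
  unfold perm
  rw [List.map_append, List.prod_append]

theorem perm_inv (w : Braid) : perm (Pool.Agent.Y466.FT.inv w) = (perm w)⁻¹ := by
  induction w with
  | nil => simp [perm, Pool.Agent.Y466.FT.inv]
  | cons l w ih =>
    rw [inv_cons, perm_append, ih]
    have e : l :: w = [l] ++ w := rfl
    rw [e, perm_append, mul_inv_rev]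
    congr 1

/-- The permutations of the strands `0, …, m - 1`. -/
def Sym (m : ℕ) : Set (Equiv.Perm ℕ) := {π | ∀ x, m ≤ x → π x = x}

theorem Sym.lt {m : ℕ} {π : Equiv.Perm ℕ} (h : π ∈ Sym m) {x : ℕ} (hx : x < m) : π x < m := by
  by_contra hcon
  have h1 := h (π x) (not_lt.1 hcon)
  have h2 := π.injective h1
  omega

theorem sym_finite (m : ℕ) : (Sym m).Finite := by
  have hf : (Set.univ : Set (Fin m → Fin m)).Finite := Set.finite_univ
  classical
  let F : Equiv.Perm ℕ → (Fin m → Fin m) := fun π i =>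
    if h : π i < m then ⟨π i, h⟩ else i
  refine Set.Finite.of_finite_image (f := F) (hf.subset (Set.subset_univ _)) ?_
  intro π hπ ρ hρ e
  ext x
  by_cases hx : x < m
  · have h1 := congrFun e ⟨x, hx⟩
    have h2 := Sym.lt hπ hx
    have h3 := Sym.lt hρ hx
    simp only [F] at h1
    rw [dif_pos h2, dif_pos h3] at h1
    exact congrArg Fin.val h1
  · rw [hπ x (not_lt.1 hx), hρ x (not_lt.1 hx)]

theorem perm_mem {m : ℕ} {w : Braid} (hw : w ∈ Wd m) : perm w ∈ Sym m := by
  induction w with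
  | nil => intro x _; rfl
  | cons l w ih =>
    intro x hx
    have e : l :: w = [l] ++ w := rfl
    rw [e, perm_append, Equiv.Perm.mul_apply, ih (fun y hy => hw y (List.mem_cons_of_mem _ hy)) x hx]
    have h1 := hw l List.mem_cons_self
    unfold perm
    simp only [List.map_cons, List.map_nil, List.prod_singleton]
    exact Equiv.swap_apply_of_ne_of_ne (by omega) (by omega)

/-- Representatives of the permutations. -/
theorem exists_reps (m : ℕ) : ∃ S : Set Braid, S.Finite ∧ S ⊆ Wd m ∧ [] ∈ S ∧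
    ∀ w ∈ Wd m, ∃ s ∈ S, perm s = perm w := by
  classical
  have hf : (perm '' Wd m).Finite := (sym_finite m).subset (by
    rintro _ ⟨w, hw, rfl⟩
    exact perm_mem hw)
  have hc : ∀ π : Equiv.Perm ℕ, ∃ w : Braid, π ∈ perm '' Wd m → w ∈ Wd m ∧ perm w = π := by
    intro π
    by_cases h : π ∈ perm '' Wd m
    · obtain ⟨w, hw, hw'⟩ := h
      exact ⟨w, fun _ => ⟨hw, hw'⟩⟩
    · exact ⟨[], fun h' => absurd h' h⟩
  choose g hg using hc
  refine ⟨insert [] (g '' (perm '' Wd m)), (hf.image g).insert _, ?_, Set.mem_insert _ _, ?_⟩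
  · intro w hw
    rcases Set.mem_insert_iff.1 hw with rfl | ⟨π, hπ, rfl⟩
    · exact Wd.nil m
    · exact (hg π hπ).1
  · intro w hw
    have hπ : perm w ∈ perm '' Wd m := ⟨w, hw, rfl⟩
    exact ⟨g (perm w), Set.mem_insert_of_mem _ ⟨_, hπ, rfl⟩, (hg _ hπ).2⟩

theorem letters_finite (m : ℕ) : {x : Bool × ℕ | x.2 + 1 < m}.Finite := by
  have h : {x : Bool × ℕ | x.2 + 1 < m} ⊆ (Set.univ : Set Bool) ×ˢ (Set.Iio m) := by
    intro x hx
    refine ⟨Set.mem_univ _, ?_⟩
    have : x.2 + 1 < m := hx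
    show x.2 < m
    omega
  exact (Set.finite_univ.prod (Set.finite_Iio m)).subset h

/-- **Reidemeister-Schreier.** -/
theorem schreier (m : ℕ) : ∃ S P : Set Braid, S.Finite ∧ P.Finite ∧
    (∀ p ∈ P, IsPure p ∧ p ∈ Wd m) ∧ ∀ w ∈ Wd m, ∃ l : List Braid, (∀ p ∈ l, p ∈ P) ∧
      l.length = w.length ∧ ∃ s ∈ S, ∀ (k : ℕ) (mm : Fin k → ℕ) (j : Fin k), mm j = m →
        ∀ c : Con (Fin k → FreeMonoid (Bool × ℕ)), (∀ r ∈ RS mm, c r.1 r.2) →
          cl c j (FreeMonoid.ofList w) = cl c j (FreeMonoid.ofList (l.flatten ++ s)) := by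
  obtain ⟨S, hSf, hSW, hS0, hS⟩ := exists_reps m
  let P : Set Braid := {p | (∃ s ∈ S, ∃ x : Bool × ℕ, x.2 + 1 < m ∧ ∃ s' ∈ S,
    p = s ++ [x] ++ Pool.Agent.Y466.FT.inv s') ∧ IsPure p ∧ p ∈ Wd m}
  have hPf : P.Finite := by
    have h1 := ((hSf.prod (letters_finite m)).prod hSf).image
      (fun y : (Braid × (Bool × ℕ)) × Braid => y.1.1 ++ [y.1.2] ++ Pool.Agent.Y466.FT.inv y.2)
    refine h1.subset ?_
    rintro p ⟨⟨s, hs, x, hx, s', hs', rfl⟩, -⟩
    exact ⟨((s, x), s'), ⟨⟨hs, hx⟩, hs'⟩, rfl⟩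
  refine ⟨S, P, hSf, hPf, fun p hp => hp.2, ?_⟩
  have key : ∀ w ∈ Wd m, ∀ s ∈ S, ∃ l : List Braid, (∀ p ∈ l, p ∈ P) ∧
      l.length = w.length ∧ ∃ s' ∈ S, ∀ (k : ℕ) (mm : Fin k → ℕ) (j : Fin k), mm j = m →
        ∀ c : Con (Fin k → FreeMonoid (Bool × ℕ)), (∀ r ∈ RS mm, c r.1 r.2) →
          cl c j (FreeMonoid.ofList (s ++ w)) = cl c j (FreeMonoid.ofList (l.flatten ++ s')) := by
    intro w
    induction w with
    | nil =>
      intro _ s hs
      exact ⟨[], fun p hp => absurd hp (by simp), rfl, s, hs, fun k mm j _ c _ => by simp⟩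
    | cons x w ih =>
      intro hw s hs
      have hx : x.2 + 1 < m := hw x List.mem_cons_self
      have hw' : w ∈ Wd m := fun y hy => hw y (List.mem_cons_of_mem _ hy)
      have hx' : ([x] : Braid) ∈ Wd m := by
        intro y hy
        rw [List.mem_singleton.1 hy]
        exact hx
      obtain ⟨s'', hs'', hp⟩ := hS (s ++ [x]) (Wd.app (hSW hs) hx')
      obtain ⟨l, hl, hlen, s', hs', h⟩ := ih hw' s'' hs''
      have hpure : IsPure (s ++ [x] ++ Pool.Agent.Y466.FT.inv s'') := by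
        unfold IsPure
        rw [perm_append, perm_inv, hp, mul_inv_cancel]
      have hpW : s ++ [x] ++ Pool.Agent.Y466.FT.inv s'' ∈ Wd m :=
        Wd.app (Wd.app (hSW hs) hx') (Wd.inv (hSW hs''))
      refine ⟨(s ++ [x] ++ Pool.Agent.Y466.FT.inv s'') :: l, ?_, by simp [hlen], s', hs', ?_⟩
      · intro p hp'
        rcases List.mem_cons.1 hp' with rfl | hp'
        · exact ⟨⟨s, hs, x, hx, s'', hs'', rfl⟩, hpure, hpW⟩
        · exact hl p hp'
      · intro k mm j hj c hc
        have h1 := h k mm j hj c hc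
        have h2 : cl c j (FreeMonoid.ofList (Pool.Agent.Y466.FT.inv s'' ++ s'')) = 1 := by
          have h3 := cl_inv hc (j := j) (w := Pool.Agent.Y466.FT.inv s'') (by
            rw [hj]
            exact Wd.inv (hSW hs''))
          rwa [inv_inv] at h3
        have e0 : cl c j (FreeMonoid.ofList (((s ++ [x] ++ Pool.Agent.Y466.FT.inv s'') :: l).flatten ++
            s')) = cl c j (FreeMonoid.ofList (s ++ [x] ++ Pool.Agent.Y466.FT.inv s'')) *
              cl c j (FreeMonoid.ofList (s'' ++ w)) := by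
          rw [h1, ← map_mul, ← FreeMonoid.ofList_append, List.flatten_cons, List.append_assoc]
        rw [e0, ← map_mul, ← FreeMonoid.ofList_append]
        have e1 : s ++ [x] ++ Pool.Agent.Y466.FT.inv s'' ++ (s'' ++ w) =
            (s ++ [x]) ++ ((Pool.Agent.Y466.FT.inv s'' ++ s'') ++ w) := by
          simp
        have e2 : s ++ x :: w = (s ++ [x]) ++ w := by simp
        rw [e1, e2, FreeMonoid.ofList_append (s ++ [x]) w, FreeMonoid.ofList_append (s ++ [x])
          (Pool.Agent.Y466.FT.inv s'' ++ s'' ++ w), FreeMonoid.ofList_append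
          (Pool.Agent.Y466.FT.inv s'' ++ s'') w, map_mul, map_mul, map_mul, h2, one_mul]
  intro w hw
  obtain ⟨l, h1, h2, s', h3, h4⟩ := key w hw [] hS0
  exact ⟨l, h1, h2, s', h3, fun k mm j hj c hc => by
    have := h4 k mm j hj c hc
    rwa [List.nil_append] at this⟩

end Pool.Agent.H66.VU
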