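import Pool.Agent.H66.VU.Phi
import Pool.Agent.H66.VG.Mono

/-!
# The size of the values of an invariant at the knots with at most `B` maxima
-/

set_option autoImplicit false

namespace Pool.Agent.H66.VU

open Pool.Agent.H835R2 Pool.Agent.H835R2.Knot Pool.Agent.Y466.FT Pool.Agent.H66.VG

/-! ### Maxima and minima -/

/-- Is the piece a minimum? -/
def isDeath : Piece → Bool
  | .death _ => true
  | _ => false

theorem count_strands (D : Word) : ∀ F : Front, Knot.Fits D F →
    (Knot.run D F).n + 2 * D.countP isDeath = F.n + 2 * maxima D := by
  induction D with
  | nil => intro F _; rfl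
  | cons p D ih =>
    intro F h
    have h1 := ih (p.act F) h.2
    have e : Knot.run (p :: D) F = Knot.run D (p.act F) := rfl
    rw [e]
    have hf := h.1
    cases p with
    | birth i b =>
      have e1 : (Piece.birth i b :: D).countP isDeath = D.countP isDeath :=
        List.countP_cons_of_neg (by simp [isDeath])
      have e2 : maxima (Piece.birth i b :: D) = maxima D + 1 := List.countP_cons_of_pos rfl
      have e3 : ((Piece.birth i b).act F).n = F.n + 2 := rfl
      omega
    | death i =>
      have e1 : (Piece.death i :: D).countP isDeath = D.countP isDeath + 1 :=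
        List.countP_cons_of_pos rfl
      have e2 : maxima (Piece.death i :: D) = maxima D :=
        List.countP_cons_of_neg (by simp [isBirth])
      have e3 : ((Piece.death i).act F).n = F.n - 2 := rfl
      have e4 : i + 2 ≤ F.n := hf.1
      omega
    | pos i =>
      have e1 : (Piece.pos i :: D).countP isDeath = D.countP isDeath :=
        List.countP_cons_of_neg (by simp [isDeath])
      have e2 : maxima (Piece.pos i :: D) = maxima D :=
        List.countP_cons_of_neg (by simp [isBirth])
      have e3 : ((Piece.pos i).act F).n = F.n := rfl
      omega
    | neg i =>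
      have e1 : (Piece.neg i :: D).countP isDeath = D.countP isDeath :=
        List.countP_cons_of_neg (by simp [isDeath])
      have e2 : maxima (Piece.neg i :: D) = maxima D :=
        List.countP_cons_of_neg (by simp [isBirth])
      have e3 : ((Piece.neg i).act F).n = F.n := rfl
      omega

theorem index_le (D : Word) : ∀ F : Front, Knot.Fits D F → ∀ p ∈ D,
    p.index ≤ F.n + 2 * maxima D := by
  induction D with
  | nil => intro F _ p hp; exact absurd hp (by simp)
  | cons q D ih =>
    intro F h p hp
    have hf := h.1
    rcases List.mem_cons.1 hp with rfl | hp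
    · cases p with
      | birth i b =>
        have e4 : i ≤ F.n := hf
        show i ≤ _
        omega
      | death i =>
        have e4 : i + 2 ≤ F.n := hf.1
        show i ≤ _
        omega
      | pos i =>
        have e4 : i + 2 ≤ F.n := hf
        show i ≤ _
        omega
      | neg i =>
        have e4 : i + 2 ≤ F.n := hf
        show i ≤ _
        omega
    · have h1 := ih (q.act F) h.2 p hp
      have h2 : (q.act F).n + 2 * maxima D ≤ F.n + 2 * maxima (q :: D) := by
        cases q with
        | birth i b =>
          have e2 : maxima (Piece.birth i b :: D) = maxima D + 1 := List.countP_cons_of_pos rfl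
          have e3 : ((Piece.birth i b).act F).n = F.n + 2 := rfl
          omega
        | death i =>
          have e2 : maxima (Piece.death i :: D) = maxima D :=
            List.countP_cons_of_neg (by simp [isBirth])
          have e3 : ((Piece.death i).act F).n = F.n - 2 := rfl
          omega
        | pos i =>
          have e2 : maxima (Piece.pos i :: D) = maxima D :=
            List.countP_cons_of_neg (by simp [isBirth])
          have e3 : ((Piece.pos i).act F).n = F.n := rfl
          omega
        | neg i =>
          have e2 : maxima (Piece.neg i :: D) = maxima D :=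
            List.countP_cons_of_neg (by simp [isBirth])
          have e3 : ((Piece.neg i).act F).n = F.n := rfl
          omega
      exact h1.trans h2

/-! ### Skeletons -/

/-- The maxima and minima of a diagram. -/
def skel (D : Word) : List Piece := D.filter fun p => !p.isCrossing

theorem skel_length (D : Word) : (skel D).length = maxima D + D.countP isDeath := by
  induction D with
  | nil => rfl
  | cons p D ih =>
    cases p with
    | birth i b =>
      have e1 : (Piece.birth i b :: D).countP isDeath = D.countP isDeath :=
        List.countP_cons_of_neg (by simp [isDeath])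
      have e2 : maxima (Piece.birth i b :: D) = maxima D + 1 := List.countP_cons_of_pos rfl
      have e3 : skel (Piece.birth i b :: D) = .birth i b :: skel D := rfl
      rw [e1, e2, e3, List.length_cons, ih]
      omega
    | death i =>
      have e1 : (Piece.death i :: D).countP isDeath = D.countP isDeath + 1 :=
        List.countP_cons_of_pos rfl
      have e2 : maxima (Piece.death i :: D) = maxima D :=
        List.countP_cons_of_neg (by simp [isBirth])
      have e3 : skel (Piece.death i :: D) = .death i :: skel D := rfl
      rw [e1, e2, e3, List.length_cons, ih]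
      omega
    | pos i =>
      have e1 : (Piece.pos i :: D).countP isDeath = D.countP isDeath :=
        List.countP_cons_of_neg (by simp [isDeath])
      have e2 : maxima (Piece.pos i :: D) = maxima D :=
        List.countP_cons_of_neg (by simp [isBirth])
      have e3 : skel (Piece.pos i :: D) = skel D := rfl
      rw [e1, e2, e3, ih]
    | neg i =>
      have e1 : (Piece.neg i :: D).countP isDeath = D.countP isDeath :=
        List.countP_cons_of_neg (by simp [isDeath])
      have e2 : maxima (Piece.neg i :: D) = maxima D :=
        List.countP_cons_of_neg (by simp [isBirth])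
      have e3 : skel (Piece.neg i :: D) = skel D := rfl
      rw [e1, e2, e3, ih]

/-- The skeletons of knot diagrams with at most `B` maxima. -/
def Skels (L : ℕ) : Set (List Piece) := {K | K.length ≤ L ∧ ∀ p ∈ K, p.index ≤ L}

theorem skels_finite (L : ℕ) : (Skels L).Finite := by
  have : Finite {p : Piece // p.index ≤ L} := (pieces_finite L).to_subtype
  have h1 := List.finite_length_le {p : Piece // p.index ≤ L} L
  refine (h1.image (List.map Subtype.val)).subset ?_
  rintro D ⟨hl, hi⟩
  refine ⟨D.attachWith (fun p => p.index ≤ L) hi, ?_, ?_⟩
  · show (D.attachWith _ hi).length ≤ L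
    rw [List.length_attachWith]
    exact hl
  · exact List.attachWith_map_subtype_val hi

theorem skel_mem {D : Word} (hD : IsKnot D) {B : ℕ} (hB : maxima D ≤ B) :
    skel D ∈ Skels (2 * B) := by
  have h1 := count_strands D Front.empty hD.1.1
  have h2 : (Knot.run D Front.empty).n = 0 := hD.1.2
  have h3 : Front.empty.n = 0 := rfl
  refine ⟨?_, fun p hp => ?_⟩
  · rw [skel_length]
    omega
  · have h4 := index_le D Front.empty hD.1.1 p (List.mem_of_mem_filter hp)
    omega

/-! ### Slots -/

theorem exists_slots (q : Piece) (hq : q.isCrossing = false) (E : Word) :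
    ∃ S : List (Braid × Piece), E ++ [q] = (S.map fun x => draw x.1 ++ [x.2]).flatten ∧
      S.map Prod.snd = skel (E ++ [q]) ∧ (S.map fun x => x.1.length).sum = crossings (E ++ [q]) ∧
      S ≠ [] := by
  induction E with
  | nil =>
    refine ⟨[([], q)], by simp [draw], ?_, ?_, by simp⟩
    · simp [skel, hq]
    · simp [crossings, hq]
  | cons p E ih =>
    obtain ⟨S, h1, h2, h3, h4⟩ := ih
    by_cases hp : p.isCrossing = true
    · obtain ⟨l, hl⟩ := exists_letter hp
      obtain ⟨⟨w, q'⟩, S', rfl⟩ : ∃ x S', S = x :: S' := List.exists_cons_of_ne_nil h4
      refine ⟨(l :: w, q') :: S', ?_, ?_, ?_, by simp⟩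
      · rw [List.cons_append, h1, ← hl]
        simp [draw]
      · rw [List.cons_append]
        unfold skel at h2 ⊢
        rw [List.filter_cons_of_neg (by simp [hp]), ← h2]
        rfl
      · rw [List.cons_append]
        unfold crossings at h3 ⊢
        rw [List.countP_cons_of_pos hp, ← h3]
        simp only [List.map_cons, List.sum_cons, List.length_cons]
        omega
    · have hp' : p.isCrossing = false := by simpa using hp
      refine ⟨([], p) :: S, ?_, ?_, ?_, by simp⟩
      · rw [List.cons_append, h1]
        simp [draw]
      · rw [List.cons_append]
        unfold skel at h2 ⊢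
        rw [List.filter_cons_of_pos (by simp [hp']), ← h2]
        rfl
      · rw [List.cons_append]
        unfold crossings at h3 ⊢
        rw [List.countP_cons_of_neg hp, ← h3]
        simp

theorem plug_slots (S : List (Braid × Piece)) :
    plug [] (fun i : Fin (S.map Prod.snd).length => [(S.map Prod.snd).get i]) piece
      (fun j => FreeMonoid.ofList (S.get (j.cast (List.length_map _))).1) =
      (S.map fun x => draw x.1 ++ [x.2]).flatten := by
  unfold plug
  rw [List.nil_append]
  congr 1
  apply List.ext_getElem
  · simp
  · intro i h1 h2
    simp only [List.getElem_ofFn, List.getElem_map, List.get_eq_getElem, Fin.val_cast]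
    rfl

theorem family_one {k : ℕ} (u₀ : Word) (w : Fin k → Braid) (u : Fin k → Word) :
    family u₀ w u 1 = plug u₀ u piece (fun j => FreeMonoid.ofList (w j)) := by
  rw [family_eq]
  congr 1
  funext j
  show FreeMonoid.ofList (pow (w j) 1) = _
  have : pow (w j) 1 = w j := by
    show (List.replicate 1 (w j)).flatten = _
    simp
  rw [this]

/-- **Knots with at most `B` maxima**: the values of an invariant of order at most `n` grow at most
like the `n`-th power of the number of crossings, and their denominators are bounded. -/
theorem knot_bound (B n : ℕ) (v : Word → ℚ) (hv : IsInvariant v) (hd : DegreeLE n v) :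
    ∃ d C : ℕ, 0 < d ∧ ∀ D, IsKnot D → maxima D ≤ B → Bd d (C * (crossings D + 1) ^ n) (v D) := by
  classical
  choose dK CK hdK hCK using fun K : List Piece =>
    phi_bound [] (fun i : Fin K.length => [K.get i]) n v hv hd
  set D0 := ∏ K ∈ (skels_finite (2 * B)).toFinset, dK K with hD0
  have hpos : 0 < D0 := Finset.prod_pos fun K _ => hdK K
  refine ⟨D0, ∑ K ∈ (skels_finite (2 * B)).toFinset, D0 * CK K, hpos, fun D hD hB => ?_⟩
  obtain ⟨E, hE, -⟩ := knot_last hD
  obtain ⟨S, h1, h2, h3, -⟩ := exists_slots (.death 0) rfl E
  rw [← hE] at h1 h2 h3
  have hmem : S.map Prod.snd ∈ (skels_finite (2 * B)).toFinset := by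
    rw [Set.Finite.mem_toFinset, h2]
    exact skel_mem hD hB
  set w : Fin (S.map Prod.snd).length → Braid :=
    fun j => (S.get (j.cast (List.length_map _))).1 with hw
  have hplug := plug_slots S
  rw [← h1] at hplug
  have hfam : family [] w (fun i : Fin (S.map Prod.snd).length => [(S.map Prod.snd).get i]) 1 = D := by
    rw [family_one]
    exact hplug
  have hlet := letters [] (fun i : Fin (S.map Prod.snd).length => [(S.map Prod.snd).get i])
    (w := w) (by rw [hfam]; exact hD)
  have h4 := hCK (S.map Prod.snd) w (fun j => hlet j)
  have e1 : phi [] (fun i : Fin (S.map Prod.snd).length => [(S.map Prod.snd).get i]) v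
      (fun j => FreeMonoid.ofList (w j)) = v D := by
    unfold phi
    rw [hplug]
    exact if_pos hD
  have e2 : ∑ j, (w j).length = crossings D := by
    rw [← h3]
    have e3 : (S.map fun x => x.1.length) = List.ofFn fun j : Fin (S.map Prod.snd).length =>
        (w j).length := by
      apply List.ext_getElem
      · simp
      · intro i h1 h2
        simp [hw]
    rw [e3, List.sum_ofFn]
  rw [e1, e2] at h4
  refine (h4.up hpos (Finset.dvd_prod_of_mem dK hmem)).mono ?_
  rw [← mul_assoc]
  exact Nat.mul_le_mul_right _ (Finset.single_le_sum (f := fun K => D0 * CK K)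
    (fun _ _ => Nat.zero_le _) hmem)

end Pool.Agent.H66.VU
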