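import Pool.Agent.H66.VG.Mono

/-!
# A lower bound which is uniform in the number of maxima
-/

set_option autoImplicit false

namespace Pool.Agent.H66.VU

open Pool.Agent.H835R2 Pool.Agent.H835R2.Knot Pool.Agent.H835R2.Flat Pool.Agent.Y466.FT
  Pool.Agent.H66.VG
open scoped Pointwise

section
variable {K : Type} [Field K] [CharZero K] {r : ℕ} {m : Fin r → ℕ} {V : Fin r → Fin r → K}
  {S : ℕ → ℕ → Finset (Fin r → K)}

theorem growth_unif (hm : ∀ i, 1 ≤ m i) (hV : Indep m V)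
    (hadd : ∀ X Y B B' a b, a ∈ S X B → b ∈ S Y B' → a + b ∈ S (X + Y) (B + B'))
    (hmono : ∀ X Y B B', X ≤ Y → B ≤ B' → S X B ⊆ S Y B') (hne : (S 2 2).Nonempty) (C : ℕ)
    (hF : ∀ (j : Fin r) (Y : ℕ), 1 ≤ Y → ∀ q : Fin (m j) → ℕ, (∀ t, q t ≤ Y) →
      Diff m V S j (C * Y) C (∏ t, q t)) :
    ∃ L : ℕ, 2 ≤ L ∧ ∀ t Y : ℕ, 1 ≤ Y →
      (2 ^ t * Y) ^ ((∑ i, m i) * 2 ^ t) ≤ 4 ^ ((∑ i, m i) * 2 ^ t) * (Y ^ (∑ i, m i) *
        (S (L * (2 ^ t * Y)) (2 ^ t * L)).card ^ (2 ^ t)) := by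
  classical
  obtain ⟨L, hL2, hLL, hbox⟩ := box hm hV hadd hmono hne C hF
  obtain ⟨z, hz⟩ := hLL
  set D := ∑ i, m i with hD
  refine ⟨L, hL2, fun t => ?_⟩
  induction t with
  | zero =>
    intro Y hY
    have h1 : 1 ≤ (S (L * (2 ^ 0 * Y)) (2 ^ 0 * L)).card := by
      refine Finset.card_pos.2 ⟨z, hmono _ _ _ _ ?_ ?_ hz⟩
      · rw [pow_zero, one_mul]
        exact Nat.le_mul_of_pos_right _ hY
      · rw [pow_zero, one_mul]
    rw [pow_zero, one_mul, mul_one, pow_one]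
    rw [pow_zero, one_mul] at h1
    calc Y ^ D = 1 * (Y ^ D * 1) := by ring
      _ ≤ _ := Nat.mul_le_mul (Nat.one_le_pow _ _ (by norm_num)) (Nat.mul_le_mul_left _ h1)
  | succ t ih =>
    intro Y hY
    have h2t : 1 ≤ 2 ^ t := Nat.one_le_two_pow
    set Z := 2 ^ t * Y with hZ
    have hZ1 : 1 ≤ Z := Nat.mul_pos h2t hY
    have e0 : 2 ^ (t + 1) * Y = 2 * Z := by rw [hZ, pow_succ]; ring
    rw [e0]
    have h1 := hbox Z hZ1 (S (L * Z) (2 ^ t * L)) (S (L * (2 * Z)) (2 ^ (t + 1) * L))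
      (hmono _ _ _ _ le_rfl (Nat.le_mul_of_pos_left _ h2t)) (fun a ha b hb => by
        have := hadd _ _ _ _ _ _ ha hb
        have e : L * Z + L * Z = L * (2 * Z) := by ring
        have e' : 2 ^ t * L + 2 ^ t * L = 2 ^ (t + 1) * L := by ring
        rwa [e, e'] at this)
    have h2 := ih Y hY
    set s := (S (L * (2 * Z)) (2 ^ (t + 1) * L)).card
    set a := (S (L * Z) (2 ^ t * L)).card
    have e1 : D * 2 ^ (t + 1) = D * 2 ^ t + D * 2 ^ t := by rw [pow_succ]; ring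
    have h3 : Z ^ (D * 2 ^ t) * a ^ 2 ^ t ≤ s ^ 2 ^ (t + 1) := by
      calc Z ^ (D * 2 ^ t) * a ^ 2 ^ t = (Z ^ D * a) ^ 2 ^ t := by
            rw [mul_pow (Z ^ D) a (2 ^ t), ← pow_mul Z D (2 ^ t)]
        _ ≤ (s ^ 2) ^ 2 ^ t := Nat.pow_le_pow_left h1 _
        _ = s ^ 2 ^ (t + 1) := by rw [← pow_mul, pow_succ, mul_comm 2]
    calc (2 * Z) ^ (D * 2 ^ (t + 1)) = 2 ^ (D * 2 ^ (t + 1)) * (Z ^ (D * 2 ^ t) * Z ^ (D * 2 ^ t)) := by
          rw [mul_pow, ← pow_add, ← e1]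
      _ ≤ 2 ^ (D * 2 ^ (t + 1)) * (Z ^ (D * 2 ^ t) * (4 ^ (D * 2 ^ t) * (Y ^ D * a ^ 2 ^ t))) :=
          Nat.mul_le_mul_left _ (Nat.mul_le_mul_left _ h2)
      _ = 2 ^ (D * 2 ^ (t + 1)) * 4 ^ (D * 2 ^ t) * (Y ^ D * (Z ^ (D * 2 ^ t) * a ^ 2 ^ t)) := by ring
      _ ≤ 2 ^ (D * 2 ^ (t + 1)) * 4 ^ (D * 2 ^ t) * (Y ^ D * s ^ 2 ^ (t + 1)) :=
          Nat.mul_le_mul_left _ (Nat.mul_le_mul_left _ h3)
      _ = 4 ^ (D * 2 ^ (t + 1)) * (Y ^ D * s ^ 2 ^ (t + 1)) := by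
          congr 1
          have e2 : (4 : ℕ) ^ (D * 2 ^ t) = 2 ^ (D * 2 ^ (t + 1)) := by
            rw [show (4 : ℕ) = 2 ^ 2 by norm_num, ← pow_mul]
            congr 1
            rw [pow_succ]
            ring
          rw [e2, ← mul_pow]
          norm_num

/-- The uniform lower bound, with real exponents. -/
theorem growth_unif_real (hm : ∀ i, 1 ≤ m i) (hV : Indep m V)
    (hadd : ∀ X Y B B' a b, a ∈ S X B → b ∈ S Y B' → a + b ∈ S (X + Y) (B + B'))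
    (hmono : ∀ X Y B B', X ≤ Y → B ≤ B' → S X B ⊆ S Y B') (hne : (S 2 1).Nonempty) (C : ℕ)
    (hF : ∀ (j : Fin r) (Y : ℕ), 1 ≤ Y → ∀ q : Fin (m j) → ℕ, (∀ t, q t ≤ Y) →
      Diff m V S j (C * Y) C (∏ t, q t)) :
    ∃ c C' : ℝ, 0 < c ∧ ∀ B X : ℕ, 1 ≤ B → 2 ≤ X →
      c * (X : ℝ) ^ (((∑ i, m i : ℕ) : ℝ) - C' / B) ≤ (S X B).card := by
  classical
  obtain ⟨z, hz⟩ := hne
  obtain ⟨L, hL2, hL⟩ := growth_unif hm hV hadd hmono ⟨z, hmono _ _ _ _ le_rfl (by omega) hz⟩ C hF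
  set D := ∑ i, m i with hD
  have hLr : (2 : ℝ) ≤ L := by exact_mod_cast hL2
  have hc : (0 : ℝ) < ((8 * L : ℝ) ^ D)⁻¹ := by positivity
  have hDr : (0 : ℝ) ≤ (D : ℝ) := Nat.cast_nonneg _
  refine ⟨((8 * L : ℝ) ^ D)⁻¹, 2 * L * D, hc, fun B X hB hX => ?_⟩
  have hXr : (2 : ℝ) ≤ X := by exact_mod_cast hX
  have hX1 : (1 : ℝ) ≤ X := by linarith
  have hBr : (1 : ℝ) ≤ B := by exact_mod_cast hB
  have hpos : (1 : ℝ) ≤ (S X B).card := by
    exact_mod_cast Finset.card_pos.2 ⟨z, hmono _ _ _ _ hX hB hz⟩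
  -- the trivial cases
  have hXL : (1 : ℝ) ≤ (8 * L : ℝ) ^ D := one_le_pow₀ (by linarith)
  by_cases hBL : B < L
  · refine le_trans ?_ hpos
    have h1 : (X : ℝ) ^ ((D : ℝ) - 2 * L * D / B) ≤ 1 := by
      refine Real.rpow_le_one_of_one_le_of_nonpos hX1 ?_
      rw [sub_nonpos, le_div_iff₀ (by linarith)]
      have : (B : ℝ) ≤ L := by exact_mod_cast hBL.le
      nlinarith
    calc _ ≤ ((8 * L : ℝ) ^ D)⁻¹ * 1 := mul_le_mul_of_nonneg_left h1 hc.le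
      _ ≤ 1 := by rw [mul_one]; exact inv_le_one_of_one_le₀ hXL
  by_cases hXL' : X < L
  · refine le_trans ?_ hpos
    have h1 : (X : ℝ) ^ ((D : ℝ) - 2 * L * D / B) ≤ (8 * L : ℝ) ^ D := by
      calc (X : ℝ) ^ ((D : ℝ) - 2 * L * D / B) ≤ (X : ℝ) ^ (D : ℝ) := by
            refine Real.rpow_le_rpow_of_exponent_le hX1 ?_
            have : (0 : ℝ) ≤ 2 * L * D / B := by positivity
            linarith
        _ = (X : ℝ) ^ D := Real.rpow_natCast _ _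
        _ ≤ (8 * L : ℝ) ^ D := by
            have : (X : ℝ) ≤ L := by exact_mod_cast hXL'.le
            exact pow_le_pow_left₀ (by linarith) (by linarith) _
    rw [inv_mul_le_iff₀ (by positivity), mul_one]
    exact h1
  push Not at hBL hXL'
  -- the scale
  have hBL1 : 1 ≤ B / L := (Nat.le_div_iff_mul_le (by omega)).2 (by omega)
  have hXL1 : 1 ≤ X / L := (Nat.le_div_iff_mul_le (by omega)).2 (by omega)
  set t := min (Nat.log 2 (B / L)) (Nat.log 2 (X / L)) with ht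
  have h2B : 2 ^ t ≤ B / L := (Nat.pow_le_pow_right (by norm_num) (min_le_left _ _)).trans
    (Nat.pow_log_le_self 2 (by omega))
  have h2X : 2 ^ t ≤ X / L := (Nat.pow_le_pow_right (by norm_num) (min_le_right _ _)).trans
    (Nat.pow_log_le_self 2 (by omega))
  have h2t : 0 < 2 ^ t := Nat.two_pow_pos t
  set Y := X / L / 2 ^ t with hY
  have hY1 : 1 ≤ Y := (Nat.le_div_iff_mul_le h2t).2 (by omega)
  have h1 := hL t Y hY1
  have hs : (S (L * (2 ^ t * Y)) (2 ^ t * L)).card ≤ (S X B).card := by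
    refine Finset.card_le_card (hmono _ _ _ _ ?_ ?_)
    · calc L * (2 ^ t * Y) ≤ L * (X / L) := Nat.mul_le_mul_left _ (Nat.mul_div_le _ _)
        _ ≤ X := Nat.mul_div_le _ _
    · calc 2 ^ t * L ≤ B / L * L := Nat.mul_le_mul_right _ h2B
        _ ≤ B := Nat.div_mul_le_self _ _
  set s := (S X B).card
  have h3 : (2 ^ t * Y) ^ (D * 2 ^ t) ≤ 4 ^ (D * 2 ^ t) * (Y ^ D * s ^ (2 ^ t)) :=
    h1.trans (Nat.mul_le_mul_left _ (Nat.mul_le_mul_left _ (Nat.pow_le_pow_left hs _)))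
  have h4 : ((2 ^ t * Y : ℕ) : ℝ) ^ (D * 2 ^ t) ≤ (4 : ℝ) ^ (D * 2 ^ t) *
      ((Y : ℝ) ^ D * (s : ℝ) ^ (2 ^ t)) := by exact_mod_cast h3
  have hYr : (1 : ℝ) ≤ Y := by exact_mod_cast hY1
  -- the exponent of Y
  have hYX : (Y : ℝ) ^ ((D : ℝ) / 2 ^ t) ≤ (X : ℝ) ^ (2 * L * D / B : ℝ) := by
    rcases le_total (Nat.log 2 (B / L)) (Nat.log 2 (X / L)) with h | h
    · have ht' : t = Nat.log 2 (B / L) := min_eq_left h
      have h5 : B / L < 2 ^ (t + 1) := by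
        rw [ht']
        exact Nat.lt_pow_succ_log_self (by norm_num) _
      have h6 : B < 2 ^ (t + 1) * L := (Nat.div_lt_iff_lt_mul (by omega)).1 h5
      have h7 : (B : ℝ) ≤ 2 * 2 ^ t * L := by
        have : (B : ℝ) ≤ ((2 ^ (t + 1) * L : ℕ) : ℝ) := by exact_mod_cast h6.le
        push_cast at this
        rw [pow_succ] at this
        linarith
      have h8 : (D : ℝ) / 2 ^ t ≤ 2 * L * D / B := by
        rw [div_le_div_iff₀ (by positivity) (by linarith)]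
        nlinarith
      calc (Y : ℝ) ^ ((D : ℝ) / 2 ^ t) ≤ (X : ℝ) ^ ((D : ℝ) / 2 ^ t) := by
            refine Real.rpow_le_rpow (by linarith) ?_ (by positivity)
            have : Y ≤ X := (Nat.div_le_self _ _).trans (Nat.div_le_self _ _)
            exact_mod_cast this
        _ ≤ _ := Real.rpow_le_rpow_of_exponent_le hX1 h8
    · have ht' : t = Nat.log 2 (X / L) := min_eq_right h
      have h5 : X / L < 2 ^ (t + 1) := by
        rw [ht']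
        exact Nat.lt_pow_succ_log_self (by norm_num) _
      have h6 : Y = 1 := by
        have : Y < 2 := (Nat.div_lt_iff_lt_mul h2t).2 (by rw [pow_succ] at h5; omega)
        omega
      rw [h6, Nat.cast_one, Real.one_rpow]
      exact Real.one_le_rpow hX1 (by positivity)
  -- the main inequality
  have h5 : ((2 ^ t * Y : ℕ) : ℝ) ^ D ≤ 4 ^ D * ((Y : ℝ) ^ ((D : ℝ) / 2 ^ t) * s) := by
    refine (pow_le_pow_iff_left₀ (by positivity) (by positivity) h2t.ne').1 ?_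
    rw [← pow_mul, mul_pow, ← pow_mul, mul_pow]
    have e1 : ((Y : ℝ) ^ ((D : ℝ) / 2 ^ t)) ^ (2 ^ t) = (Y : ℝ) ^ D := by
      rw [← Real.rpow_natCast, ← Real.rpow_mul (by linarith), ← Real.rpow_natCast (Y : ℝ) D]
      congr 1
      push_cast
      field_simp
    rw [e1]
    exact h4
  have h6 : (X : ℝ) ≤ 2 * L * ((2 ^ t * Y : ℕ) : ℝ) := by
    have e1 : X < L * (X / L) + L := by
      have := Nat.div_add_mod X L
      have := Nat.mod_lt X (show 0 < L by omega)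
      omega
    have e2 : X / L < 2 ^ t * Y + 2 ^ t := by
      have e6 := Nat.div_add_mod (X / L) (2 ^ t)
      rw [← hY] at e6
      have e7 := Nat.mod_lt (X / L) h2t
      omega
    have e3 : 2 ^ t ≤ 2 ^ t * Y := Nat.le_mul_of_pos_right _ hY1
    have e4 : X ≤ 2 * L * (2 ^ t * Y) := by
      have e5 : X / L + 1 ≤ 2 * (2 ^ t * Y) := by omega
      calc X ≤ L * (X / L + 1) := by rw [mul_add, mul_one]; omega
        _ ≤ L * (2 * (2 ^ t * Y)) := Nat.mul_le_mul_left _ e5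
        _ = _ := by ring
    exact_mod_cast e4
  have h7 : (X : ℝ) ^ D ≤ (8 * L : ℝ) ^ D * ((X : ℝ) ^ (2 * L * D / B : ℝ) * s) := by
    calc (X : ℝ) ^ D ≤ (2 * L * ((2 ^ t * Y : ℕ) : ℝ)) ^ D := pow_le_pow_left₀ (by linarith) h6 _
      _ = (2 * L : ℝ) ^ D * ((2 ^ t * Y : ℕ) : ℝ) ^ D := mul_pow _ _ _
      _ ≤ (2 * L : ℝ) ^ D * (4 ^ D * ((Y : ℝ) ^ ((D : ℝ) / 2 ^ t) * s)) :=
          mul_le_mul_of_nonneg_left h5 (by positivity)
      _ ≤ (2 * L : ℝ) ^ D * (4 ^ D * ((X : ℝ) ^ (2 * L * D / B : ℝ) * s)) := by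
          refine mul_le_mul_of_nonneg_left (mul_le_mul_of_nonneg_left
            (mul_le_mul_of_nonneg_right hYX (Nat.cast_nonneg _)) (by positivity)) (by positivity)
      _ = _ := by
          rw [← mul_assoc, ← mul_pow]
          congr 2
          ring
  have h8 : (X : ℝ) ^ ((D : ℝ) - 2 * L * D / B) = (X : ℝ) ^ D * ((X : ℝ) ^ (2 * L * D / B : ℝ))⁻¹ := by
    rw [Real.rpow_sub (by linarith), Real.rpow_natCast, div_eq_mul_inv]
  rw [h8, inv_mul_le_iff₀ (by positivity)]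
  have h9 : (0 : ℝ) < (X : ℝ) ^ (2 * L * D / B : ℝ) := Real.rpow_pos_of_pos (by linarith) _
  rw [← div_eq_mul_inv, div_le_iff₀ h9]
  linarith [h7]

end

/-- **The lower bound, uniform in the number of maxima.** -/
theorem lower_unif (K : Type) [Field K] [CharZero K] (N : ℕ) :
    ∃ c C : ℝ, 0 < c ∧ ∀ B X : ℕ, 1 ≤ B → 2 ≤ X → ∃ T : Finset Word,
      (∀ D ∈ T, IsKnot D ∧ D.length ≤ X ∧ maxima D ≤ B) ∧
      (∀ D ∈ T, ∀ E ∈ T, D ≠ E → ∃ v ∈ Prim K N, v D ≠ v E) ∧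
      c * (X : ℝ) ^ ((weight K N : ℝ) - C / B) ≤ T.card := by
  obtain ⟨r, w, m, h, hm, hs⟩ := exists_sys K N
  obtain ⟨V, C, hI, hF⟩ := h.data
  obtain ⟨c, C', hc, hg⟩ := growth_unif_real h.one hI (SX_add w h.inv h.add) (SX_mono w)
    ⟨_, (mem_SX w).2 ⟨circle, circle_KX le_rfl le_rfl, rfl⟩⟩ C hF
  refine ⟨c, C', hc, fun B X hB hX => ?_⟩
  obtain ⟨T, hT1, hT2, hT3⟩ := Pool.Agent.H66.VG.exists_reps w X B
  refine ⟨T, fun D hD => ⟨(hT1 D hD).1, (hT1 D hD).2.1, (hT1 D hD).2.2.2⟩,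
    fun D hD E hE hne => ?_, ?_⟩
  · obtain ⟨i, hi⟩ := hT3 D hD E hE hne
    exact ⟨w i, ⟨h.inv i, degreeLE_mono (hm i) (h.deg i), h.add i⟩, hi⟩
  · rw [hT2, ← hs]
    exact hg B X hB hX

end Pool.Agent.H66.VU
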