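import Pool.Agent.H66.VU.Skel
import Pool.Agent.H66.VU.Dim

/-!
# The number of knots with at most `B` maxima which are separated: the upper bound
-/

set_option autoImplicit false

namespace Pool.Agent.H66.VU

open Pool.Agent.H835R2 Pool.Agent.H835R2.Knot Pool.Agent.H835R2.Flat Pool.Agent.Y466.FT
  Pool.Agent.H66.VG

/-- The upper bound for rational invariants. -/
theorem upper_rat (N B : ℕ) : ∃ C : ℕ, ∀ (X : ℕ) (T : Finset Word),
    (∀ D ∈ T, IsKnot D ∧ crossings D ≤ X ∧ maxima D ≤ B) →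
      (∀ D ∈ T, ∀ E ∈ T, D ≠ E → ∃ v ∈ Prim ℚ N, v D ≠ v E) →
        T.card ≤ C * (X + 1) ^ weight ℚ N := by
  classical
  obtain ⟨r, w, m, h1, h2, h3⟩ := exists_gen ℚ N
  choose d C hd hC using fun i => knot_bound B (m i) (w i) (h1 i).1 (h1 i).2.1
  refine ⟨∏ i, (2 * C i + 1), fun X T hT hsep => ?_⟩
  have hz : ∀ (D : Word) (i : Fin r), ∃ z : ℤ, D ∈ T → (d i : ℚ) * w i D = z ∧
      |z| ≤ ((C i * (X + 1) ^ m i : ℕ) : ℤ) := by
    intro D i
    by_cases hD : D ∈ T
    · obtain ⟨k1, k2, k3⟩ := hT D hD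
      obtain ⟨z, hz1, hz2⟩ := (hC i D k1 k3).mono (Nat.mul_le_mul_left (C i)
        (Nat.pow_le_pow_left (Nat.succ_le_succ k2) (m i)))
      exact ⟨z, fun _ => ⟨hz1, hz2⟩⟩
    · exact ⟨0, fun h => absurd h hD⟩
  choose z hz using hz
  set b : Fin r → ℕ := fun i => C i * (X + 1) ^ m i with hb
  have hmaps : ∀ D ∈ T, z D ∈ Fintype.piFinset fun i => Finset.Icc (-(b i : ℤ)) (b i : ℤ) := by
    intro D hD
    rw [Fintype.mem_piFinset]
    intro i
    rw [Finset.mem_Icc]
    exact abs_le.1 (hz D i hD).2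
  have hinj : Set.InjOn z T := by
    intro D hD E hE e
    by_contra hne
    obtain ⟨v, hv, hvne⟩ := hsep D hD E hE hne
    apply hvne
    obtain ⟨c, hc⟩ := h3 v hv
    rw [hc D (hT D hD).1, hc E (hT E hE).1]
    refine Finset.sum_congr rfl fun i _ => ?_
    congr 1
    have e1 := (hz D i hD).1
    have e2 := (hz E i hE).1
    rw [congrFun e i, ← e2] at e1
    exact mul_left_cancel₀ (by exact_mod_cast (hd i).ne') e1
  have hcard := Finset.card_le_card_of_injOn z hmaps hinj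
  refine hcard.trans ?_
  rw [Fintype.card_piFinset]
  have e1 : ∀ i, (Finset.Icc (-(b i : ℤ)) (b i : ℤ)).card = 2 * b i + 1 := by
    intro i
    rw [Int.card_Icc]
    omega
  simp only [e1]
  rw [← h2, ← Finset.prod_pow_eq_pow_sum, ← Finset.prod_mul_distrib]
  refine Finset.prod_le_prod (fun _ _ => Nat.zero_le _) fun i _ => ?_
  have hpow : 1 ≤ (X + 1) ^ m i := Nat.one_le_pow _ _ (Nat.succ_pos X)
  rw [hb]
  nlinarith

section
variable (K : Type) [Field K] [CharZero K]

/-- Applying a linear functional. -/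
theorem comp_mem {n : ℕ} {v : Word → K} (hv : v ∈ Prim K n) (l : K →ₗ[ℚ] ℚ) :
    (fun D => l (v D)) ∈ Prim ℚ n := by
  obtain ⟨h1, h2, h3⟩ := hv
  refine ⟨fun D E hD hDE => congrArg l (h1 D E hD hDE), fun D hD S hS hc => ?_,
    fun x y b hx hy hb => ?_⟩
  · have h4 := congrArg l (h2 D hD S hS hc)
    rw [map_sum, map_zero] at h4
    rw [← h4]
    exact Finset.sum_congr rfl fun T _ => (map_zsmul l _ _).symm
  · show l (v (x ++ y)) = l (v _) + l (v _)
    rw [h3 x y b hx hy hb, map_add]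

/-- Extension of scalars. -/
theorem ext_mem {n : ℕ} {v : Word → ℚ} (hv : v ∈ Prim ℚ n) :
    (fun D => algebraMap ℚ K (v D)) ∈ Prim K n := by
  obtain ⟨h1, h2, h3⟩ := hv
  refine ⟨fun D E hD hDE => congrArg (algebraMap ℚ K) (h1 D E hD hDE), fun D hD S hS hc => ?_,
    fun x y b hx hy hb => ?_⟩
  · have h4 := congrArg (algebraMap ℚ K) (h2 D hD S hS hc)
    rw [map_sum, map_zero] at h4
    rw [← h4]
    exact Finset.sum_congr rfl fun T _ => (map_zsmul (algebraMap ℚ K) _ _).symm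
  · show algebraMap ℚ K (v (x ++ y)) = _
    rw [h3 x y b hx hy hb, map_add]

theorem primDim_le (k : ℕ) : primDim ℚ k ≤ primDim K k := by
  classical
  have hf1 := finite_quot ℚ k
  have hf2 := finite_quot K k
  let b := Module.finBasis ℚ (Prim ℚ (k + 1) ⧸ (Prim ℚ k).submoduleOf (Prim ℚ (k + 1)))
  have hg : ∀ j : Fin (primDim ℚ k), ∃ g : Prim ℚ (k + 1),
      ((Prim ℚ k).submoduleOf (Prim ℚ (k + 1))).mkQ g = b j := fun j =>
    Submodule.mkQ_surjective _ _
  choose g hg using hg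
  let G : Fin (primDim ℚ k) → Prim K (k + 1) := fun j => ⟨_, ext_mem K (g j).2⟩
  have hli : LinearIndependent K
      (fun j => ((Prim K k).submoduleOf (Prim K (k + 1))).mkQ (G j)) := by
    rw [Fintype.linearIndependent_iff]
    intro c hc
    have h1 : (∑ j, c j • G j : Prim K (k + 1)) ∈ (Prim K k).submoduleOf (Prim K (k + 1)) := by
      rw [← Submodule.Quotient.mk_eq_zero, ← Submodule.mkQ_apply, map_sum]
      simpa only [map_smul] using hc
    have h2 : ((∑ j, c j • G j : Prim K (k + 1)) : Word → K) ∈ Prim K k :=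
      Submodule.mem_comap.1 h1
    intro j
    refine (Module.forall_dual_apply_eq_zero_iff ℚ (c j)).1 fun l => ?_
    have h3 := comp_mem K h2 l
    have h4 : (fun D => l (((∑ j, c j • G j : Prim K (k + 1)) : Word → K) D)) =
        ((∑ j, l (c j) • g j : Prim ℚ (k + 1)) : Word → ℚ) := by
      funext D
      rw [Submodule.coe_sum, Submodule.coe_sum, Finset.sum_apply, Finset.sum_apply, map_sum]
      refine Finset.sum_congr rfl fun j _ => ?_
      show l (c j * algebraMap ℚ K ((g j).1 D)) = l (c j) * (g j).1 D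
      rw [mul_comm, ← Algebra.smul_def, map_smul, smul_eq_mul, mul_comm]
    rw [h4] at h3
    have h5 : (∑ j, l (c j) • g j : Prim ℚ (k + 1)) ∈ (Prim ℚ k).submoduleOf (Prim ℚ (k + 1)) :=
      Submodule.mem_comap.2 h3
    have h6 : ∑ j, l (c j) • b j = 0 := by
      rw [← (Submodule.Quotient.mk_eq_zero _).2 h5, ← Submodule.mkQ_apply, map_sum]
      refine Finset.sum_congr rfl fun j _ => ?_
      rw [map_smul, hg]
    exact Fintype.linearIndependent_iff.1 b.linearIndependent _ h6 j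
  have := hli.fintype_card_le_finrank
  rwa [Fintype.card_fin] at this

theorem weight_le (N : ℕ) : weight ℚ N ≤ weight K N :=
  Finset.sum_le_sum fun k _ => Nat.mul_le_mul_left _ (primDim_le K k)

/-- **The upper bound.** -/
theorem upper (N B : ℕ) : ∃ C : ℕ, ∀ (X : ℕ) (T : Finset Word),
    (∀ D ∈ T, IsKnot D ∧ crossings D ≤ X ∧ maxima D ≤ B) →
      (∀ D ∈ T, ∀ E ∈ T, D ≠ E → ∃ v ∈ Prim K N, v D ≠ v E) →
        T.card ≤ C * (X + 1) ^ weight K N := by
  obtain ⟨C, hC⟩ := upper_rat N B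
  refine ⟨C, fun X T hT hsep => (hC X T hT fun D hD E hE hne => ?_).trans
    (Nat.mul_le_mul_left _ (Nat.pow_le_pow_right (Nat.succ_pos X) (weight_le K N)))⟩
  obtain ⟨v, hv, hvne⟩ := hsep D hD E hE hne
  obtain ⟨l, hl⟩ : ∃ l : K →ₗ[ℚ] ℚ, l (v D - v E) ≠ 0 := by
    by_contra hcon
    push Not at hcon
    exact hvne (sub_eq_zero.1 ((Module.forall_dual_apply_eq_zero_iff ℚ (v D - v E)).1 hcon))
  exact ⟨_, comp_mem K hv l, fun h => hl (by rw [map_sub]; exact sub_eq_zero.2 h)⟩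

end

end Pool.Agent.H66.VU
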