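import Pool.Agent.H66.VU.Upper
import Pool.Agent.H66.VU.Len

/-!
# The number of knots which are separated: the upper bound for all knots
-/

set_option autoImplicit false

namespace Pool.Agent.H66.VU

open Pool.Agent.H835R2 Pool.Agent.H835R2.Knot Pool.Agent.H835R2.Flat Pool.Agent.Y466.FT
  Pool.Agent.H66.VG

/-- The upper bound for rational invariants. -/
theorem upper_rat_len (N : ℕ) : ∃ C : ℕ, ∀ (X : ℕ) (T : Finset Word),
    (∀ D ∈ T, IsKnot D ∧ D.length ≤ X) →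
      (∀ D ∈ T, ∀ E ∈ T, D ≠ E → ∃ v ∈ Prim ℚ N, v D ≠ v E) →
        T.card ≤ C * (X + 1) ^ weight ℚ N := by
  classical
  obtain ⟨r, w, m, h1, h2, h3⟩ := exists_gen ℚ N
  choose d C hd hC using fun i => len_bound (n := m i) (v := w i) (h1 i).1 (h1 i).2.1
  refine ⟨∏ i, (2 * C i + 1), fun X T hT hsep => ?_⟩
  have hz : ∀ (D : Word) (i : Fin r), ∃ z : ℤ, D ∈ T → (d i : ℚ) * w i D = z ∧
      |z| ≤ ((C i * (X + 1) ^ m i : ℕ) : ℤ) := by
    intro D i
    by_cases hD : D ∈ T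
    · obtain ⟨k1, k2⟩ := hT D hD
      obtain ⟨z, hz1, hz2⟩ := (hC i D k1).mono (Nat.mul_le_mul_left (C i)
        (Nat.pow_le_pow_left (Nat.succ_le_succ k2) (m i)))
      exact ⟨z, fun _ => ⟨hz1, hz2⟩⟩
    · exact ⟨0, fun h => absurd h hD⟩
  choose z hz using hz
  set b : Fin r → ℕ := fun i => C i * (X + 1) ^ m i with hb
  have hmaps : ∀ D ∈ T, z D ∈ Fintype.piFinset fun i => Finset.Icc (-(b i : ℤ)) (b i : ℤ) := by
    intro D hD
    rw [Fintype.mem_piFinset]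
    intro i
    rw [Finset.mem_Icc]
    exact abs_le.1 (hz D i hD).2
  have hinj : Set.InjOn z T := by
    intro D hD E hE e
    by_contra hne
    obtain ⟨v, hv, hvne⟩ := hsep D hD E hE hne
    apply hvne
    obtain ⟨c, hc⟩ := h3 v hv
    rw [hc D (hT D hD).1, hc E (hT E hE).1]
    refine Finset.sum_congr rfl fun i _ => ?_
    congr 1
    have e1 := (hz D i hD).1
    have e2 := (hz E i hE).1
    rw [congrFun e i, ← e2] at e1
    exact mul_left_cancel₀ (by exact_mod_cast (hd i).ne') e1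
  have hcard := Finset.card_le_card_of_injOn z hmaps hinj
  refine hcard.trans ?_
  rw [Fintype.card_piFinset]
  have e1 : ∀ i, (Finset.Icc (-(b i : ℤ)) (b i : ℤ)).card = 2 * b i + 1 := by
    intro i
    rw [Int.card_Icc]
    omega
  simp only [e1]
  rw [← h2, ← Finset.prod_pow_eq_pow_sum, ← Finset.prod_mul_distrib]
  refine Finset.prod_le_prod (fun _ _ => Nat.zero_le _) fun i _ => ?_
  have hpow : 1 ≤ (X + 1) ^ m i := Nat.one_le_pow _ _ (Nat.succ_pos X)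
  rw [hb]
  nlinarith

section
variable (K : Type) [Field K] [CharZero K]

/-- **The upper bound.** -/
theorem upper_len (N : ℕ) : ∃ C : ℕ, ∀ (X : ℕ) (T : Finset Word),
    (∀ D ∈ T, IsKnot D ∧ D.length ≤ X) →
      (∀ D ∈ T, ∀ E ∈ T, D ≠ E → ∃ v ∈ Prim K N, v D ≠ v E) →
        T.card ≤ C * (X + 1) ^ weight K N := by
  obtain ⟨C, hC⟩ := upper_rat_len N
  refine ⟨C, fun X T hT hsep => (hC X T hT fun D hD E hE hne => ?_).trans
    (Nat.mul_le_mul_left _ (Nat.pow_le_pow_right (Nat.succ_pos X) (weight_le K N)))⟩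
  obtain ⟨v, hv, hvne⟩ := hsep D hD E hE hne
  obtain ⟨l, hl⟩ : ∃ l : K →ₗ[ℚ] ℚ, l (v D - v E) ≠ 0 := by
    by_contra hcon
    push Not at hcon
    exact hvne (sub_eq_zero.1 ((Module.forall_dual_apply_eq_zero_iff ℚ (v D - v E)).1 hcon))
  exact ⟨_, comp_mem K hv l, fun h => hl (by rw [map_sub]; exact sub_eq_zero.2 h)⟩

/-- **The lower bound**, for the diagrams with at most `X` pieces. -/
theorem lower_len (N : ℕ) : ∃ c : ℝ, 0 < c ∧ ∀ X : ℕ, 2 ≤ X → ∃ T : Finset Word,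
    (∀ D ∈ T, IsKnot D ∧ D.length ≤ X) ∧ c * (X : ℝ) ^ weight K N ≤ T.card ∧
      ∀ D ∈ T, ∀ E ∈ T, D ≠ E → ∃ v ∈ Prim K N, v D ≠ v E := by
  obtain ⟨r, w, m, h, hm, hs⟩ := exists_sys K N
  obtain ⟨V, C, hI, hF⟩ := h.data
  obtain ⟨L, hL, hg⟩ := growth h.one hI (SX_add w h.inv h.add) (SX_mono w) ne22 C hF
  refine ⟨1 / L, by positivity, fun X hX => ?_⟩
  obtain ⟨T, hT1, hT2, hT3⟩ := Pool.Agent.H66.VG.exists_reps w X X
  refine ⟨T, fun D hD => ⟨(hT1 D hD).1, (hT1 D hD).2.1⟩, ?_, fun D hD E hE hne => ?_⟩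
  · rw [hT2, ← hs]
    have h3 : (X : ℝ) ^ (∑ i, m i) ≤ L * ((SX w X X).card : ℝ) := by
      exact_mod_cast hg X hX
    have hL' : (0 : ℝ) < L := by exact_mod_cast hL
    rw [div_mul_eq_mul_div, one_mul, div_le_iff₀ hL']
    linarith
  · obtain ⟨i, hi⟩ := hT3 D hD E hE hne
    exact ⟨w i, ⟨h.inv i, degreeLE_mono (hm i) (h.deg i), h.add i⟩, hi⟩

end

end Pool.Agent.H66.VU
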