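import Pool.Agent.H66.VU.Ex

/-!
# Moving double points to the right, exactly
-/

set_option autoImplicit false

namespace Pool.Agent.H66.VU

open Pool.Agent.H835R2 Pool.Agent.H835R2.Knot Pool.Agent.H835R2.Flat Pool.Agent.Y466.FT
  Pool.Agent.H66.VG
open Pool.Agent.H835R2.Flat.FP
open Pool.Agent.H835R2.Knot.St (tok content o e)

/-- One exchange inside a word. -/
theorem xst {F : Front} (hF : GF F) {u : FWord} (a : FWord) (p q : FP) (b : FWord)
    (hpq : p.index + p.ins ≤ q.index) (h : Flat.ok u F) {m : FWord} (hm : m = [p, p.past q])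
    (e : u = a ++ m ++ b) : Ex F u (a ++ [q, p] ++ b) ∧ Flat.ok (a ++ [q, p] ++ b) F := by
  subst hm
  subst e
  have h1 := Ex.mid hF h (ex_exch hpq ((Flat.ok_append _ _ _).1 ((Flat.ok_append _ _ _).1 h).1).2)
  exact ⟨h1, h1.1.ok hF h⟩

/-- A zigzag inside a word. -/
theorem xzz {F : Front} (hF : GF F) {u : FWord} (a : FWord) (i : ℕ) (c : Bool) (b : FWord)
    (hi : i + 1 ≤ (fr a F).n) (hc : c = !(fr a F).dir i) (h : Flat.ok u F) (e : u = a ++ b) :
    Ex F u (a ++ [birth (i + 1) c, death i] ++ b) ∧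
      Flat.ok (a ++ [birth (i + 1) c, death i] ++ b) F := by
  subst e
  have h' : Flat.ok (a ++ [] ++ b) F := by simpa using h
  have h1 := Ex.mid hF h' (ex_zig₂ i c (zig₂_le hi hc)).symm
  rw [List.append_nil] at h1
  exact ⟨h1, h1.1.ok hF h⟩

theorem ctx_sub {v : Word → ℚ} (hv : IsInvariant v) {x y : FWord} (α β : Word) {l r : Word}
    (hm : Move l r) {m m' : Word} (e : m = α ++ l ++ β) (e' : m' = α ++ r ++ β)
    (hk : IsKnot (pw x ++ m ++ pw y)) (hk' : IsKnot (pw x ++ m' ++ pw y)) :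
    ctx v x y m = ctx v x y m' := by
  subst e
  subst e'
  refine ctx_iso hv hk fun a c ha hc => ?_
  have h1 := ((ha.knot hc).2 hk).1
  have h2 := ((ha.knot hc).2 hk').1
  have e1 : ∀ t : Word, a ++ (α ++ t ++ β) ++ c = (a ++ α) ++ t ++ (β ++ c) := fun t => by simp
  rw [e1] at h1 h2 ⊢
  rw [e1]
  exact Relation.EqvGen.rel _ _ (Step.mk (a ++ α) l r (β ++ c) hm h1 h2)

theorem ctx_tr' {v : Word → ℚ} (hv : IsInvariant v) {x y : FWord} {i : ℕ} (α β : Word)
    {l r : Word} (hm : Sing.Tr i l r) (hn : i + 3 ≤ (Knot.run α (fr x Front.empty)).n)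
    {m m' : Word} (e : m = α ++ l ++ β) (e' : m' = α ++ r ++ β)
    (hk : IsKnot (pw x ++ m ++ pw y)) : ctx v x y m = ctx v x y m' := by
  subst e
  subst e'
  refine ctx_iso hv hk fun a c ha hc => ?_
  have h1 := ((ha.knot hc).2 hk).1
  have e1 : ∀ t : Word, a ++ (α ++ t ++ β) ++ c = (a ++ α) ++ t ++ (β ++ c) := fun t => by simp
  rw [e1] at h1 ⊢
  rw [e1]
  refine iso_of_tr hm ?_ h1
  rw [Knot.run_append, (ha.run_eq Front.empty).1]
  exact hn

theorem knot_same {x y m m' : Word} (h : List.Forall₂ (fun p q => q = p ∨ q = p.switch) m m')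
    (hk : IsKnot (x ++ m ++ y)) : IsKnot (x ++ m' ++ y) :=
  (Same.knot (List.rel_append (List.rel_append (Same.refl x) h) (Same.refl y))).2 hk

/-- A strand passes a box. -/
theorem xpass {F : Front} (hF : GF F) {j : ℕ} (h : Flat.ok (box j) F) (hn : j + 5 ≤ F.n) :
    Ex F (box j) (Flat.P j ++ box (j + 1)) ∧ Flat.ok (Flat.P j ++ box (j + 1)) F := by
  have n1 : (fr [dbl j, death (j + 1)] F).n = F.n - 2 := rfl
  obtain ⟨e1, o1⟩ := cc hF [dbl j, death (j + 1)] (j + 1) [death j] (by omega) h rfl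
  obtain ⟨e2, o2⟩ := st hF [dbl j, death (j + 1), X (j + 1)] _ _ [] (FMove.slD j) o1 rfl
  obtain ⟨e3, o3⟩ := st hF [dbl j] [death (j + 1), X (j + 1)] [X (j + 3), death (j + 1)]
    [X j, death (j + 1)] (FMove.exch (death (j + 1)) (X (j + 3)) (by show j + 1 + 2 ≤ j + 3; omega))
    o2 rfl
  obtain ⟨e4, o4⟩ := cc hF [dbl j, X (j + 3)] (j + 2) [death (j + 1), X j, death (j + 1)]
    (by have : (fr [dbl j, X (j + 3)] F).n = F.n := rfl
        omega) o3 rfl
  obtain ⟨e5, o5⟩ := st hF [dbl j, X (j + 3), X (j + 2)] _ _ [X j, death (j + 1)]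
    (FMove.slD (j + 1)) o4 rfl
  obtain ⟨e6, o6⟩ := ts hF [dbl j, X (j + 3), X (j + 2), X (j + 1)] [X j, death (j + 2)]
    [death (j + 2), X j] [death (j + 1)] (FMove.exch (X j) (death (j + 2)) (le_refl _)) (by simp)
    o5 rfl
  obtain ⟨e7, o7⟩ := st hF [] [dbl j, X (j + 3)] [X (j + 3), dbl j]
    [X (j + 2), X (j + 1), X j, death (j + 2), death (j + 1)]
    (FMove.exch (dbl j) (X (j + 3)) (by show j + 2 ≤ j + 3; omega)) o6 rfl
  obtain ⟨e8, o8⟩ := st hF [X (j + 3)] [dbl j, X (j + 2)] [X (j + 2), dbl j]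
    [X (j + 1), X j, death (j + 2), death (j + 1)]
    (FMove.exch (dbl j) (X (j + 2)) (le_refl _)) o7 rfl
  obtain ⟨e9, o9⟩ := ts hF [X (j + 3), X (j + 2)] _ _ [death (j + 2), death (j + 1)]
    (FMove.fth j) (by simp) o8 rfl
  have a1 := e1
  have a2 := a1.trans e2
  have a3 := a2.trans e3
  have a4 := a3.trans e4
  have a5 := a4.trans e5
  have a6 := a5.trans e6
  have a7 := a6.trans e7
  have a8 := a7.trans e8
  have a9 := a8.trans e9
  refine ⟨Ex.mk' a9 fun x y v hv hx hl hr => ?_, o9⟩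
  have kk : ∀ {u : FWord}, LE F (box j) u → IsKnot (pw x ++ pw u ++ pw y) := fun hu =>
    kn_mid (kn_ctx hu hx (kn_of_mid hl))
  have k0 : ∀ {m : Word}, List.Forall₂ (fun p q => q = p ∨ q = p.switch) (pw (box j)) m →
      IsKnot (pw x ++ m ++ pw y) := fun hs => knot_same hs hl
  have kk2 : ∀ {u : FWord} {m : Word}, LE F (box j) u →
      List.Forall₂ (fun p q => q = p ∨ q = p.switch) (pw u) m →
      IsKnot (pw x ++ m ++ pw y) := fun hu hs => knot_same hs (kk hu)
  have hn3 : j + 3 ≤ (fr x Front.empty).n := by rw [hx]; omega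
  set H := ctx v x y with hH
  have h1 : H [.pos j, .death (j + 1), .death j] =
      H [.pos (j + 3), .pos (j + 2), .pos (j + 1), .pos j, .pos (j + 1), .death (j + 2), .death (j + 1)] := by
    have q0 : IsKnot (pw x ++ ([.pos j, .death (j + 1), .death j] : Word) ++ pw y) :=
      k0 (.cons (Or.inl rfl) (.cons (Or.inl rfl) (.cons (Or.inl rfl) .nil)))
    have q1 : IsKnot (pw x ++ ([.pos j, .death (j + 1), .pos (j + 1), .neg (j + 1), .death j] : Word) ++ pw y) :=
      kk2 a1 (.cons (Or.inl rfl) (.cons (Or.inl rfl) (.cons (Or.inl rfl) (.cons (Or.inr rfl) (.cons (Or.inl rfl) .nil)))))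
    have q2 : IsKnot (pw x ++ ([.pos j, .death (j + 1), .pos (j + 1), .pos j, .death (j + 1)] : Word) ++ pw y) :=
      kk2 a2 (.cons (Or.inl rfl) (.cons (Or.inl rfl) (.cons (Or.inl rfl) (.cons (Or.inl rfl) (.cons (Or.inl rfl) .nil)))))
    have q3 : IsKnot (pw x ++ ([.pos j, .pos (j + 3), .death (j + 1), .pos j, .death (j + 1)] : Word) ++ pw y) :=
      kk2 a3 (.cons (Or.inl rfl) (.cons (Or.inl rfl) (.cons (Or.inl rfl) (.cons (Or.inl rfl) (.cons (Or.inl rfl) .nil)))))
    have q4 : IsKnot (pw x ++ ([.pos j, .pos (j + 3), .pos (j + 2), .neg (j + 2), .death (j + 1), .pos j, .death (j + 1)] : Word) ++ pw y) :=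
      kk2 a4 (.cons (Or.inl rfl) (.cons (Or.inl rfl) (.cons (Or.inl rfl) (.cons (Or.inr rfl) (.cons (Or.inl rfl) (.cons (Or.inl rfl) (.cons (Or.inl rfl) .nil)))))))
    have q5 : IsKnot (pw x ++ ([.pos j, .pos (j + 3), .pos (j + 2), .pos (j + 1), .death (j + 2), .pos j, .death (j + 1)] : Word) ++ pw y) :=
      kk2 a5 (.cons (Or.inl rfl) (.cons (Or.inl rfl) (.cons (Or.inl rfl) (.cons (Or.inl rfl) (.cons (Or.inl rfl) (.cons (Or.inl rfl) (.cons (Or.inl rfl) .nil)))))))
    have q6 : IsKnot (pw x ++ ([.pos j, .pos (j + 3), .pos (j + 2), .pos (j + 1), .pos j, .death (j + 2), .death (j + 1)] : Word) ++ pw y) :=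
      kk2 a6 (.cons (Or.inl rfl) (.cons (Or.inl rfl) (.cons (Or.inl rfl) (.cons (Or.inl rfl) (.cons (Or.inl rfl) (.cons (Or.inl rfl) (.cons (Or.inl rfl) .nil)))))))
    have q7 : IsKnot (pw x ++ ([.pos (j + 3), .pos j, .pos (j + 2), .pos (j + 1), .pos j, .death (j + 2), .death (j + 1)] : Word) ++ pw y) :=
      kk2 a7 (.cons (Or.inl rfl) (.cons (Or.inl rfl) (.cons (Or.inl rfl) (.cons (Or.inl rfl) (.cons (Or.inl rfl) (.cons (Or.inl rfl) (.cons (Or.inl rfl) .nil)))))))
    have q8 : IsKnot (pw x ++ ([.pos (j + 3), .pos (j + 2), .pos j, .pos (j + 1), .pos j, .death (j + 2), .death (j + 1)] : Word) ++ pw y) :=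
      kk2 a8 (.cons (Or.inl rfl) (.cons (Or.inl rfl) (.cons (Or.inl rfl) (.cons (Or.inl rfl) (.cons (Or.inl rfl) (.cons (Or.inl rfl) (.cons (Or.inl rfl) .nil)))))))
    have q9 : IsKnot (pw x ++ ([.pos (j + 3), .pos (j + 2), .pos (j + 1), .pos j, .pos (j + 1), .death (j + 2), .death (j + 1)] : Word) ++ pw y) :=
      kk2 a9 (.cons (Or.inl rfl) (.cons (Or.inl rfl) (.cons (Or.inl rfl) (.cons (Or.inl rfl) (.cons (Or.inl rfl) (.cons (Or.inl rfl) (.cons (Or.inl rfl) .nil)))))))
    have s1 : H [.pos j, .death (j + 1), .death j] =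
        H [.pos j, .death (j + 1), .pos (j + 1), .neg (j + 1), .death j] :=
      (ctx_sub hv [.pos j, .death (j + 1)]
        [.death j]
        (Move.second₁ (j + 1)) rfl rfl q1 q0).symm
    have s2 : H [.pos j, .death (j + 1), .pos (j + 1), .neg (j + 1), .death j] =
        H [.pos j, .death (j + 1), .pos (j + 1), .pos j, .death (j + 1)] :=
      ctx_sub hv [.pos j, .death (j + 1), .pos (j + 1)]
        []
        (Move.slideDeath₂ j) rfl rfl q1 q2
    have s3 : H [.pos j, .death (j + 1), .pos (j + 1), .pos j, .death (j + 1)] =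
        H [.pos j, .pos (j + 3), .death (j + 1), .pos j, .death (j + 1)] :=
      ctx_sub hv [.pos j]
        [.pos j, .death (j + 1)]
        (Move.exchange (.death (j + 1)) (.pos (j + 3)) (by show j + 1 + 2 ≤ j + 3; omega)) rfl rfl q2 q3
    have s4 : H [.pos j, .pos (j + 3), .death (j + 1), .pos j, .death (j + 1)] =
        H [.pos j, .pos (j + 3), .pos (j + 2), .neg (j + 2), .death (j + 1), .pos j, .death (j + 1)] :=
      (ctx_sub hv [.pos j, .pos (j + 3)]
        [.death (j + 1), .pos j, .death (j + 1)]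
        (Move.second₁ (j + 2)) rfl rfl q4 q3).symm
    have s5 : H [.pos j, .pos (j + 3), .pos (j + 2), .neg (j + 2), .death (j + 1), .pos j, .death (j + 1)] =
        H [.pos j, .pos (j + 3), .pos (j + 2), .pos (j + 1), .death (j + 2), .pos j, .death (j + 1)] :=
      ctx_sub hv [.pos j, .pos (j + 3), .pos (j + 2)]
        [.pos j, .death (j + 1)]
        (Move.slideDeath₂ (j + 1)) rfl rfl q4 q5
    have s6 : H [.pos j, .pos (j + 3), .pos (j + 2), .pos (j + 1), .death (j + 2), .pos j, .death (j + 1)] =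
        H [.pos j, .pos (j + 3), .pos (j + 2), .pos (j + 1), .pos j, .death (j + 2), .death (j + 1)] :=
      (ctx_sub hv [.pos j, .pos (j + 3), .pos (j + 2), .pos (j + 1)]
        [.death (j + 1)]
        (Move.exchange (.pos j) (.death (j + 2)) (by show j + 2 ≤ j + 2; omega)) rfl rfl q6 q5).symm
    have s7 : H [.pos j, .pos (j + 3), .pos (j + 2), .pos (j + 1), .pos j, .death (j + 2), .death (j + 1)] =
        H [.pos (j + 3), .pos j, .pos (j + 2), .pos (j + 1), .pos j, .death (j + 2), .death (j + 1)] :=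
      ctx_sub hv []
        [.pos (j + 2), .pos (j + 1), .pos j, .death (j + 2), .death (j + 1)]
        (Move.exchange (.pos j) (.pos (j + 3)) (by show j + 2 ≤ j + 3; omega)) rfl rfl q6 q7
    have s8 : H [.pos (j + 3), .pos j, .pos (j + 2), .pos (j + 1), .pos j, .death (j + 2), .death (j + 1)] =
        H [.pos (j + 3), .pos (j + 2), .pos j, .pos (j + 1), .pos j, .death (j + 2), .death (j + 1)] :=
      ctx_sub hv [.pos (j + 3)]
        [.pos (j + 1), .pos j, .death (j + 2), .death (j + 1)]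
        (Move.exchange (.pos j) (.pos (j + 2)) (by show j + 2 ≤ j + 2; omega)) rfl rfl q7 q8
    have s9 : H [.pos (j + 3), .pos (j + 2), .pos j, .pos (j + 1), .pos j, .death (j + 2), .death (j + 1)] =
        H [.pos (j + 3), .pos (j + 2), .pos (j + 1), .pos j, .pos (j + 1), .death (j + 2), .death (j + 1)] :=
      ctx_tr' hv [.pos (j + 3), .pos (j + 2)]
        [.death (j + 2), .death (j + 1)]
        (Sing.third_pos j) hn3 rfl rfl q8
    exact (((s1.trans s2).trans (s3.trans s4)).trans ((s5.trans s6).trans (s7.trans s8))).trans s9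
  have h2 : H [.neg j, .death (j + 1), .death j] =
      H [.pos (j + 3), .pos (j + 2), .pos (j + 1), .pos j, .neg (j + 1), .death (j + 2), .death (j + 1)] := by
    have q0 : IsKnot (pw x ++ ([.neg j, .death (j + 1), .death j] : Word) ++ pw y) :=
      k0 (.cons (Or.inr rfl) (.cons (Or.inl rfl) (.cons (Or.inl rfl) .nil)))
    have q1 : IsKnot (pw x ++ ([.neg j, .death (j + 1), .pos (j + 1), .neg (j + 1), .death j] : Word) ++ pw y) :=
      kk2 a1 (.cons (Or.inr rfl) (.cons (Or.inl rfl) (.cons (Or.inl rfl) (.cons (Or.inr rfl) (.cons (Or.inl rfl) .nil)))))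
    have q2 : IsKnot (pw x ++ ([.neg j, .death (j + 1), .pos (j + 1), .pos j, .death (j + 1)] : Word) ++ pw y) :=
      kk2 a2 (.cons (Or.inr rfl) (.cons (Or.inl rfl) (.cons (Or.inl rfl) (.cons (Or.inl rfl) (.cons (Or.inl rfl) .nil)))))
    have q3 : IsKnot (pw x ++ ([.neg j, .pos (j + 3), .death (j + 1), .pos j, .death (j + 1)] : Word) ++ pw y) :=
      kk2 a3 (.cons (Or.inr rfl) (.cons (Or.inl rfl) (.cons (Or.inl rfl) (.cons (Or.inl rfl) (.cons (Or.inl rfl) .nil)))))
    have q4 : IsKnot (pw x ++ ([.neg j, .pos (j + 3), .pos (j + 2), .neg (j + 2), .death (j + 1), .pos j, .death (j + 1)] : Word) ++ pw y) :=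
      kk2 a4 (.cons (Or.inr rfl) (.cons (Or.inl rfl) (.cons (Or.inl rfl) (.cons (Or.inr rfl) (.cons (Or.inl rfl) (.cons (Or.inl rfl) (.cons (Or.inl rfl) .nil)))))))
    have q5 : IsKnot (pw x ++ ([.neg j, .pos (j + 3), .pos (j + 2), .pos (j + 1), .death (j + 2), .pos j, .death (j + 1)] : Word) ++ pw y) :=
      kk2 a5 (.cons (Or.inr rfl) (.cons (Or.inl rfl) (.cons (Or.inl rfl) (.cons (Or.inl rfl) (.cons (Or.inl rfl) (.cons (Or.inl rfl) (.cons (Or.inl rfl) .nil)))))))
    have q6 : IsKnot (pw x ++ ([.neg j, .pos (j + 3), .pos (j + 2), .pos (j + 1), .pos j, .death (j + 2), .death (j + 1)] : Word) ++ pw y) :=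
      kk2 a6 (.cons (Or.inr rfl) (.cons (Or.inl rfl) (.cons (Or.inl rfl) (.cons (Or.inl rfl) (.cons (Or.inl rfl) (.cons (Or.inl rfl) (.cons (Or.inl rfl) .nil)))))))
    have q7 : IsKnot (pw x ++ ([.pos (j + 3), .neg j, .pos (j + 2), .pos (j + 1), .pos j, .death (j + 2), .death (j + 1)] : Word) ++ pw y) :=
      kk2 a7 (.cons (Or.inl rfl) (.cons (Or.inr rfl) (.cons (Or.inl rfl) (.cons (Or.inl rfl) (.cons (Or.inl rfl) (.cons (Or.inl rfl) (.cons (Or.inl rfl) .nil)))))))
    have q8 : IsKnot (pw x ++ ([.pos (j + 3), .pos (j + 2), .neg j, .pos (j + 1), .pos j, .death (j + 2), .death (j + 1)] : Word) ++ pw y) :=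
      kk2 a8 (.cons (Or.inl rfl) (.cons (Or.inl rfl) (.cons (Or.inr rfl) (.cons (Or.inl rfl) (.cons (Or.inl rfl) (.cons (Or.inl rfl) (.cons (Or.inl rfl) .nil)))))))
    have q9 : IsKnot (pw x ++ ([.pos (j + 3), .pos (j + 2), .pos (j + 1), .pos j, .neg (j + 1), .death (j + 2), .death (j + 1)] : Word) ++ pw y) :=
      kk2 a9 (.cons (Or.inl rfl) (.cons (Or.inl rfl) (.cons (Or.inl rfl) (.cons (Or.inl rfl) (.cons (Or.inr rfl) (.cons (Or.inl rfl) (.cons (Or.inl rfl) .nil)))))))
    have s1 : H [.neg j, .death (j + 1), .death j] =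
        H [.neg j, .death (j + 1), .pos (j + 1), .neg (j + 1), .death j] :=
      (ctx_sub hv [.neg j, .death (j + 1)]
        [.death j]
        (Move.second₁ (j + 1)) rfl rfl q1 q0).symm
    have s2 : H [.neg j, .death (j + 1), .pos (j + 1), .neg (j + 1), .death j] =
        H [.neg j, .death (j + 1), .pos (j + 1), .pos j, .death (j + 1)] :=
      ctx_sub hv [.neg j, .death (j + 1), .pos (j + 1)]
        []
        (Move.slideDeath₂ j) rfl rfl q1 q2
    have s3 : H [.neg j, .death (j + 1), .pos (j + 1), .pos j, .death (j + 1)] =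
        H [.neg j, .pos (j + 3), .death (j + 1), .pos j, .death (j + 1)] :=
      ctx_sub hv [.neg j]
        [.pos j, .death (j + 1)]
        (Move.exchange (.death (j + 1)) (.pos (j + 3)) (by show j + 1 + 2 ≤ j + 3; omega)) rfl rfl q2 q3
    have s4 : H [.neg j, .pos (j + 3), .death (j + 1), .pos j, .death (j + 1)] =
        H [.neg j, .pos (j + 3), .pos (j + 2), .neg (j + 2), .death (j + 1), .pos j, .death (j + 1)] :=
      (ctx_sub hv [.neg j, .pos (j + 3)]
        [.death (j + 1), .pos j, .death (j + 1)]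
        (Move.second₁ (j + 2)) rfl rfl q4 q3).symm
    have s5 : H [.neg j, .pos (j + 3), .pos (j + 2), .neg (j + 2), .death (j + 1), .pos j, .death (j + 1)] =
        H [.neg j, .pos (j + 3), .pos (j + 2), .pos (j + 1), .death (j + 2), .pos j, .death (j + 1)] :=
      ctx_sub hv [.neg j, .pos (j + 3), .pos (j + 2)]
        [.pos j, .death (j + 1)]
        (Move.slideDeath₂ (j + 1)) rfl rfl q4 q5
    have s6 : H [.neg j, .pos (j + 3), .pos (j + 2), .pos (j + 1), .death (j + 2), .pos j, .death (j + 1)] =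
        H [.neg j, .pos (j + 3), .pos (j + 2), .pos (j + 1), .pos j, .death (j + 2), .death (j + 1)] :=
      (ctx_sub hv [.neg j, .pos (j + 3), .pos (j + 2), .pos (j + 1)]
        [.death (j + 1)]
        (Move.exchange (.pos j) (.death (j + 2)) (by show j + 2 ≤ j + 2; omega)) rfl rfl q6 q5).symm
    have s7 : H [.neg j, .pos (j + 3), .pos (j + 2), .pos (j + 1), .pos j, .death (j + 2), .death (j + 1)] =
        H [.pos (j + 3), .neg j, .pos (j + 2), .pos (j + 1), .pos j, .death (j + 2), .death (j + 1)] :=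
      ctx_sub hv []
        [.pos (j + 2), .pos (j + 1), .pos j, .death (j + 2), .death (j + 1)]
        (Move.exchange (.neg j) (.pos (j + 3)) (by show j + 2 ≤ j + 3; omega)) rfl rfl q6 q7
    have s8 : H [.pos (j + 3), .neg j, .pos (j + 2), .pos (j + 1), .pos j, .death (j + 2), .death (j + 1)] =
        H [.pos (j + 3), .pos (j + 2), .neg j, .pos (j + 1), .pos j, .death (j + 2), .death (j + 1)] :=
      ctx_sub hv [.pos (j + 3)]
        [.pos (j + 1), .pos j, .death (j + 2), .death (j + 1)]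
        (Move.exchange (.neg j) (.pos (j + 2)) (by show j + 2 ≤ j + 2; omega)) rfl rfl q7 q8
    have s9 : H [.pos (j + 3), .pos (j + 2), .neg j, .pos (j + 1), .pos j, .death (j + 2), .death (j + 1)] =
        H [.pos (j + 3), .pos (j + 2), .pos (j + 1), .pos j, .neg (j + 1), .death (j + 2), .death (j + 1)] :=
      ctx_tr' hv [.pos (j + 3), .pos (j + 2)]
        [.death (j + 2), .death (j + 1)]
        (Sing.third_npp j) hn3 rfl rfl q8
    exact (((s1.trans s2).trans (s3.trans s4)).trans ((s5.trans s6).trans (s7.trans s8))).trans s9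
  show H [.pos j, .death (j + 1), .death j] - H [.neg j, .death (j + 1), .death j] =
    H [.pos (j + 3), .pos (j + 2), .pos (j + 1), .pos j, .pos (j + 1), .death (j + 2),
        .death (j + 1)] - H [.pos (j + 3), .pos (j + 2), .pos (j + 1), .pos j, .neg (j + 1),
        .death (j + 2), .death (j + 1)]
  rw [h1, h2]

end Pool.Agent.H66.VU
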