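import Pool.Agent.H66.VU.XBox

/-!
# The normal form of a singular knot, exactly
-/

set_option autoImplicit false
set_option linter.unusedSimpArgs false
set_option linter.unusedVariables false

namespace Pool.Agent.H66.VU

open Pool.Agent.H835R2 Pool.Agent.H835R2.Knot Pool.Agent.H835R2.Flat Pool.Agent.Y466.FT
  Pool.Agent.H66.VG
open Pool.Agent.H835R2.Flat.FP
open Pool.Agent.H835R2.Knot.St (tok content o e)

/-- A double point becomes a box. -/
theorem xdbl_box {F : Front} (hF : GF F) {i : ℕ} (h : Flat.ok [dbl i] F) :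
    Ex F [dbl i] ([birth (i + 2) (!F.dir i), birth (i + 3) (!F.dir (i + 1))] ++ box i) ∧
      Flat.ok ([birth (i + 2) (!F.dir i), birth (i + 3) (!F.dir (i + 1))] ++ box i) F := by
  have hi : i + 2 ≤ F.n := h.1
  set b := !F.dir i with hb
  set b' := !F.dir (i + 1) with hb'
  obtain ⟨e1, o1⟩ := xzz hF [dbl i] i b' []
    (by have : (fr [dbl i] F).n = F.n := rfl
        omega)
    (by
      have : (fr [dbl i] F).dir i = F.dir (sw i i) := rfl
      rw [this, sw_left]) h rfl
  obtain ⟨e2, o2⟩ := xzz hF [dbl i] (i + 1) b [birth (i + 1) b', death i]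
    (by have : (fr [dbl i] F).n = F.n := rfl
        omega)
    (by
      have : (fr [dbl i] F).dir (i + 1) = F.dir (sw i (i + 1)) := rfl
      rw [this, sw_right]) o1 rfl
  obtain ⟨e3, o3⟩ := xst hF [dbl i, birth (i + 2) b] (death (i + 1))
    (birth (i + 3) b') [death i] (le_refl _) o2 (m := [death (i + 1), birth (i + 1) b']) rfl rfl
  obtain ⟨e4, o4⟩ := xst hF [] (dbl i) (birth (i + 2) b)
    [birth (i + 3) b', death (i + 1), death i] (le_refl _) o3 (m := [dbl i, birth (i + 2) b]) rfl rfl
  obtain ⟨e5, o5⟩ := xst hF [birth (i + 2) b] (dbl i) (birth (i + 3) b')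
    [death (i + 1), death i] (by show i + 2 ≤ i + 3; omega) o4 (m := [dbl i, birth (i + 3) b']) rfl rfl
  exact ⟨(e1.trans e2).trans ((e3.trans e4).trans e5), o5⟩

theorem xbox_PP {F : Front} (hF : GF F) {i c : ℕ} (h : Flat.ok (box i) F) (hn : i + c + 4 ≤ F.n) :
    Ex F (box i) (PP i c ++ box (i + c)) ∧ Flat.ok (PP i c ++ box (i + c)) F := by
  induction c generalizing F i with
  | zero => exact ⟨Ex.refl _ _, h⟩
  | succ c ih =>
    obtain ⟨e1, o1⟩ := xpass hF h (by omega)
    have o1' := (Flat.ok_append _ _ _).1 o1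
    have hn' : (fr (Flat.P i) F).n = F.n := (isX_P i).fr_n F
    obtain ⟨e2, o2⟩ := ih (hF.fr o1'.1) (i := i + 1) o1'.2 (by omega)
    have e3 := Ex.pre o1'.1 e2
    have e4 : Flat.P i ++ (PP (i + 1) c ++ box (i + 1 + c)) = PP i (c + 1) ++ box (i + (c + 1)) := by
      show _ = Flat.P i ++ PP (i + 1) c ++ box (i + (c + 1))
      rw [List.append_assoc, show i + 1 + c = i + (c + 1) by omega]
    rw [e4] at e3
    exact ⟨e1.trans e3, e3.1.ok hF o1⟩

theorem xdbl_dd {F : Front} (hF : GF F) {i : ℕ} (h : Flat.ok [dbl i] F) :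
    Ex F [dbl i] (dd F i F.n ++ box F.n) ∧ Flat.ok (dd F i F.n ++ box F.n) F := by
  have hi : i + 2 ≤ F.n := h.1
  obtain ⟨e1, o1⟩ := xdbl_box hF h
  have o1' := (Flat.ok_append _ _ _).1 o1
  have hn : (fr [birth (i + 2) (!F.dir i), birth (i + 3) (!F.dir (i + 1))] F).n = F.n + 2 + 2 :=
    rfl
  obtain ⟨e2, o2⟩ := xbox_PP (hF.fr o1'.1) (c := F.n - i) o1'.2 (by omega)
  have e3 := Ex.pre o1'.1 e2
  have e4 : i + (F.n - i) = F.n := by omega
  rw [e4, ← List.append_assoc] at e3
  exact ⟨e1.trans e3, e3.1.ok hF o1⟩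

theorem xcomm_left {F : Front} (hF : GF F) {p : FP} {Y : FWord}
    (hY : ∀ q ∈ Y, p.index + p.ins ≤ q.index) (h : Flat.ok (Y ++ [p]) F) :
    Ex F (Y ++ [p]) (p :: Y.map p.past) := by
  induction Y generalizing F with
  | nil => exact Ex.refl _ _
  | cons q Y ih =>
    have h1 := ih (hF.act h.1) (fun q' hq' => hY q' (List.mem_cons_of_mem _ hq')) h.2
    have h2 : Ex F (q :: (Y ++ [p])) (q :: p :: Y.map p.past) :=
      Ex.pre (a := [q]) ⟨h.1, trivial⟩ h1
    refine h2.trans ?_
    have h3 := h2.1.ok hF h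
    have h4 : Flat.ok [q, p] F := ⟨h3.1, h3.2.1, trivial⟩
    have h5 := (ex_exch (hY q List.mem_cons_self)
      ((exch_fits (hY q List.mem_cons_self) F).2 h4)).symm
    exact Ex.app hF h5 (b := Y.map p.past) h3

theorem xBx_comm {F : Front} (hF : GF F) {p : FP} {n k : ℕ} (hn : p.index + p.ins ≤ n)
    (h : Flat.ok (Bx n k ++ [p]) F) : Ex F (Bx n k ++ [p]) (p :: Bx (n + p.outs - p.ins) k) := by
  have := xcomm_left hF (p := p) (Y := Bx n k) (fun q hq => hn.trans (mem_Bx hq)) h
  rwa [Bx_past hn] at this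

theorem xnfs_spec (w : FWord) : ∀ (v u : FWord) (k : ℕ), Flat.ok (v ++ w) Front.empty →
    Ex Front.empty v (u ++ Bx (fr v Front.empty).n k) → (∀ i, dbl i ∉ u) →
    (fr u Front.empty).n = (fr v Front.empty).n + 4 * k →
    Ex Front.empty (v ++ w) ((nfs (u, k) (fr v Front.empty) w).1 ++
      Bx (fr (v ++ w) Front.empty).n (nfs (u, k) (fr v Front.empty) w).2) ∧
    (∀ i, dbl i ∉ (nfs (u, k) (fr v Front.empty) w).1) ∧
    (fr (nfs (u, k) (fr v Front.empty) w).1 Front.empty).n =
      (fr (v ++ w) Front.empty).n + 4 * (nfs (u, k) (fr v Front.empty) w).2 := by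
  induction w with
  | nil =>
    intro v u k hok he hd hn
    simp only [List.append_nil, nfs]
    exact ⟨he, hd, hn⟩
  | cons p w ih =>
    intro v u k hok he hd hn
    have e0 : v ++ p :: w = v ++ [p] ++ w := by simp
    rw [e0] at hok ⊢
    have o1 := ((Flat.ok_append _ _ _).1 hok).1
    have ov := (Flat.ok_append _ _ _).1 o1
    set F := fr v Front.empty with hFd
    have hF : GF F := gf_empty.fr ov.1
    have hv' : fr (v ++ [p]) Front.empty = p.pc.act F := by rw [fr_append]; rfl
    -- the letter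
    have e1 := he.app gf_empty o1
    have o2 := e1.1.ok gf_empty o1
    rw [List.append_assoc] at o2
    have o2' := (Flat.ok_append _ _ _).1 o2
    have hG : GF (fr u Front.empty) := gf_empty.fr o2'.1
    have hbx : Flat.ok (Bx F.n k) (fr u Front.empty) := ((Flat.ok_append _ _ _).1 o2'.2).1
    obtain ⟨b1, b2⟩ := fr_Bx hn hbx
    have hsame : fr (Bx F.n k) (fr u Front.empty) = F := by
      have := he.1.fr gf_empty
      rw [fr_append] at this
      exact this.symm
    have hpn : p.index + p.ins ≤ F.n := by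
      have : p.pc.Fits F := ov.2.1
      cases p with
      | birth i b => exact this
      | death i => exact this.1
      | X i => exact this
      | dbl i => exact this
    have e2 := xBx_comm hG hpn o2'.2
    have e3 := Ex.pre o2'.1 e2
    rw [List.append_assoc] at e1
    have e4 := e1.trans e3
    have o4 := e4.1.ok gf_empty o1
    have hpo : (p.pc.act F).n = F.n + p.outs - p.ins := by
      cases p <;> rfl
    have key : ∀ u' k', nstep (u, k) F p = (u', k') →
        Ex Front.empty (v ++ [p]) (u' ++ Bx (p.pc.act F).n k') → (∀ i, dbl i ∉ u') →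
        (fr u' Front.empty).n = (p.pc.act F).n + 4 * k' →
        Ex Front.empty (v ++ [p] ++ w) ((nfs (u, k) F (p :: w)).1 ++
          Bx (fr (v ++ [p] ++ w) Front.empty).n (nfs (u, k) F (p :: w)).2) ∧
        (∀ i, dbl i ∉ (nfs (u, k) F (p :: w)).1) ∧
        (fr (nfs (u, k) F (p :: w)).1 Front.empty).n =
          (fr (v ++ [p] ++ w) Front.empty).n + 4 * (nfs (u, k) F (p :: w)).2 := by
      intro u' k' h1 h2 h3 h4
      have := ih (v ++ [p]) u' k' hok (by rw [hv']; exact h2) h3 (by rw [hv']; exact h4)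
      rw [hv'] at this
      show Ex Front.empty (v ++ [p] ++ w) ((nfs (nstep (u, k) F p) (p.pc.act F) w).1 ++ _) ∧ _
      simp only [nfs]
      rw [h1]
      exact this
    by_cases hp : ∃ i, p = dbl i
    · obtain ⟨i, rfl⟩ := hp
      refine key (u ++ dd F i (F.n + 4 * k)) (k + 1) rfl ?_ ?_ ?_
      · -- the double point becomes a box
        have e5 : (dbl i :: Bx (F.n + (dbl i).outs - (dbl i).ins) k) = [dbl i] ++ Bx F.n k := rfl
        rw [e5] at e4 o4
        rw [← List.append_assoc] at o4 e4
        have o5 := (Flat.ok_append _ _ _).1 o4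
        have o6 := (Flat.ok_append _ _ _).1 o5.1
        obtain ⟨e6, o7⟩ := xdbl_dd hG o6.2
        have e7 := (Ex.pre o6.1 e6).app gf_empty o4
        have hdir : dd (fr u Front.empty) i (fr u Front.empty).n = dd F i (F.n + 4 * k) := by
          rw [hn]
          have k1 : i + 2 ≤ F.n := hpn
          refine dd_congr ?_ ?_ _
          · rw [← b2 i (by omega), hsame]
          · rw [← b2 (i + 1) (by omega), hsame]
        rw [hdir, hn] at e7
        have e8 : u ++ (dd F i (F.n + 4 * k) ++ box (F.n + 4 * k)) ++ Bx F.n k =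
            u ++ dd F i (F.n + 4 * k) ++ Bx ((dbl i).pc.act F).n (k + 1) := by
          show _ = u ++ dd F i (F.n + 4 * k) ++ (box (F.n + 4 * k) ++ Bx F.n k)
          simp
        rw [e8] at e7
        exact e4.trans e7
      · intro i' hi'
        rcases List.mem_append.1 hi' with h | h
        · exact hd i' h
        · unfold dd at h
          rcases List.mem_append.1 h with h | h
          · simp at h
          · obtain ⟨j, hj⟩ := isX_PP _ _ _ h
            simp at hj
      · rw [fr_append]
        unfold dd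
        rw [fr_append, (isX_PP _ _).fr_n]
        show (fr u Front.empty).n + 2 + 2 = F.n + 4 * (k + 1)
        omega
    · have hs : nstep (u, k) F p = (u ++ [p], k) := by
        cases p with
        | dbl i => exact absurd ⟨i, rfl⟩ hp
        | _ => rfl
      refine key (u ++ [p]) k hs ?_ ?_ ?_
      · rw [hpo]
        rw [List.append_assoc]
        exact e4
      · intro i hi
        rcases List.mem_append.1 hi with h | h
        · exact hd i h
        · exact hp ⟨i, (List.mem_singleton.1 h).symm⟩
      · rw [fr_append]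
        have : (fr [p] (fr u Front.empty)).n = (fr u Front.empty).n + p.outs - p.ins := by
          cases p <;> rfl
        rw [this, hpo, hn]
        have : p.ins ≤ F.n := by omega
        omega


end Pool.Agent.H66.VU
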